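import Pool.Agent.Lib_helper7.UEL.Dat

set_option autoImplicit false

/-!
Three divisors on the cyclic group of order twelve: the kernel runs the search.
-/

namespace Pool.Agent.UEL

theorem tr1_ok : ck (leafT tab nfs) tr1 3 1 2 0 = true := by decide +kernel

theorem tr2_ok : ck (leafT tab nfs) tr2 7 1 4 0 = true := by decide +kernel

theorem tr3_ok : ck (leafT tab nfs) tr3 15 1 8 0 = true := by decide +kernel

theorem tr4_ok : ck (leafT tab nfs) tr4 31 1 16 0 = true := by decide +kernel

theorem tr5_ok : ck (leafT tab nfs) tr5 63 1 32 0 = true := by decide +kernel

theorem tr6_ok : ck (leafT tab nfs) tr6 127 1 64 0 = true := by decide +kernel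

theorem tr7_ok : ck (leafT tab nfs) tr7 255 1 128 0 = true := by decide +kernel

theorem tr8_ok : ck (leafT tab nfs) tr8 511 1 256 0 = true := by decide +kernel

theorem tr9_ok : ck (leafT tab nfs) tr9 1023 1 512 0 = true := by decide +kernel

theorem tr10_ok : ck (leafT tab nfs) tr10 2047 1 1024 0 = true := by decide +kernel

theorem tr11_ok : ck (leafT tab nfs) tr11 4095 1 2048 0 = true := by decide +kernel

theorem nfs_eq : nfs = cers.map fun c => enc c.X c.Y c.Z := by decide +kernel

theorem cb0_ok : cb0.all cc = true := by decide +kernel

theorem cb1_ok : cb1.all cc = true := by decide +kernel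

theorem cb2_ok : cb2.all cc = true := by decide +kernel

theorem cb3_ok : cb3.all cc = true := by decide +kernel

theorem cb4_ok : cb4.all cc = true := by decide +kernel

theorem cb5_ok : cb5.all cc = true := by decide +kernel

theorem cb6_ok : cb6.all cc = true := by decide +kernel

theorem cb7_ok : cb7.all cc = true := by decide +kernel

theorem cb8_ok : cb8.all cc = true := by decide +kernel

theorem cb9_ok : cb9.all cc = true := by decide +kernel

theorem cb10_ok : cb10.all cc = true := by decide +kernel

theorem cb11_ok : cb11.all cc = true := by decide +kernel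

theorem ce62_s : sc ce62 = true := by decide +kernel

theorem ce62_p1 : rp ce62 1 = true := by decide +kernel

theorem ce62_p2 : rp ce62 2 = true := by decide +kernel

theorem ce62_p3 : rp ce62 3 = true := by decide +kernel

theorem ce62_p4 : rp ce62 4 = true := by decide +kernel

theorem ce62_p5 : rp ce62 5 = true := by decide +kernel

theorem ce62_p6 : rp ce62 6 = true := by decide +kernel

theorem ce62_p7 : rp ce62 7 = true := by decide +kernel

theorem ce62_p8 : rp ce62 8 = true := by decide +kernel

theorem ce62_p9 : rp ce62 9 = true := by decide +kernel

theorem ce62_p10 : rp ce62 10 = true := by decide +kernel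

theorem ce62_p11 : rp ce62 11 = true := by decide +kernel

theorem ce62_p12 : rp ce62 12 = true := by decide +kernel

theorem ce66_s : sc ce66 = true := by decide +kernel

theorem ce66_p1 : rp ce66 1 = true := by decide +kernel

theorem ce66_p2 : rp ce66 2 = true := by decide +kernel

theorem ce66_p3 : rp ce66 3 = true := by decide +kernel

theorem ce66_p4 : rp ce66 4 = true := by decide +kernel

theorem ce66_p5 : rp ce66 5 = true := by decide +kernel

theorem ce66_p6 : rp ce66 6 = true := by decide +kernel

theorem ce66_p7 : rp ce66 7 = true := by decide +kernel

theorem ce66_p8 : rp ce66 8 = true := by decide +kernel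

theorem ce66_p9 : rp ce66 9 = true := by decide +kernel

theorem ce66_p10 : rp ce66 10 = true := by decide +kernel

theorem ce66_p11 : rp ce66 11 = true := by decide +kernel

theorem ce66_p12 : rp ce66 12 = true := by decide +kernel

end Pool.Agent.UEL
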