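import Pool.Agent.Lib_helper7.UEL.Val
import Pool.Agent.Lib_helper7.UEL.Chk

/-!
# Three divisors on the cyclic group of order twelve: all certificates
-/

set_option autoImplicit false

namespace Pool.Agent.UEL

lemma cc_of (c : Cer) (h0 : sc c = true) (h : ∀ v < c.m, rp c (v + 1) = true) (hm : 0 < c.m) :
    cc c = true := by
  unfold cc
  rw [h0, Bool.true_and]
  unfold rp at h
  cases hst : c.st with
  | nil =>
    rw [hst] at h
    exact (Bool.false_ne_true (h 0 hm)).elim
  | cons x l =>
    rw [hst] at h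
    rw [run, List.all_eq_true]
    intro w hw
    unfold vls at hw
    rw [List.mem_map] at hw
    obtain ⟨v, hv, rfl⟩ := hw
    exact h v (List.mem_range.mp hv)

theorem ce62_ok : cc ce62 = true := by
  refine cc_of ce62 ce62_s (fun v hv => ?_) (by decide)
  have hv : v < 12 := hv
  interval_cases v
  exacts [ce62_p1, ce62_p2, ce62_p3, ce62_p4, ce62_p5, ce62_p6, ce62_p7, ce62_p8, ce62_p9, ce62_p10, ce62_p11, ce62_p12]

theorem cb12_ok : cb12.all cc = true := by
  rw [cb12, List.all_cons, List.all_nil, ce62_ok]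
  rfl

theorem ce66_ok : cc ce66 = true := by
  refine cc_of ce66 ce66_s (fun v hv => ?_) (by decide)
  have hv : v < 12 := hv
  interval_cases v
  exacts [ce66_p1, ce66_p2, ce66_p3, ce66_p4, ce66_p5, ce66_p6, ce66_p7, ce66_p8, ce66_p9, ce66_p10, ce66_p11, ce66_p12]

theorem cb13_ok : cb13.all cc = true := by
  rw [cb13, List.all_cons, List.all_nil, ce66_ok]
  rfl

theorem cers_ok : cers.all cc = true := by
  unfold cers
  simp only [List.all_append, Bool.and_eq_true]
  exact ⟨cb0_ok, cb1_ok, cb2_ok, cb3_ok, cb4_ok, cb5_ok, cb6_ok, cb7_ok, cb8_ok, cb9_ok, cb10_ok, cb11_ok, cb12_ok, cb13_ok⟩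

end Pool.Agent.UEL
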