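import Pool.Agent.Lib_helper7.UEL.Red
import Pool.Agent.Lib_helper7.UEL.Cmb

/-!
# Three divisors on the cyclic group of order twelve
-/

set_option autoImplicit false
set_option linter.unusedVariables false
set_option linter.unusedSectionVars false

namespace Pool.Agent.UEL

open UP Finset

variable {D E G : ZMod 12 → ℤ} {d : ℤ}

/-- as a function of natural numbers -/
def nx (D : ZMod 12 → ℤ) : ℕ → ℤ := fun y => D (y : ZMod 12)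

lemma sum_nx (f : ZMod 12 → ℤ) : ∑ y ∈ range 12, f (y : ZMod 12) = ∑ x, f x := by
  rw [Finset.sum_range]
  refine Finset.sum_congr rfl fun i _ => ?_
  congr 1
  exact ZMod.natCast_zmod_val (n := 12) i

lemma nx_rel {D M : ZMod 12 → ℤ} (h : Rl D M) (T U j : ℕ) (hT : T < 12) (hU : U < 12)
    (hj : j < 12) (h1 : nx D T ≠ 0) (h2 : nx D U ≠ 0) :
    ∑ y ∈ range 12, ((bt (mA T U j) y : ℤ) - bt (mA U T j) y) * nx M y = 0 := by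
  apply sum_rel hT hU hj
  have := h (T : ZMod 12) (U : ZMod 12) h1 h2 (j : ZMod 12)
  have e1 : ∀ T : ℕ, (((T + 12 - j) % 12 : ℕ) : ZMod 12) = (T : ZMod 12) - (j : ZMod 12) := by
    intro T
    have h0 : ((12 : ℕ) : ZMod 12) = 0 := ZMod.natCast_self 12
    rw [ZMod.natCast_mod, Nat.cast_sub (by omega), Nat.cast_add, h0, add_zero]
  have e2 : ∀ T : ℕ, (((T + j) % 12 : ℕ) : ZMod 12) = (T : ZMod 12) + (j : ZMod 12) := by
    intro T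
    rw [ZMod.natCast_mod, Nat.cast_add]
  unfold nx
  rw [e1, e1, e2, e2]
  exact this

lemma dvd_of {D G : ZMod 12 → ℤ} (h : ∑ x : ZMod 12, (D x - G x) • x = 0) :
    (12 : ℤ) ∣ ∑ y ∈ range 12, (y : ℤ) * (nx D y - nx G y) := by
  have h1 := (ZMod.intCast_zmod_eq_zero_iff_dvd (∑ y ∈ range 12, (y : ℤ) * (nx D y - nx G y)) 12).mp
  have h2 : ((12 : ℕ) : ℤ) = 12 := rfl
  rw [h2] at h1
  apply h1
  have key : ∀ f : ZMod 12 → ZMod 12, ∑ y ∈ range 12, f (y : ZMod 12) = ∑ x, f x := by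
    intro f
    rw [Finset.sum_range]
    refine Finset.sum_congr rfl fun i _ => ?_
    congr 1
    exact ZMod.natCast_zmod_val (n := 12) i
  rw [← h, ← key fun x => (D x - G x) • x]
  push_cast
  refine Finset.sum_congr rfl fun i _ => ?_
  unfold nx
  rw [zsmul_eq_mul]
  push_cast
  ring

lemma Hn.vb (h : Hn D E G d) : Vb (nx D) (nx E) (nx G) d where
  x0 y := h.d0 _
  y0 y := h.e0 _
  z0 y := h.g0 _
  xy y := h.de _
  yz y := h.eg _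
  zx y := h.gd _
  rx T U j hT hU hj h1 h2 := nx_rel h.rd T U j hT hU hj h1 h2
  ry T U j hT hU hj h1 h2 := nx_rel h.re T U j hT hU hj h1 h2
  rz T U j hT hU hj h1 h2 := nx_rel h.rg T U j hT hU hj h1 h2
  sx := (sum_nx D).trans h.sd
  sy := (sum_nx E).trans h.se
  sz := (sum_nx G).trans h.sg
  wx := dvd_of (sum_trans h.s1 h.s2)
  wy := dvd_of h.s2
  wz := dvd_of (sum_symm h.s1)

lemma Hn.card (h : Hn D E G d) : d ≤ ∑ y ∈ range 12, ((bt (bm (nx D)) y : ℤ) +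
    bt (bm (nx E)) y + bt (bm (nx G)) y) := by
  refine h.rh.trans (le_of_eq ?_)
  rw [← Finset.sum_add_distrib, ← Finset.sum_add_distrib, ← sum_nx]
  refine Finset.sum_congr rfl fun y hy => ?_
  have hy := Finset.mem_range.mp hy
  rw [bt_bm _ hy, bt_bm _ hy, bt_bm _ hy]
  unfold nx
  push_cast
  rfl

/-- the function with the given mask and values -/
def un (m : ℕ) (s : List ℕ) : ZMod 12 → ℤ := fun x => ((bt m x.val * s.getD x.val 0 : ℕ) : ℤ)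

lemma eq_un (h : Hn D E G d) {m : ℕ} (hm : bm (nx D) = m) {s : List ℕ}
    (hs : ∀ y < 12, vv (nx D) (nx E) (nx G) y = s.getD y 0) : D = un m s := by
  funext x
  have hx : x.val < 12 := ZMod.val_lt x
  have h1 := btv h.vb.toLb hx
  unfold un
  rw [← hs _ hx, ← hm]
  push_cast
  rw [h1]
  unfold nx
  rw [ZMod.natCast_zmod_val]

/-- the exceptional triples -/
def Ex (A B C : ZMod 12 → ℤ) : Prop :=
  (A = (![0, 0, 0, 0, 0, 0, 0, 0, 3, 0, 0, 0] : Fin 12 → ℤ) ∧ B = (![0, 0, 0, 0, 3, 0, 0, 0, 0, 0, 0, 0] : Fin 12 → ℤ) ∧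
    C = (![3, 0, 0, 0, 0, 0, 0, 0, 0, 0, 0, 0] : Fin 12 → ℤ)) ∨
  (A = (![0, 0, 0, 0, 2, 0, 0, 0, 0, 0, 1, 0] : Fin 12 → ℤ) ∧ B = (![0, 0, 1, 0, 0, 0, 0, 0, 2, 0, 0, 0] : Fin 12 → ℤ) ∧
    C = (![2, 0, 0, 0, 0, 0, 1, 0, 0, 0, 0, 0] : Fin 12 → ℤ)) ∨
  (A = (![0, 0, 0, 0, 3, 0, 0, 0, 0, 0, 0, 0] : Fin 12 → ℤ) ∧ B = (![0, 0, 2, 0, 0, 0, 0, 0, 1, 0, 0, 0] : Fin 12 → ℤ) ∧
    C = (![3, 0, 0, 0, 0, 0, 0, 0, 0, 0, 0, 0] : Fin 12 → ℤ)) ∨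
  (A = (![0, 0, 0, 2, 0, 0, 0, 0, 0, 2, 0, 0] : Fin 12 → ℤ) ∧ B = (![0, 1, 0, 0, 0, 1, 0, 1, 0, 0, 0, 1] : Fin 12 → ℤ) ∧
    C = (![2, 0, 0, 0, 0, 0, 2, 0, 0, 0, 0, 0] : Fin 12 → ℤ)) ∨
  (A = (![0, 0, 1, 1, 0, 0, 0, 0, 1, 1, 0, 0] : Fin 12 → ℤ) ∧ B = (![0, 1, 0, 0, 1, 0, 0, 1, 0, 0, 1, 0] : Fin 12 → ℤ) ∧
    C = (![1, 0, 0, 0, 0, 1, 1, 0, 0, 0, 0, 1] : Fin 12 → ℤ)) ∨
  (A = (![0, 0, 2, 0, 0, 0, 0, 0, 2, 0, 0, 0] : Fin 12 → ℤ) ∧ B = (![0, 1, 0, 1, 0, 0, 0, 1, 0, 1, 0, 0] : Fin 12 → ℤ) ∧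
    C = (![1, 0, 0, 0, 1, 0, 1, 0, 0, 0, 1, 0] : Fin 12 → ℤ)) ∨
  (A = (![0, 0, 0, 0, 3, 0, 0, 0, 0, 0, 3, 0] : Fin 12 → ℤ) ∧ B = (![0, 0, 3, 0, 0, 0, 0, 0, 3, 0, 0, 0] : Fin 12 → ℤ) ∧
    C = (![3, 0, 0, 0, 0, 0, 3, 0, 0, 0, 0, 0] : Fin 12 → ℤ)) ∨
  (A = (![0, 0, 0, 0, 4, 0, 0, 0, 0, 0, 2, 0] : Fin 12 → ℤ) ∧ B = (![0, 0, 2, 0, 0, 0, 0, 0, 4, 0, 0, 0] : Fin 12 → ℤ) ∧
    C = (![4, 0, 0, 0, 0, 0, 2, 0, 0, 0, 0, 0] : Fin 12 → ℤ)) ∨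
  (A = (![0, 0, 0, 0, 5, 0, 0, 0, 0, 0, 1, 0] : Fin 12 → ℤ) ∧ B = (![0, 0, 1, 0, 0, 0, 0, 0, 5, 0, 0, 0] : Fin 12 → ℤ) ∧
    C = (![5, 0, 0, 0, 0, 0, 1, 0, 0, 0, 0, 0] : Fin 12 → ℤ)) ∨
  (A = (![0, 0, 2, 0, 0, 0, 2, 0, 0, 0, 2, 0] : Fin 12 → ℤ) ∧ B = (![0, 1, 0, 1, 0, 1, 0, 1, 0, 1, 0, 1] : Fin 12 → ℤ) ∧
    C = (![2, 0, 0, 0, 2, 0, 0, 0, 2, 0, 0, 0] : Fin 12 → ℤ)) ∨
  (A = (![0, 0, 2, 0, 0, 1, 0, 0, 2, 0, 0, 1] : Fin 12 → ℤ) ∧ B = (![0, 1, 0, 0, 2, 0, 0, 1, 0, 0, 2, 0] : Fin 12 → ℤ) ∧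
    C = (![2, 0, 0, 1, 0, 0, 2, 0, 0, 1, 0, 0] : Fin 12 → ℤ)) ∨
  (A = (![0, 0, 3, 0, 0, 0, 0, 0, 3, 0, 0, 0] : Fin 12 → ℤ) ∧ B = (![0, 2, 0, 0, 1, 0, 0, 2, 0, 0, 1, 0] : Fin 12 → ℤ) ∧
    C = (![3, 0, 0, 0, 0, 0, 3, 0, 0, 0, 0, 0] : Fin 12 → ℤ)) ∨
  (A = (![0, 0, 0, 4, 0, 0, 0, 0, 0, 4, 0, 0] : Fin 12 → ℤ) ∧ B = (![0, 2, 0, 0, 0, 2, 0, 2, 0, 0, 0, 2] : Fin 12 → ℤ) ∧
    C = (![4, 0, 0, 0, 0, 0, 4, 0, 0, 0, 0, 0] : Fin 12 → ℤ)) ∨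
  (A = (![0, 0, 2, 2, 0, 0, 0, 0, 2, 2, 0, 0] : Fin 12 → ℤ) ∧ B = (![0, 2, 0, 0, 2, 0, 0, 2, 0, 0, 2, 0] : Fin 12 → ℤ) ∧
    C = (![2, 0, 0, 0, 0, 2, 2, 0, 0, 0, 0, 2] : Fin 12 → ℤ)) ∨
  (A = (![0, 0, 4, 0, 0, 0, 0, 0, 4, 0, 0, 0] : Fin 12 → ℤ) ∧ B = (![0, 2, 0, 2, 0, 0, 0, 2, 0, 2, 0, 0] : Fin 12 → ℤ) ∧
    C = (![2, 0, 0, 0, 2, 0, 2, 0, 0, 0, 2, 0] : Fin 12 → ℤ)) ∨
  (A = (![0, 0, 3, 0, 0, 3, 0, 0, 3, 0, 0, 3] : Fin 12 → ℤ) ∧ B = (![0, 3, 0, 0, 3, 0, 0, 3, 0, 0, 3, 0] : Fin 12 → ℤ) ∧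
    C = (![3, 0, 0, 3, 0, 0, 3, 0, 0, 3, 0, 0] : Fin 12 → ℤ)) ∨
  (A = (![0, 0, 3, 3, 0, 0, 0, 0, 3, 3, 0, 0] : Fin 12 → ℤ) ∧ B = (![0, 3, 0, 0, 3, 0, 0, 3, 0, 0, 3, 0] : Fin 12 → ℤ) ∧
    C = (![3, 0, 0, 0, 0, 3, 3, 0, 0, 0, 0, 3] : Fin 12 → ℤ)) ∨
  (A = (![0, 0, 4, 0, 0, 0, 4, 0, 0, 0, 4, 0] : Fin 12 → ℤ) ∧ B = (![0, 2, 0, 2, 0, 2, 0, 2, 0, 2, 0, 2] : Fin 12 → ℤ) ∧
    C = (![4, 0, 0, 0, 4, 0, 0, 0, 4, 0, 0, 0] : Fin 12 → ℤ)) ∨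
  (A = (![0, 0, 4, 0, 0, 2, 0, 0, 4, 0, 0, 2] : Fin 12 → ℤ) ∧ B = (![0, 2, 0, 0, 4, 0, 0, 2, 0, 0, 4, 0] : Fin 12 → ℤ) ∧
    C = (![4, 0, 0, 2, 0, 0, 4, 0, 0, 2, 0, 0] : Fin 12 → ℤ)) ∨
  (A = (![0, 0, 5, 0, 0, 1, 0, 0, 5, 0, 0, 1] : Fin 12 → ℤ) ∧ B = (![0, 1, 0, 0, 5, 0, 0, 1, 0, 0, 5, 0] : Fin 12 → ℤ) ∧
    C = (![5, 0, 0, 1, 0, 0, 5, 0, 0, 1, 0, 0] : Fin 12 → ℤ))

/-- the exceptional triples as lists -/
def xl : List (List ℤ × List ℤ × List ℤ) := [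
  ([0, 0, 0, 0, 0, 0, 0, 0, 3, 0, 0, 0], [0, 0, 0, 0, 3, 0, 0, 0, 0, 0, 0, 0],
    [3, 0, 0, 0, 0, 0, 0, 0, 0, 0, 0, 0]),
  ([0, 0, 0, 0, 2, 0, 0, 0, 0, 0, 1, 0], [0, 0, 1, 0, 0, 0, 0, 0, 2, 0, 0, 0],
    [2, 0, 0, 0, 0, 0, 1, 0, 0, 0, 0, 0]),
  ([0, 0, 0, 0, 3, 0, 0, 0, 0, 0, 0, 0], [0, 0, 2, 0, 0, 0, 0, 0, 1, 0, 0, 0],
    [3, 0, 0, 0, 0, 0, 0, 0, 0, 0, 0, 0]),
  ([0, 0, 0, 2, 0, 0, 0, 0, 0, 2, 0, 0], [0, 1, 0, 0, 0, 1, 0, 1, 0, 0, 0, 1],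
    [2, 0, 0, 0, 0, 0, 2, 0, 0, 0, 0, 0]),
  ([0, 0, 1, 1, 0, 0, 0, 0, 1, 1, 0, 0], [0, 1, 0, 0, 1, 0, 0, 1, 0, 0, 1, 0],
    [1, 0, 0, 0, 0, 1, 1, 0, 0, 0, 0, 1]),
  ([0, 0, 2, 0, 0, 0, 0, 0, 2, 0, 0, 0], [0, 1, 0, 1, 0, 0, 0, 1, 0, 1, 0, 0],
    [1, 0, 0, 0, 1, 0, 1, 0, 0, 0, 1, 0]),
  ([0, 0, 0, 0, 3, 0, 0, 0, 0, 0, 3, 0], [0, 0, 3, 0, 0, 0, 0, 0, 3, 0, 0, 0],
    [3, 0, 0, 0, 0, 0, 3, 0, 0, 0, 0, 0]),
  ([0, 0, 0, 0, 4, 0, 0, 0, 0, 0, 2, 0], [0, 0, 2, 0, 0, 0, 0, 0, 4, 0, 0, 0],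
    [4, 0, 0, 0, 0, 0, 2, 0, 0, 0, 0, 0]),
  ([0, 0, 0, 0, 5, 0, 0, 0, 0, 0, 1, 0], [0, 0, 1, 0, 0, 0, 0, 0, 5, 0, 0, 0],
    [5, 0, 0, 0, 0, 0, 1, 0, 0, 0, 0, 0]),
  ([0, 0, 2, 0, 0, 0, 2, 0, 0, 0, 2, 0], [0, 1, 0, 1, 0, 1, 0, 1, 0, 1, 0, 1],
    [2, 0, 0, 0, 2, 0, 0, 0, 2, 0, 0, 0]),
  ([0, 0, 2, 0, 0, 1, 0, 0, 2, 0, 0, 1], [0, 1, 0, 0, 2, 0, 0, 1, 0, 0, 2, 0],
    [2, 0, 0, 1, 0, 0, 2, 0, 0, 1, 0, 0]),
  ([0, 0, 3, 0, 0, 0, 0, 0, 3, 0, 0, 0], [0, 2, 0, 0, 1, 0, 0, 2, 0, 0, 1, 0],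
    [3, 0, 0, 0, 0, 0, 3, 0, 0, 0, 0, 0]),
  ([0, 0, 0, 4, 0, 0, 0, 0, 0, 4, 0, 0], [0, 2, 0, 0, 0, 2, 0, 2, 0, 0, 0, 2],
    [4, 0, 0, 0, 0, 0, 4, 0, 0, 0, 0, 0]),
  ([0, 0, 2, 2, 0, 0, 0, 0, 2, 2, 0, 0], [0, 2, 0, 0, 2, 0, 0, 2, 0, 0, 2, 0],
    [2, 0, 0, 0, 0, 2, 2, 0, 0, 0, 0, 2]),
  ([0, 0, 4, 0, 0, 0, 0, 0, 4, 0, 0, 0], [0, 2, 0, 2, 0, 0, 0, 2, 0, 2, 0, 0],
    [2, 0, 0, 0, 2, 0, 2, 0, 0, 0, 2, 0]),
  ([0, 0, 3, 0, 0, 3, 0, 0, 3, 0, 0, 3], [0, 3, 0, 0, 3, 0, 0, 3, 0, 0, 3, 0],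
    [3, 0, 0, 3, 0, 0, 3, 0, 0, 3, 0, 0]),
  ([0, 0, 3, 3, 0, 0, 0, 0, 3, 3, 0, 0], [0, 3, 0, 0, 3, 0, 0, 3, 0, 0, 3, 0],
    [3, 0, 0, 0, 0, 3, 3, 0, 0, 0, 0, 3]),
  ([0, 0, 4, 0, 0, 0, 4, 0, 0, 0, 4, 0], [0, 2, 0, 2, 0, 2, 0, 2, 0, 2, 0, 2],
    [4, 0, 0, 0, 4, 0, 0, 0, 4, 0, 0, 0]),
  ([0, 0, 4, 0, 0, 2, 0, 0, 4, 0, 0, 2], [0, 2, 0, 0, 4, 0, 0, 2, 0, 0, 4, 0],
    [4, 0, 0, 2, 0, 0, 4, 0, 0, 2, 0, 0]),
  ([0, 0, 5, 0, 0, 1, 0, 0, 5, 0, 0, 1], [0, 1, 0, 0, 5, 0, 0, 1, 0, 0, 5, 0],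
    [5, 0, 0, 1, 0, 0, 5, 0, 0, 1, 0, 0])]

/-- the exceptional triples, in another form -/
def Xb (A B C : ZMod 12 → ℤ) : Prop :=
  ∃ e ∈ xl, (∀ x, A x = e.1.getD x.val 0) ∧ (∀ x, B x = e.2.1.getD x.val 0) ∧
    ∀ x, C x = e.2.2.getD x.val 0

instance (A B C : ZMod 12 → ℤ) : Decidable (Xb A B C) := by
  unfold Xb
  infer_instance

lemma of_list {A : ZMod 12 → ℤ} {l : List ℤ} {f : Fin 12 → ℤ} (h : ∀ x, A x = l.getD x.val 0)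
    (hf : ∀ y : Fin 12, l.getD y.val 0 = f y) : A = f := funext fun x => (h x).trans (hf x)

lemma Ex_of_Xb {A B C : ZMod 12 → ℤ} (h : Xb A B C) : Ex A B C := by
  obtain ⟨e, he, h1, h2, h3⟩ := h
  unfold xl at he
  simp only [List.mem_cons, List.not_mem_nil, or_false] at he
  unfold Ex
  rcases he with rfl | rfl | rfl | rfl | rfl | rfl | rfl | rfl | rfl | rfl | rfl | rfl | rfl | rfl | rfl | rfl | rfl | rfl | rfl | rfl
  · exact Or.inl ⟨of_list h1 (by decide +kernel), of_list h2 (by decide +kernel),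
      of_list h3 (by decide +kernel)⟩
  · exact Or.inr (Or.inl ⟨of_list h1 (by decide +kernel), of_list h2 (by decide +kernel),
      of_list h3 (by decide +kernel)⟩)
  · exact Or.inr (Or.inr (Or.inl ⟨of_list h1 (by decide +kernel), of_list h2 (by decide +kernel),
      of_list h3 (by decide +kernel)⟩))
  · exact Or.inr (Or.inr (Or.inr (Or.inl ⟨of_list h1 (by decide +kernel), of_list h2 (by decide +kernel),
      of_list h3 (by decide +kernel)⟩)))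
  · exact Or.inr (Or.inr (Or.inr (Or.inr (Or.inl ⟨of_list h1 (by decide +kernel), of_list h2 (by decide +kernel),
      of_list h3 (by decide +kernel)⟩))))
  · exact Or.inr (Or.inr (Or.inr (Or.inr (Or.inr (Or.inl ⟨of_list h1 (by decide +kernel), of_list h2 (by decide +kernel),
      of_list h3 (by decide +kernel)⟩)))))
  · exact Or.inr (Or.inr (Or.inr (Or.inr (Or.inr (Or.inr (Or.inl ⟨of_list h1 (by decide +kernel), of_list h2 (by decide +kernel),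
      of_list h3 (by decide +kernel)⟩))))))
  · exact Or.inr (Or.inr (Or.inr (Or.inr (Or.inr (Or.inr (Or.inr (Or.inl ⟨of_list h1 (by decide +kernel), of_list h2 (by decide +kernel),
      of_list h3 (by decide +kernel)⟩)))))))
  · exact Or.inr (Or.inr (Or.inr (Or.inr (Or.inr (Or.inr (Or.inr (Or.inr (Or.inl ⟨of_list h1 (by decide +kernel), of_list h2 (by decide +kernel),
      of_list h3 (by decide +kernel)⟩))))))))
  · exact Or.inr (Or.inr (Or.inr (Or.inr (Or.inr (Or.inr (Or.inr (Or.inr (Or.inr (Or.inl ⟨of_list h1 (by decide +kernel), of_list h2 (by decide +kernel),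
      of_list h3 (by decide +kernel)⟩)))))))))
  · exact Or.inr (Or.inr (Or.inr (Or.inr (Or.inr (Or.inr (Or.inr (Or.inr (Or.inr (Or.inr (Or.inl ⟨of_list h1 (by decide +kernel), of_list h2 (by decide +kernel),
      of_list h3 (by decide +kernel)⟩))))))))))
  · exact Or.inr (Or.inr (Or.inr (Or.inr (Or.inr (Or.inr (Or.inr (Or.inr (Or.inr (Or.inr (Or.inr (Or.inl ⟨of_list h1 (by decide +kernel), of_list h2 (by decide +kernel),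
      of_list h3 (by decide +kernel)⟩)))))))))))
  · exact Or.inr (Or.inr (Or.inr (Or.inr (Or.inr (Or.inr (Or.inr (Or.inr (Or.inr (Or.inr (Or.inr (Or.inr (Or.inl ⟨of_list h1 (by decide +kernel), of_list h2 (by decide +kernel),
      of_list h3 (by decide +kernel)⟩))))))))))))
  · exact Or.inr (Or.inr (Or.inr (Or.inr (Or.inr (Or.inr (Or.inr (Or.inr (Or.inr (Or.inr (Or.inr (Or.inr (Or.inr (Or.inl ⟨of_list h1 (by decide +kernel), of_list h2 (by decide +kernel),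
      of_list h3 (by decide +kernel)⟩)))))))))))))
  · exact Or.inr (Or.inr (Or.inr (Or.inr (Or.inr (Or.inr (Or.inr (Or.inr (Or.inr (Or.inr (Or.inr (Or.inr (Or.inr (Or.inr (Or.inl ⟨of_list h1 (by decide +kernel), of_list h2 (by decide +kernel),
      of_list h3 (by decide +kernel)⟩))))))))))))))
  · exact Or.inr (Or.inr (Or.inr (Or.inr (Or.inr (Or.inr (Or.inr (Or.inr (Or.inr (Or.inr (Or.inr (Or.inr (Or.inr (Or.inr (Or.inr (Or.inl ⟨of_list h1 (by decide +kernel), of_list h2 (by decide +kernel),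
      of_list h3 (by decide +kernel)⟩)))))))))))))))
  · exact Or.inr (Or.inr (Or.inr (Or.inr (Or.inr (Or.inr (Or.inr (Or.inr (Or.inr (Or.inr (Or.inr (Or.inr (Or.inr (Or.inr (Or.inr (Or.inr (Or.inl ⟨of_list h1 (by decide +kernel), of_list h2 (by decide +kernel),
      of_list h3 (by decide +kernel)⟩))))))))))))))))
  · exact Or.inr (Or.inr (Or.inr (Or.inr (Or.inr (Or.inr (Or.inr (Or.inr (Or.inr (Or.inr (Or.inr (Or.inr (Or.inr (Or.inr (Or.inr (Or.inr (Or.inr (Or.inl ⟨of_list h1 (by decide +kernel), of_list h2 (by decide +kernel),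
      of_list h3 (by decide +kernel)⟩)))))))))))))))))
  · exact Or.inr (Or.inr (Or.inr (Or.inr (Or.inr (Or.inr (Or.inr (Or.inr (Or.inr (Or.inr (Or.inr (Or.inr (Or.inr (Or.inr (Or.inr (Or.inr (Or.inr (Or.inr (Or.inl ⟨of_list h1 (by decide +kernel), of_list h2 (by decide +kernel),
      of_list h3 (by decide +kernel)⟩))))))))))))))))))
  · exact Or.inr (Or.inr (Or.inr (Or.inr (Or.inr (Or.inr (Or.inr (Or.inr (Or.inr (Or.inr (Or.inr (Or.inr (Or.inr (Or.inr (Or.inr (Or.inr (Or.inr (Or.inr (Or.inr (⟨of_list h1 (by decide +kernel), of_list h2 (by decide +kernel),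
      of_list h3 (by decide +kernel)⟩)))))))))))))))))))

/-- a pencil with given parameters -/
def Pd (S p q r : ZMod 12) (m : ℤ) (D E G : ZMod 12 → ℤ) : Prop :=
  0 < m ∧ (∀ x, D x = m * mz S p x) ∧ (∀ x, E x = m * mz S r x) ∧ (∀ x, G x = m * mz S q x)

instance (S p q r : ZMod 12) (m : ℤ) (D E G : ZMod 12 → ℤ) : Decidable (Pd S p q r m D E G) := by
  unfold Pd
  infer_instance

/-- the exceptional triples, with a given translation and a given order -/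
def Xd (s : ZMod 12) (o : ℕ) (D E G : ZMod 12 → ℤ) : Prop :=
  match o with
  | 0 => Xb (tl s D) (tl s E) (tl s G)
  | 1 => Xb (tl s D) (tl s G) (tl s E)
  | 2 => Xb (tl s E) (tl s D) (tl s G)
  | 3 => Xb (tl s E) (tl s G) (tl s D)
  | 4 => Xb (tl s G) (tl s D) (tl s E)
  | _ => Xb (tl s G) (tl s E) (tl s D)

instance (s : ZMod 12) (o : ℕ) (D E G : ZMod 12 → ℤ) : Decidable (Xd s o D E G) := by
  unfold Xd
  split <;> infer_instance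

lemma Cn.of_Xd {s : ZMod 12} {o : ℕ} (h : Xd s o D E G) : Cn Ex D E G := by
  right
  refine ⟨s, ?_⟩
  unfold Xd at h
  unfold Sx
  split at h
  · exact Or.inl (Ex_of_Xb h)
  · exact Or.inr (Or.inl (Ex_of_Xb h))
  · exact Or.inr (Or.inr (Or.inl (Ex_of_Xb h)))
  · exact Or.inr (Or.inr (Or.inr (Or.inl (Ex_of_Xb h))))
  · exact Or.inr (Or.inr (Or.inr (Or.inr (Or.inl (Ex_of_Xb h)))))
  · exact Or.inr (Or.inr (Or.inr (Or.inr (Or.inr (Ex_of_Xb h)))))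

lemma Cn.of_Pd {S p q r : ZMod 12} {m : ℤ} (h : Pd S p q r m D E G) : Cn Ex D E G :=
  Or.inl ⟨S, p, q, r, m, h.1, h.2.1, h.2.2.1, h.2.2.2⟩

/-- the conclusion, with a hint -/
def Hd (h : List ℕ) (D E G : ZMod 12 → ℤ) : Prop :=
  if h.getD 0 0 = 0 then Pd ((h.getD 1 0 : ℕ) : ZMod 12) ((h.getD 2 0 : ℕ) : ZMod 12)
    ((h.getD 4 0 : ℕ) : ZMod 12) ((h.getD 3 0 : ℕ) : ZMod 12) ((h.getD 5 0 : ℕ) : ℤ) D E G
  else Xd ((h.getD 1 0 : ℕ) : ZMod 12) (h.getD 2 0) D E G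

instance (h : List ℕ) (D E G : ZMod 12 → ℤ) : Decidable (Hd h D E G) := by
  unfold Hd
  infer_instance

lemma Cn.of_Hd {l : List ℕ} (h : Hd l D E G) : Cn Ex D E G := by
  unfold Hd at h
  split_ifs at h
  · exact Cn.of_Pd h
  · exact Cn.of_Xd h

theorem sols_ok : ∀ c ∈ cers, ∀ s ∈ c.so, Hd s.1 (un c.X s.2) (un c.Y s.2) (un c.Z s.2) := by
  decide +kernel

lemma enc_inj {a b c a' b' c' : ℕ} (ha : a < 4096) (hb : b < 4096) (hc : c < 4096)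
    (ha' : a' < 4096) (hb' : b' < 4096) (hc' : c' < 4096) (h : enc a b c = enc a' b' c') :
    a = a' ∧ b = b' ∧ c = c' := by
  unfold enc at h
  refine ⟨?_, ?_, ?_⟩ <;> omega

lemma bm_lt (f : ℕ → ℤ) : bm f < 4096 := Nat.ofBits_lt_two_pow _

lemma cers_lt : ∀ c ∈ cers, c.X < 4096 ∧ c.Y < 4096 ∧ c.Z < 4096 := by decide +kernel

/-- the normal forms -/
theorem Hn.nf (h : Hn D E G d) (hn : enc (bm (nx D)) (bm (nx E)) (bm (nx G)) ∈ nfs) :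
    Cn Ex D E G := by
  rw [nfs_eq, List.mem_map] at hn
  obtain ⟨c, hc, he⟩ := hn
  obtain ⟨l1, l2, l3⟩ := cers_lt c hc
  obtain ⟨e1, e2, e3⟩ := enc_inj l1 l2 l3 (bm_lt _) (bm_lt _) (bm_lt _) he
  obtain ⟨s, hs, hv⟩ := cc_sound h.vb h.card e1.symm e2.symm e3.symm
    (List.all_eq_true.mp cers_ok c hc)
  have f1 := eq_un h e1.symm hv
  have hv2 : ∀ y < 12, vv (nx E) (nx G) (nx D) y = s.2.getD y 0 := by
    intro y hy
    rw [vv_rot]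
    exact hv y hy
  have hv3 : ∀ y < 12, vv (nx G) (nx D) (nx E) y = s.2.getD y 0 := by
    intro y hy
    rw [vv_rot, vv_rot]
    exact hv y hy
  have f2 := eq_un h.rot e2.symm hv2
  have f3 := eq_un h.rot.rot e3.symm hv3
  have := sols_ok c hc s hs
  rw [← f1, ← f2, ← f3] at this
  exact Cn.of_Hd this

lemma nx_tl (t : ℕ) (ht : t < 12) (D : ZMod 12 → ℤ) :
    bm (nx (tl (t : ZMod 12) D)) = rotl t (bm (nx D)) := by
  rw [← bm_sh t ht]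
  congr 1
  funext y
  show D ((y : ZMod 12) + (t : ZMod 12)) = D (((y + t) % 12 : ℕ) : ZMod 12)
  rw [ZMod.natCast_mod, Nat.cast_add]

lemma prefix_mask {f : ℕ → ℤ} {g r : ℕ} (hg : g < 12) (h : ∀ i ≤ g, (r.testBit i = true ↔ f i ≠ 0))
    (hr : ∀ i, g < i → r.testBit i = false) : bm f &&& (2 ^ (g + 1) - 1) = r := by
  apply Nat.eq_of_testBit_eq
  intro i
  rw [Nat.testBit_and, Nat.testBit_two_pow_sub_one, bm_bit]
  by_cases hi : i ≤ g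
  · have h1 : i < 12 := by omega
    have h2 : i < g + 1 := by omega
    simp only [h1, h2, decide_true, Bool.true_and, Bool.and_true]
    have := h i hi
    by_cases h3 : f i = 0
    · have h4 : ¬ r.testBit i = true := fun h5 => (this.mp h5) h3
      simp [h3]
      simpa using h4
    · rw [this.mpr h3]
      simp [h3]
  · have h2 : ¬ i < g + 1 := by omega
    rw [hr i (by omega)]
    simp [h2]

/-- **three effective divisors on the cyclic group of order twelve** -/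
theorem Hn.main (h : Hn D E G d) : Cn Ex D E G := by
  refine h.near (Ex := Ex) (Q := Cn Ex D E G) ?_ id
  clear h
  intro D E G h hQ g hg1 hg h0 hgE hbt
  apply hQ
  clear hQ
  -- the masks of the first points
  have hD : bm (nx D) &&& (2 ^ (g + 1) - 1) = 1 := by
    apply prefix_mask hg
    · intro i hi
      by_cases hi0 : i = 0
      · subst hi0
        simpa [nx] using h0
      · have e : Nat.testBit 1 i = false := tb1 hi0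
        rw [e]
        have : nx D i = 0 := by
          by_cases hi' : i < g
          · exact (hbt i (by omega) hi').1
          · have : i = g := by omega
            subst this
            by_contra h1
            exact hgE (h.de _ h1)
        simp [this]
    · intro i hi
      exact tb1 (by omega)
  have hE : bm (nx E) &&& (2 ^ (g + 1) - 1) = 2 ^ g := by
    apply prefix_mask hg
    · intro i hi
      rw [Nat.testBit_two_pow]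
      by_cases hi' : i = g
      · subst hi'
        simpa [nx] using hgE
      · have : nx E i = 0 := by
          by_cases hi0 : i = 0
          · subst hi0
            show E ((0 : ℕ) : ZMod 12) = 0
            rw [Nat.cast_zero]
            exact h.de _ h0
          · exact (hbt i (by omega) (by omega)).2.1
        simp [this]
        omega
    · intro i hi
      rw [Nat.testBit_two_pow]
      simp
      omega
  have hG : bm (nx G) &&& (2 ^ (g + 1) - 1) = 0 := by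
    apply prefix_mask hg
    · intro i hi
      have : nx G i = 0 := by
        by_cases hi0 : i = 0
        · subst hi0
          show G ((0 : ℕ) : ZMod 12) = 0
          rw [Nat.cast_zero]
          exact h.sw.de _ h0
        · by_cases hi' : i < g
          · exact (hbt i (by omega) hi').2.2
          · have : i = g := by omega
            subst this
            exact h.eg _ hgE
      simp [this]
    · intro i hi
      simp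
  have key : leafT tab nfs (bm (nx D)) (bm (nx E)) (bm (nx G)) = true := by
    have hc : ∀ t : Tree, ck (leafT tab nfs) t (2 ^ (g + 1) - 1) 1 (2 ^ g) 0 = true →
        leafT tab nfs (bm (nx D)) (bm (nx E)) (bm (nx G)) = true := by
      intro t ht
      refine ck_sound h.vb.toLb t (2 ^ (g + 1) - 1) ?_
      rw [hD, hE, hG]
      exact ht
    interval_cases g
    · exact hc tr1 tr1_ok
    · exact hc tr2 tr2_ok
    · exact hc tr3 tr3_ok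
    · exact hc tr4 tr4_ok
    · exact hc tr5 tr5_ok
    · exact hc tr6 tr6_ok
    · exact hc tr7 tr7_ok
    · exact hc tr8 tr8_ok
    · exact hc tr9 tr9_ok
    · exact hc tr10 tr10_ok
    · exact hc tr11 tr11_ok
  have hG0 : bm (nx G) ≠ 0 := by
    intro h1
    obtain ⟨x, hx⟩ := h.toTr.rot.rot.exists_pt
    have := congrArg (fun m => m.testBit x.val) h1
    simp only [bm_bit, Nat.zero_testBit, Bool.and_eq_false_iff] at this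
    rcases this with h2 | h2
    · have := ZMod.val_lt x
      simp at h2
      omega
    · apply hx
      have : nx G x.val = 0 := by simpa using h2
      unfold nx at this
      rwa [ZMod.natCast_zmod_val] at this
  obtain ⟨s, t, ht, him⟩ := leafT_spec key hG0
  have ht' := h.tl (t : ZMod 12)
  apply Cn.of_tl (t := (t : ZMod 12))
  unfold img at him
  rw [← nx_tl t ht, ← nx_tl t ht, ← nx_tl t ht] at him
  unfold ord6 at him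
  split at him
  · exact ht'.nf him
  · exact (ht'.sw.nf him).of_sw
  · exact (ht'.rot.sw.nf him).of_sw.of_rot
  · exact (ht'.rot.nf him).of_rot
  · exact (ht'.rot.rot.nf him).of_rot.of_rot
  · exact (ht'.rot.rot.sw.nf him).of_sw.of_rot.of_rot

end Pool.Agent.UEL
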