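import Pool.Agent.Lib_helper76.UEN.Ex
import Pool.Agent.Lib_helper7.UEL.Fin

/-!
# The combinatorial statement for the order twelve
-/

set_option autoImplicit false

namespace Pool.Agent.UEL

open UP

/-- **the combinatorial statement for the order twelve** -/
theorem main12 : UEN.Main UEN.Ex12 := by
  intro D E G d hT h1 h2 h3
  exact Hn.main ⟨hT, h1, h2, h3⟩

end Pool.Agent.UEL
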