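import Pool.Agent.Lib_helper7.UEL.Kc

set_option autoImplicit false

/-!
Three divisors on the cyclic group of order twelve: the data of the search.
-/

namespace Pool.Agent.UEL

/-- the search tree, the second class starts at `1` -/
def tr1 : Tree :=
  .N 9 (.N 10 (.N 11 (.N 7 (.N 6 (.N 8 (.N 5 (.N 4 (.N 3 (.N 2 .L .L (.X 508) .L) (.N 2 (.X 540)
    (.X 540) .L (.X 540)) (.X 544) (.N 2 .L (.X 504) (.X 508) (.X 548))) (.N 3 (.X 576) (.X 576)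
    (.N 2 .L (.X 504) (.X 508) .L) (.X 576)) (.X 1876) (.N 2 (.N 3 .L (.X 540) (.X 544) (.X
    1019)) (.X 936) (.X 1372) (.X 584))) (.N 4 (.X 612) (.X 612) (.N 2 (.N 3 .L (.X 972) (.X
    1044) (.X 1044)) (.X 936) (.X 1372) (.N 3 (.X 1044) (.X 972) (.X 1044) .L)) (.X 612)) (.X
    2344) (.N 2 (.N 3 (.N 4 .L (.X 576) (.X 580) (.X 1490)) (.X 2268) (.X 976) (.X 1055)) (.X
    2232) (.X 1804) (.X 1916))) (.X 720) (.N 2 (.X 724) (.X 2664) (.X 724) (.X 2884)) (.N 2 (.N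
    3 (.N 4 (.N 5 .L (.X 612) (.X 616) (.X 2033)) (.X 1440) (.X 2308) (.X 2462)) (.N 4 (.X 540)
    (.X 540) (.X 1012) (.X 540)) (.N 4 (.X 544) (.N 5 .L (.X 612) (.X 2304) (.X 2304)) (.X 544)
    (.X 544)) (.X 2459)) (.X 2664) (.X 2236) (.N 4 (.X 1160) (.X 1160) (.X 2308) (.X 1016))))
    (.N 5 (.X 648) (.X 648) (.N 2 (.N 4 (.N 8 (.N 3 .L (.X 540) (.X 544) .L) (.X 720) (.X 1080)
    (.X 1080)) (.X 2304) (.X 2353) (.N 8 (.X 1080) (.X 1080) (.X 1480) (.X 1080))) (.X 2232) (.X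
    1804) (.N 3 (.N 8 (.N 4 (.X 1080) (.X 1440) (.X 1080) .L) (.X 720) (.X 1156) (.X 728)) (.X
    972) (.X 2272) (.X 1412))) (.X 648)) (.X 2812) (.N 3 (.N 2 (.N 4 (.N 5 (.N 8 .L (.X 720) (.X
    724) (.X 2036)) (.X 612) (.X 616) (.X 1961)) (.X 1008) (.X 1012) (.X 1526)) (.N 4 (.N 5 (.N
    8 (.X 1800) (.X 1800) (.X 1800) .L) (.X 612) (.X 1368) (.X 1368)) (.X 1008) (.X 936) (.X
    936)) (.X 508) (.X 2384)) (.X 1404) (.X 2272) (.X 1523))) (.N 6 (.X 2844) (.X 2844) (.N 3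
    (.N 4 (.N 8 (.N 2 (.N 5 .L (.X 1908) (.X 1116) (.X 1116)) (.X 1800) (.X 508) (.N 5 (.X 1116)
    (.X 1044) (.X 1116) .L)) (.X 720) (.X 1980) (.X 1980)) (.X 1008) (.X 1548) (.X 1548)) (.X
    1404) (.X 2704) (.N 2 (.N 4 (.X 1548) (.X 1008) (.X 1548) (.N 5 (.N 8 .L (.X 720) (.X 1156)
    (.X 2380)) (.X 1044) (.X 1116) (.X 1116))) (.X 504) (.X 508) (.X 1844))) (.X 2844)) (.N 5
    (.N 4 (.N 3 (.N 2 (.N 6 (.N 8 (.X 688) .L (.X 688) (.X 688)) (.N 8 .L .L (.X 1080) (.X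
    1080)) (.X 652) (.N 8 (.X 688) (.X 1152) (.X 688) (.X 688))) (.N 6 (.N 8 (.X 688) .L (.X
    1800) (.X 1800)) (.N 8 .L .L (.X 1800) (.X 1800)) (.X 652) (.N 8 (.X 1800) (.X 1800) (.X
    1800) (.X 688))) (.X 508) (.N 6 (.N 8 .L (.X 1152) (.X 2020) (.X 1160)) (.N 8 (.X 1080) (.X
    1080) (.X 1080) .L) (.X 1948) (.N 8 (.X 1088) .L (.X 1156) (.X 1088)))) (.X 1120) (.X 544)
    (.X 1120)) (.X 2304) (.N 2 (.X 2425) (.X 936) (.X 1123) (.N 3 (.N 6 (.X 1012) (.N 8 (.X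
    1080) (.X 1080) (.X 1080) .L) (.X 1012) (.X 1012)) (.X 972) (.X 544) (.X 1120))) (.N 2 (.N 3
    (.N 6 (.N 8 (.X 688) .L (.X 688) (.X 688)) (.N 8 (.X 1080) (.X 1080) (.X 724) (.X 1080)) (.X
    652) (.X 662)) (.X 540) (.X 544) (.X 1120)) (.X 936) (.X 1372) (.X 584))) (.X 2340) (.N 2
    (.N 3 (.N 4 (.N 6 (.X 616) (.N 8 .L (.X 1584) (.X 1080) (.X 1080)) (.X 616) (.X 616)) (.X
    1440) (.X 580) (.N 8 (.X 1480) (.X 1584) (.X 1480) (.X 2462))) (.X 972) (.N 4 (.X 544) (.X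
    2304) (.X 544) (.X 544)) (.X 1120)) (.X 2232) (.X 2347) (.X 2428)) (.N 2 (.N 3 (.X 1120) (.X
    1120) (.X 976) (.N 4 (.N 6 (.N 8 (.X 688) .L (.X 688) (.X 688)) (.X 623) (.X 652) (.X 659))
    (.X 576) (.X 580) (.X 2354))) (.X 2232) (.X 2419) (.X 2348))) (.N 5 (.N 4 (.N 6 (.N 3 (.N 8
    (.N 2 .L .L (.X 508) (.X 692)) (.X 720) (.X 2020) (.X 2039)) (.N 2 (.X 540) (.X 540) (.N 8
    (.X 1836) (.X 1836) (.X 1836) .L) (.X 540)) (.X 544) (.X 1127)) (.X 648) (.X 2812) (.X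
    2864)) (.X 2304) (.X 1444) (.X 1562)) (.X 2340) (.X 1048) (.X 2861))) (.X 828) (.N 4 (.N 2
    (.N 3 (.N 8 (.N 5 (.N 7 (.N 6 .L (.X 648) (.X 652) .L) (.X 1980) (.N 6 (.X 688) .L (.X 652)
    (.X 688)) (.X 2128)) (.X 1908) (.N 6 (.X 616) (.N 7 .L (.X 684) .L (.X 1048)) (.X 616) (.X
    616)) (.N 7 (.X 2128) (.X 1116) (.X 1120) (.N 6 .L (.X 648) (.X 652) (.X 1961)))) (.X 1696)
    (.N 5 (.X 2020) (.X 1476) (.X 2020) (.X 1588)) (.X 1696)) (.X 540) (.X 544) (.X 1264)) (.X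
    832) (.X 1267) (.X 832)) (.N 2 (.N 6 (.N 8 (.X 1696) (.N 7 (.X 720) (.X 684) (.N 3 (.X 1440)
    (.X 540) (.N 5 .L (.X 612) .L (.X 976)) (.X 1440)) (.X 720)) (.X 1696) (.X 1696)) (.X 2388)
    (.X 1008) (.X 1008)) (.X 832) (.X 1267) (.X 832)) (.N 3 (.N 5 (.X 841) (.X 3001) (.X 2353)
    (.X 841)) (.X 1264) (.X 544) (.X 1264)) (.N 3 (.N 2 (.N 8 (.X 1696) (.X 1696) (.X 1696) (.N
    6 (.N 5 (.N 7 .L (.X 684) (.X 688) (.X 2128)) (.X 612) (.X 616) (.X 1922)) (.X 1080) (.X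
    1084) (.X 1958))) (.X 504) (.X 508) (.X 832)) (.X 1264) (.X 544) (.X 1264))) (.N 5 (.N 4 (.N
    2 (.N 3 (.N 7 (.N 8 (.N 6 .L .L (.X 652) (.X 848)) (.X 1584) (.X 724) (.X 854)) (.N 6 (.X
    2844) (.X 2844) (.N 8 (.X 1980) (.X 1980) (.X 1980) .L) (.X 2844)) (.X 1120) (.X 1283)) (.X
    972) (.X 544) (.X 839)) (.N 3 (.X 504) (.X 504) (.X 504) (.N 7 (.N 6 (.N 8 .L (.X 2567) (.X
    1800) (.X 1800)) (.N 8 (.X 2567) .L (.X 1800) (.X 1800)) (.X 652) (.X 659)) (.X 1548) (.X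
    1120) (.X 1127))) (.X 1372) (.X 1268)) (.N 7 (.X 2304) (.X 2304) (.X 2304) (.X 1283)) (.N 8
    (.X 1876) (.X 1876) (.X 1876) (.N 6 (.X 1286) (.X 1286) (.X 2821) (.X 1172))) (.N 3 (.X 842)
    (.N 2 (.X 972) (.X 504) (.N 6 (.N 7 (.N 8 .L (.X 1152) (.X 2268) (.X 2268)) (.X 1116) (.X
    2419) (.X 1130)) (.X 1804) (.X 1404) (.X 1404)) (.X 972)) (.X 544) (.X 842))) (.N 3 (.N 2
    (.N 6 (.X 2772) (.X 2772) (.X 2772) (.N 4 (.X 2576) (.X 1008) (.N 7 (.N 8 .L (.X 1152) (.X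
    1476) (.X 1476)) (.X 1548) (.X 1044) (.X 1044)) (.X 2390))) (.X 504) (.X 508) (.X 836)) (.X
    2781) (.X 976) (.X 1271)) (.N 7 (.X 1048) (.X 1048) (.X 1048) (.N 2 (.N 3 (.N 4 (.N 6 (.X
    616) (.N 8 .L (.X 1480) (.X 1080) (.X 1080)) (.X 616) (.X 616)) (.N 8 (.X 1480) (.X 732) (.X
    1480) (.X 1480)) (.X 580) (.X 1562)) (.X 972) (.X 976) (.X 1127)) (.X 2232) (.X 2347) (.X
    2420))) (.N 7 (.N 3 (.X 1277) (.X 1277) (.N 2 (.N 4 (.X 544) (.N 6 (.N 8 .L (.X 1584) (.X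
    724) (.X 737)) (.X 2272) (.X 1008) (.X 1008)) (.X 544) (.X 544)) (.X 504) (.X 508) (.X
    2348)) (.X 1055)) (.N 3 (.X 1277) (.X 1125) (.X 2704) (.X 1055)) (.N 2 (.N 4 (.N 6 (.X 845)
    (.N 8 (.N 3 .L .L (.X 544) (.X 623)) (.X 738) (.X 1080) (.X 1080)) (.X 652) (.X 665)) (.N 3
    (.X 1440) (.X 1440) (.N 8 (.X 2422) (.X 1584) (.X 724) (.X 2422)) (.X 1440)) (.X 2425) (.X
    2354)) (.X 2232) (.X 2419) (.X 2348)) (.X 2861)))) (.X 792) (.N 11 (.N 3 (.N 2 (.X 796) (.X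
    796) (.X 508) (.N 8 (.X 1228) (.X 1228) (.X 1228) (.N 7 (.X 728) (.X 728) (.N 5 (.N 6 (.X
    2092) (.N 4 .L (.X 576) .L (.X 1660)) (.X 1948) (.X 2092)) (.X 1476) (.X 2428) (.X 1120))
    (.X 2420)))) (.N 2 (.X 796) (.X 796) (.X 796) (.N 4 (.X 540) (.X 540) (.N 5 (.X 805) (.X
    805) (.X 2353) (.N 6 (.X 1012) (.N 7 (.X 648) (.X 648) (.X 1120) (.X 648)) (.X 1404) (.X
    1404))) (.X 540))) (.N 4 (.X 544) (.X 2962) (.X 544) (.X 544)) (.N 2 (.X 796) (.X 504) (.X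
    508) (.N 4 (.X 548) (.X 548) (.N 5 (.X 805) (.N 7 (.X 2340) (.X 2340) (.X 1120) (.X 2340))
    (.X 2353) (.X 805)) (.X 548)))) (.N 5 (.N 6 (.N 2 (.N 3 (.N 8 (.N 4 (.N 7 .L (.X 684) (.X
    2124) (.X 2124)) (.X 576) (.X 580) (.N 7 (.X 2124) (.X 684) (.X 2124) .L)) (.X 2524) (.X
    1692) (.X 1692)) (.N 4 (.X 540) (.X 540) (.X 1012) (.X 540)) (.X 976) (.N 4 (.N 7 (.N 8 (.X
    1692) (.X 720) (.X 1692) .L) (.X 1116) (.X 2556) (.X 2556)) (.X 576) (.X 580) (.X 1019)))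
    (.X 2092) (.N 4 (.X 1372) (.X 1008) (.X 1372) (.X 1372)) (.X 2092)) (.N 4 (.X 2574) (.X
    1008) (.N 3 (.X 805) (.N 7 (.X 648) (.X 648) (.X 1120) (.X 648)) (.X 544) (.X 805)) (.X
    2574)) (.X 2988) (.X 2988)) (.N 7 (.X 2340) (.X 2340) (.N 4 (.N 6 (.X 612) (.X 612) (.X
    2772) (.X 612)) (.X 2304) (.N 6 (.N 2 (.X 2092) (.N 8 (.X 2308) (.N 3 .L .L (.X 504) (.X
    504)) (.X 2664) (.X 2664)) (.X 1372) (.X 2092)) (.N 2 (.N 3 (.N 8 .L .L (.X 1476) (.X 1476))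
    (.N 8 .L .L (.X 1476) (.X 1476)) (.X 544) (.N 8 (.X 1476) (.X 1476) (.X 1476) .L)) (.N 3 (.N
    8 .L .L (.X 2664) (.X 2664)) (.N 8 .L .L (.X 2664) (.X 2664)) (.X 504) (.X 504)) (.X 1372)
    (.N 3 (.N 8 (.X 1476) (.X 1476) (.X 1588) (.X 1476)) (.X 621) (.X 544) (.N 8 .L (.X 1152)
    (.X 1588) .L))) (.X 2772) (.X 2772)) (.X 1660)) (.X 2340)) (.N 3 (.X 2536) (.X 1269) (.X
    976) (.X 2536)) (.N 3 (.N 4 (.N 6 (.X 2988) (.X 2988) (.X 2988) (.N 2 (.N 7 (.N 8 .L (.X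
    720) (.X 1692) (.X 1692)) (.X 1116) (.X 1120) (.X 1660)) (.X 936) (.X 508) (.X 620))) (.X
    576) (.X 805) (.X 2786)) (.X 1269) (.X 976) (.X 2783))) (.X 859) (.N 2 (.X 796) (.X 796) (.X
    796) (.N 5 (.N 4 (.X 1268) (.X 1268) (.N 3 (.X 805) (.X 805) (.X 544) (.N 6 (.X 2092) (.X
    1412) (.X 1516) (.X 2092))) (.X 584)) (.N 6 (.X 2772) (.X 2772) (.X 2772) (.X 2092)) (.N 4
    (.X 1268) (.X 1268) (.X 2353) (.X 1268)) (.N 4 (.X 1268) (.X 1268) (.N 7 (.N 3 (.X 1277) (.X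
    1277) (.X 544) (.X 1055)) (.X 1444) (.N 8 (.X 1876) (.X 1876) (.X 1876) (.N 3 (.N 6 .L .L
    (.X 2812) (.X 1088)) (.N 6 .L .L (.X 1404) (.X 1404)) (.X 544) (.X 2351))) (.X 1444)) (.X
    584))))) (.N 2 (.N 11 (.N 7 (.N 8 (.N 5 (.N 3 (.N 6 (.N 4 .L (.X 576) (.X 580) (.X 1238))
    (.X 648) (.X 652) (.X 1676)) (.X 972) (.N 4 (.X 544) (.N 6 (.X 1008) (.X 1008) (.X 1008) .L)
    (.X 544) (.X 544)) (.X 1235)) (.X 2340) (.N 4 (.X 1480) (.X 2304) (.X 1444) (.X 1480)) (.X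
    1673)) (.X 720) (.X 724) (.N 5 (.X 1682) (.X 2340) (.N 3 (.N 4 (.N 6 (.X 616) .L (.X 616)
    (.X 616)) (.X 1440) (.X 580) (.X 734)) (.X 972) (.X 2350) (.X 2459)) (.X 1673))) (.N 5 (.X
    1116) (.X 2340) (.X 1116) (.X 2412)) (.N 5 (.N 3 (.N 6 (.N 8 (.X 688) (.N 4 .L (.X 576) (.X
    580) (.X 1238)) (.X 688) (.X 688)) (.N 4 (.N 8 (.X 1080) (.X 1080) (.X 1080) (.X 818)) (.X
    576) (.X 580) (.N 8 .L .L (.X 724) (.X 734))) (.X 652) (.X 812)) (.X 972) (.N 4 (.X 544) (.X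
    2304) (.X 544) (.X 544)) (.X 1120)) (.X 2340) (.X 2428) (.N 3 (.X 1120) (.X 1120) (.X 976)
    (.X 2537))) (.N 4 (.X 1679) (.X 1679) (.N 8 (.N 3 (.N 5 (.X 580) (.N 6 .L (.X 648) (.X 2772)
    (.X 2772)) (.X 580) (.X 580)) (.X 1836) (.X 544) (.X 1127)) (.X 720) (.X 724) (.X 2903)) (.X
    1562))) (.X 828) (.X 832) (.X 860)) (.N 4 (.X 936) (.X 936) (.X 936) (.N 11 (.N 3 (.N 5 (.N
    6 (.N 7 (.N 8 .L (.X 720) (.X 2664) (.X 2664)) (.X 1116) (.N 8 (.X 688) .L (.X 2664) (.X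
    2664)) (.X 1130)) (.N 7 (.X 648) (.X 648) (.N 8 .L .L (.X 2664) (.X 2664)) (.X 648)) (.X
    1516) (.X 2390)) (.X 806) (.X 1368) (.X 1368)) (.X 540) (.X 504) (.X 504)) (.X 828) (.X 832)
    (.X 860))) (.N 3 (.X 508) (.N 11 (.N 7 (.N 8 (.N 4 (.N 5 (.X 2268) (.X 2268) (.X 2268) (.N 6
    .L (.X 648) (.X 1404) (.X 1404))) (.X 1440) (.X 1836) (.X 1836)) (.X 720) (.X 724) (.X
    2668)) (.X 1125) (.X 2419) (.N 4 (.X 1679) (.X 2745) (.X 2311) (.X 1562))) (.X 828) (.X 832)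
    (.X 860)) (.X 508) (.X 508)) (.N 11 (.N 3 (.X 800) (.N 4 (.X 540) (.X 540) (.N 5 (.X 972)
    (.X 972) (.X 972) (.X 2969)) (.X 540)) (.X 800) (.X 800)) (.X 828) (.N 4 (.N 3 (.N 8 (.N 6
    (.N 5 (.N 7 .L (.X 684) (.X 2528) (.X 2128)) (.X 612) (.N 7 (.X 2528) (.X 684) .L (.X 1048))
    (.X 620)) (.X 1080) (.X 1516) (.X 1088)) (.X 2560) (.X 1232) (.X 2560)) (.X 540) (.X 544)
    (.X 1264)) (.N 6 (.X 1008) (.X 1008) (.X 1008) (.N 7 (.X 2384) (.X 2844) (.N 3 (.X 1440) (.X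
    540) (.N 8 (.X 2560) (.N 5 .L (.X 612) .L (.X 976)) (.X 1156) (.X 2560)) (.X 1440)) (.X
    2384))) (.N 6 (.X 1273) (.X 2569) (.X 2821) (.X 1273)) (.N 3 (.N 5 (.X 584) (.X 584) (.N 6
    (.X 1016) (.N 7 (.X 2312) (.X 1116) (.N 8 (.X 2560) (.X 1152) (.X 1588) .L) (.X 1048)) (.X
    1516) (.X 1016)) (.X 584)) (.X 540) (.X 544) (.X 1264))) (.X 860)))) (.N 2 (.N 10 (.N 11 (.N
    8 (.X 756) (.X 756) (.N 7 (.N 3 (.N 6 (.N 4 (.N 5 .L (.X 612) (.X 2484) (.X 2484)) (.X 1440)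
    (.X 2308) (.N 5 (.X 2484) (.X 612) (.X 2484) .L)) (.X 1156) (.X 1620) (.X 1620)) (.N 4 (.X
    540) (.X 540) (.X 1836) (.X 540)) (.X 2704) (.N 4 (.N 5 (.N 6 (.X 1620) (.X 648) (.X 1620)
    .L) (.X 1044) (.X 2484) (.X 2484)) (.X 1440) (.X 2461) (.X 2315))) (.X 2884) (.X 1188) (.X
    1188)) (.X 756)) (.X 828) (.N 7 (.X 1188) (.X 1188) (.X 1188) (.N 8 (.X 756) (.X 720) (.X
    2884) (.X 756))) (.N 7 (.X 1188) (.X 1188) (.N 6 (.N 8 (.X 688) (.X 780) (.X 688) (.X 688))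
    (.N 5 (.X 2070) (.X 2340) (.X 1048) (.N 3 (.N 4 (.N 8 .L (.X 1584) (.X 1080) (.X 1080)) (.X
    1440) (.X 580) (.X 626)) (.N 4 (.N 8 .L (.X 1584) (.X 1080) (.X 1080)) (.X 1440) (.N 8 (.X
    1080) (.X 1080) (.X 1080) (.X 765)) (.N 8 (.X 1080) (.X 1080) (.X 765) (.X 1080))) (.X 1620)
    (.X 1620))) (.X 2812) (.N 3 (.X 1620) (.X 1404) (.X 1620) (.X 1955))) (.X 1188))) (.X 792)
    (.N 7 (.N 11 (.X 1188) (.X 1188) (.N 3 (.X 1264) (.N 4 (.X 540) (.X 540) (.N 5 (.X 2484) (.X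
    1044) (.N 6 (.X 1012) (.N 8 .L (.X 720) .L (.X 1480)) (.X 1404) (.X 1404)) (.X 2484)) (.X
    540)) (.X 2704) (.X 1264)) (.X 1188)) (.N 5 (.X 1116) (.X 2340) (.X 2412) (.X 1116)) (.N 6
    (.N 8 (.X 688) (.N 4 (.N 3 (.X 2508) (.X 729) (.X 1620) (.X 1620)) (.X 1008) (.X 1237) (.X
    1660)) (.X 688) (.X 688)) (.N 3 (.N 5 (.X 2542) (.N 4 (.X 2484) (.X 1008) (.N 11 (.X 1012)
    (.N 8 .L .L (.X 1476) (.X 1476)) (.X 2772) (.X 2772)) (.X 2484)) (.X 1132) (.X 2542)) (.N 4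
    (.N 8 (.X 1080) (.X 1080) (.X 765) (.X 1080)) (.X 1008) (.N 5 (.N 8 (.N 11 .L .L .L .L) (.N
    11 .L .L (.X 1584) (.X 1584)) (.N 11 .L (.X 1692) .L (.X 1588)) (.N 11 .L (.X 1692) (.X
    1696) .L)) (.N 8 (.N 11 .L .L (.X 2772) (.X 2772)) (.N 11 .L .L (.X 2772) (.X 2772)) (.X
    1476) (.X 1476)) (.N 8 (.N 11 .L (.X 2988) .L (.X 1048)) (.X 1480) (.N 11 .L (.X 1692) .L
    (.X 1048)) (.X 1480)) (.N 8 (.N 11 .L (.X 2988) (.X 2992) .L) (.X 738) (.X 2545) (.N 11 .L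
    (.X 1692) (.X 1696) .L))) (.X 1660)) (.X 1620) (.X 1620)) (.X 2812) (.N 8 (.X 688) (.X 1152)
    (.X 688) (.X 688))) (.N 8 (.N 11 (.X 1188) (.X 1188) (.X 1723) (.X 1188)) (.X 780) (.X 2884)
    (.X 2903))) (.N 6 (.N 3 (.N 11 (.N 8 (.X 756) (.X 756) (.X 1156) (.X 756)) (.X 828) (.X 832)
    (.N 4 (.N 5 (.N 7 (.N 8 (.X 2052) (.X 1584) .L (.X 2052)) (.X 1116) (.X 2484) (.X 2484)) (.X
    2772) (.X 616) (.X 809)) (.X 1008) (.X 1012) (.X 2570))) (.N 8 (.N 4 (.X 765) (.X 1008) (.X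
    765) (.X 1238)) (.X 2457) (.X 2452) (.X 1250)) (.X 1620) (.X 1620)) (.N 5 (.X 2070) (.X
    1959) (.X 2070) (.N 3 (.X 2537) (.N 8 (.N 7 (.X 1673) (.X 2412) (.X 1673) (.X 1673)) (.X
    2457) (.N 4 (.X 1080) (.X 1008) (.X 1080) (.N 11 (.X 540) (.X 540) (.X 540) (.N 7 .L (.X
    1548) .L (.X 2884)))) (.X 2546)) (.X 1620) (.X 1620))) (.N 3 (.X 1620) (.X 1404) (.X 2272)
    (.X 1620)) (.N 3 (.X 1620) (.X 1404) (.X 1620) (.N 7 (.X 1667) (.X 2844) (.X 1667) (.X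
    1127))))) (.N 10 (.N 11 (.N 8 (.X 756) (.X 756) (.N 3 (.X 2922) (.X 2706) (.X 504) (.X 504))
    (.X 756)) (.X 828) (.X 832) (.N 3 (.X 504) (.X 504) (.X 504) (.N 8 (.X 2922) (.X 2922) (.X
    2922) (.X 2459)))) (.X 792) (.N 4 (.X 936) (.X 936) (.N 7 (.X 2490) (.X 1444) (.N 3 (.N 5
    (.X 580) (.N 11 (.X 1120) (.N 6 (.N 8 (.X 2308) .L (.X 2664) (.X 2664)) (.N 8 .L .L (.X
    2664) (.X 2664)) (.X 2772) (.X 2772)) (.X 504) (.X 504)) (.X 2232) (.X 2232)) (.N 6 (.N 8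
    (.X 688) (.N 5 (.N 11 .L .L (.X 504) (.X 504)) (.N 11 .L .L (.X 504) (.X 504)) (.X 2232) (.X
    2232)) (.X 2664) (.X 2664)) (.N 5 (.N 8 (.N 11 .L .L (.X 504) (.X 504)) (.N 11 .L .L (.X
    504) (.X 504)) (.X 2664) (.X 2664)) (.N 8 (.N 11 .L .L (.X 504) (.X 504)) (.N 11 .L .L (.X
    504) (.X 504)) (.X 2664) (.X 2664)) (.X 2232) (.X 2232)) (.X 1404) (.X 1404)) (.X 544) (.N 5
    (.X 580) (.N 11 (.X 504) (.X 504) (.X 504) (.X 1120)) (.X 2232) (.X 2232))) (.X 1444)) (.X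
    936)) (.N 4 (.X 936) (.X 936) (.X 936) (.N 7 (.X 2490) (.X 2490) (.X 2490) (.X 1562)))) (.N
    3 (.X 508) (.N 5 (.N 6 (.N 10 (.X 1804) (.X 792) (.X 1804) (.X 1804)) (.N 7 (.N 11 (.X 648)
    (.X 648) (.X 648) (.X 1197)) (.X 2412) (.N 8 (.N 4 (.X 2052) (.X 1440) (.N 10 (.X 2268) (.X
    2268) (.N 11 .L (.X 1692) .L (.X 1372)) (.X 2268)) (.X 2052)) (.X 1152) (.N 4 (.N 10 (.N 11
    .L (.X 828) .L (.X 1372)) (.X 792) (.N 11 .L (.X 1692) .L (.X 1372)) (.N 11 (.X 1372) (.X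
    828) (.X 1372) .L)) (.X 1440) (.N 10 (.N 11 .L (.X 828) .L (.X 1372)) (.X 792) (.N 11 .L (.X
    1692) .L (.X 1372)) (.X 1444)) (.N 10 (.N 11 (.X 1372) (.X 828) (.X 1372) .L) (.X 792) (.X
    1660) (.N 11 (.X 1372) (.X 828) (.X 1372) .L))) (.X 2668)) (.N 11 (.X 648) (.X 648) (.X 648)
    (.X 1197))) (.X 1404) (.X 1404)) (.N 6 (.X 621) (.X 621) (.X 1404) (.X 1404)) (.N 8 (.N 4
    (.X 2052) (.X 2052) (.N 6 (.X 616) (.N 10 (.X 765) (.X 792) (.N 7 (.N 11 (.X 1836) (.X 1836)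
    .L (.X 1836)) (.X 1548) (.N 11 .L (.X 1692) .L (.X 1372)) (.X 2668)) (.X 1480)) (.X 1404)
    (.X 1404)) (.X 2052)) (.X 2889) (.N 6 (.X 2452) (.N 7 (.N 11 (.X 1197) (.X 1692) (.N 4 (.N
    10 .L (.X 792) .L (.X 1372)) (.X 1440) (.N 10 .L (.X 792) .L (.X 1372)) (.X 2560)) (.X
    1048)) (.X 2844) (.N 4 (.N 10 (.N 11 .L (.X 828) .L (.X 1372)) (.X 792) (.N 11 .L (.X 1692)
    .L (.X 1372)) (.X 1480)) (.X 1440) (.N 10 (.N 11 .L (.X 828) .L (.X 1372)) (.X 792) (.N 11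
    .L (.X 1692) .L (.X 1372)) (.X 1444)) (.X 700)) (.X 2668)) (.X 1404) (.X 1404)) (.N 4 (.X
    2052) (.X 2052) (.N 10 (.X 1480) (.X 792) (.X 1480) (.X 765)) (.X 2052))) (.N 4 (.N 10 (.N
    11 (.X 1372) (.X 828) (.X 1372) (.X 1372)) (.X 792) (.N 11 (.X 1372) (.X 1269) (.X 1372) (.X
    1372)) (.N 7 (.X 2484) (.X 1548) (.N 8 (.X 765) (.X 2668) (.N 6 (.X 2236) (.N 11 .L (.X 828)
    (.X 832) .L) (.X 1404) (.X 1404)) (.X 2668)) (.X 2484))) (.X 585) (.X 583) (.N 6 (.X 626)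
    (.N 7 (.N 11 (.X 648) (.X 648) (.X 648) (.N 10 (.X 1188) (.X 1188) (.X 1188) (.N 8 .L (.X
    1152) .L (.X 2668)))) (.X 2412) (.N 8 (.N 10 (.X 1080) (.X 1080) (.X 1080) (.N 11 (.X 1836)
    (.X 1836) (.X 1836) .L)) (.X 1152) (.N 10 (.N 11 .L (.X 828) (.X 1696) .L) (.X 792) (.X
    1660) (.N 11 .L (.X 828) (.X 832) .L)) (.X 2668)) (.N 11 (.X 648) (.X 648) (.X 648) (.X
    2861))) (.X 1404) (.X 1404)))) (.X 508) (.X 508)) (.N 10 (.N 11 (.N 7 (.X 1188) (.X 1188)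
    (.X 1188) (.N 4 (.N 3 (.N 5 (.N 6 (.N 8 (.X 756) (.X 720) .L (.X 756)) (.X 648) (.X 1620)
    (.X 1620)) (.X 2340) (.X 1048) (.X 1052)) (.X 540) (.X 544) (.X 548)) (.X 2496) (.X 1444)
    (.X 1562))) (.X 828) (.X 832) (.N 3 (.X 836) (.N 5 (.X 972) (.X 972) (.X 972) (.N 4 (.N 6
    (.X 845) (.N 8 (.X 1080) (.X 1080) (.X 1080) (.N 7 .L (.X 2844) .L (.X 2852))) (.X 1404) (.X
    1404)) (.N 7 (.X 1440) (.X 1440) (.X 1440) (.X 1556)) (.N 6 (.X 845) (.N 8 (.X 1080) (.X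
    1080) (.X 1080) (.N 7 .L (.X 1548) .L (.X 1444))) (.X 1404) (.X 1404)) (.X 584))) (.X 836)
    (.X 836))) (.X 792) (.N 6 (.N 5 (.X 2092) (.X 2092) (.X 2092) (.N 4 (.N 3 (.X 620) (.N 8 (.X
    765) (.X 1152) (.X 2452) (.X 1160)) (.X 1620) (.X 1620)) (.X 1008) (.N 8 (.X 1237) (.X 1152)
    (.X 1165) (.N 7 (.X 737) (.X 2844) (.N 11 (.X 2308) (.X 2988) (.X 2308) (.N 3 .L .L (.X
    1620) (.X 1620))) (.X 1444))) (.X 584))) (.N 11 (.N 4 (.X 2502) (.X 1008) (.N 3 (.N 5 (.X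
    805) (.N 7 (.X 2340) (.X 2340) (.X 1120) (.X 2340)) (.X 625) (.X 805)) (.N 7 (.N 5 (.X 648)
    (.X 2340) (.X 1197) (.X 648)) (.X 1548) (.N 5 (.N 8 .L (.X 1152) (.X 2884) .L) (.X 621) (.X
    2428) (.N 8 .L (.X 1152) (.X 1588) .L)) (.X 1444)) (.X 1620) (.X 1620)) (.X 2502)) (.X 2583)
    (.X 832) (.N 3 (.N 8 (.X 1228) (.X 1152) (.X 1156) (.N 4 (.X 2582) (.X 1008) (.N 7 (.X 728)
    (.X 1548) (.N 5 (.X 1120) (.X 1476) (.X 1048) .L) (.X 1444)) (.X 2744))) (.N 4 (.N 8 (.X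
    765) (.X 1152) (.X 765) (.N 5 (.X 2052) (.X 1476) (.X 2052) (.N 7 .L (.X 1548) .L (.X
    1660)))) (.X 1008) (.N 5 (.N 7 (.X 1197) (.X 1548) (.N 8 .L (.X 1152) (.X 1588) .L) (.X
    1444)) (.X 2772) (.X 2785) (.N 7 (.N 8 (.X 1836) (.X 1836) (.X 1836) .L) (.X 1548) (.N 8 .L
    (.X 1152) (.X 1588) .L) (.X 1444))) (.N 8 (.X 2744) (.X 1152) (.X 765) (.X 2744))) (.X 1620)
    (.X 1620))) (.N 4 (.X 1243) (.N 8 (.N 11 (.X 2496) (.X 2380) (.X 832) (.X 2380)) (.X 1152)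
    (.X 1171) (.X 1160)) (.X 2389) (.X 1016)) (.N 3 (.X 1620) (.X 1404) (.X 1620) (.N 4 (.X 548)
    (.X 1008) (.N 8 (.X 2708) (.X 1237) (.X 2708) (.X 2708)) (.X 548)))) (.N 7 (.N 11 (.X 1188)
    (.X 1188) (.X 1188) (.N 5 (.X 1664) (.X 2340) (.X 1048) (.X 1664))) (.N 6 (.X 2844) (.X
    2844) (.X 777) (.X 2844)) (.N 11 (.X 1188) (.X 1188) (.X 1188) (.N 5 (.X 1664) (.X 2340) (.X
    1048) (.X 1664))) (.N 4 (.X 1679) (.X 1679) (.N 8 (.X 2852) (.X 2852) (.N 6 (.N 11 (.X 2308)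
    (.X 828) (.X 2308) (.X 2564)) (.X 1080) (.X 2812) (.X 1088)) (.X 2852)) (.X 1562))))) (.N 3
    (.N 7 (.N 2 (.N 8 (.N 10 (.X 760) (.N 11 (.N 4 (.N 6 (.N 5 .L (.X 612) (.X 616) .L) (.X
    2488) (.X 2088) (.X 2088)) (.N 5 (.X 576) (.X 576) (.X 1480) (.X 576)) (.X 1444) (.N 5 (.N 6
    (.X 2088) (.X 648) (.X 2088) .L) (.X 1476) (.X 2500) (.X 1490))) (.X 828) (.X 832) (.N 5 (.N
    4 (.N 6 .L (.X 2488) (.X 2088) (.X 2088)) (.N 6 (.X 2488) .L (.X 1008) (.X 1008)) (.X 580)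
    (.X 842)) (.X 1476) (.X 1048) (.X 1277))) (.X 760) (.X 760)) (.N 5 (.X 2448) (.X 1476) (.N 6
    (.N 4 (.X 616) (.N 10 (.N 11 .L (.X 828) .L (.X 1048)) (.N 11 .L (.X 828) (.X 832) (.X
    1048)) (.X 1008) (.X 1008)) (.X 580) (.X 616)) (.N 4 (.X 2488) (.N 11 (.N 10 .L .L (.X 1008)
    (.X 1008)) (.X 1692) (.X 2466) (.X 1048)) (.X 580) (.X 2488)) (.X 1152) (.X 1152)) (.X
    2448)) (.X 724) (.N 10 (.X 760) (.X 1224) (.X 760) (.X 760))) (.N 5 (.X 2232) (.X 2232) (.N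
    11 (.N 4 (.N 6 (.X 616) (.N 10 (.X 1624) (.N 8 .L .L (.X 1800) (.X 1800)) (.X 936) (.X 936))
    (.X 616) (.X 616)) (.N 6 (.N 8 (.X 2488) (.N 10 .L .L (.X 936) (.X 936)) (.X 2664) (.X
    2664)) (.N 8 (.N 10 (.X 760) .L (.X 936) (.X 936)) (.N 10 .L .L (.X 936) (.X 936)) (.X 2664)
    (.X 2664)) (.X 652) (.X 1014)) (.X 580) (.N 6 (.X 616) (.N 10 (.X 936) (.X 936) (.X 936) (.X
    1624)) (.X 616) (.X 616))) (.X 1048) (.X 504) (.X 504)) (.X 2232)) (.X 508) (.N 10 (.N 11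
    (.N 5 (.N 4 (.N 6 (.X 1624) (.X 648) (.X 1948) (.X 656)) (.X 576) (.X 2497) (.X 584)) (.X
    1044) (.N 4 (.X 2500) (.N 8 (.X 1480) (.X 1164) (.X 1480) (.X 1480)) (.X 2353) (.X 2500))
    (.X 2348)) (.X 828) (.X 832) (.X 836)) (.N 8 (.X 1224) (.X 1224) (.X 1224) (.N 11 (.N 4 (.N
    5 (.N 6 .L (.X 648) (.X 2952) (.X 2952)) (.X 1044) (.X 1480) (.X 1052)) (.N 5 (.X 576) (.X
    576) (.X 1480) (.X 576)) (.X 1444) (.X 2744)) (.X 828) (.X 832) (.X 836))) (.N 6 (.X 1684)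
    (.X 1684) (.X 2812) (.N 5 (.X 2092) (.X 2340) (.X 2092) (.X 656))) (.N 4 (.N 6 (.X 1624) (.X
    1624) (.X 1516) (.X 1244)) (.N 5 (.X 2528) (.X 1044) (.N 6 (.X 1008) (.X 1008) (.X 1008) (.N
    8 (.X 1088) (.N 11 .L (.X 828) .L (.X 1048)) (.X 2020) (.X 1088))) (.X 1052)) (.X 1444) (.N
    6 (.X 1624) (.X 1624) (.X 1516) (.X 1016))))) (.X 1192) (.N 4 (.X 2506) (.N 6 (.N 10 (.N 2
    (.N 8 (.X 688) (.N 5 (.X 732) (.X 1044) (.N 11 .L (.X 828) .L (.X 1048)) (.X 732)) (.X 688)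
    (.X 688)) (.N 5 (.X 2232) (.X 2232) (.X 2428) (.X 2232)) (.X 508) (.N 5 (.N 11 (.X 576) (.X
    576) (.X 576) (.X 1120)) (.X 1044) (.X 2428) (.X 620))) (.X 2520) (.X 1008) (.X 1008)) (.X
    660) (.X 2812) (.N 10 (.X 1008) (.X 1008) (.X 1008) (.N 2 (.N 8 (.X 688) (.X 1152) (.X 688)
    (.X 688)) (.X 936) (.X 508) (.N 5 (.X 2528) (.X 1044) (.N 8 (.X 1088) (.N 11 .L (.X 828) .L
    (.X 1048)) (.X 2020) (.X 1088)) (.X 620))))) (.X 2506) (.X 2506)) (.X 1192)) (.N 6 (.X 1404)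
    (.X 1404) (.N 7 (.X 2812) (.N 2 (.N 5 (.N 10 (.X 972) (.X 972) (.N 8 (.X 2268) (.X 2268) (.X
    2268) (.X 760)) (.X 972)) (.X 621) (.X 2412) (.X 2412)) (.X 2418) (.N 4 (.X 2491) (.N 5 (.X
    2412) (.X 2412) (.N 8 (.X 2236) (.N 10 (.X 2268) (.X 2268) (.N 11 (.X 1372) .L (.X 1836) (.X
    1836)) (.X 2268)) (.X 2236) (.X 2236)) (.X 2412)) (.X 1015) (.X 2491)) (.N 5 (.X 2412) (.X
    2412) (.X 2412) (.N 11 (.N 4 (.X 540) (.X 540) (.X 1012) (.X 540)) (.X 2988) (.X 1264) (.X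
    1277)))) (.X 2812) (.X 2812)) (.X 1404)) (.N 4 (.X 544) (.N 2 (.N 6 (.N 8 (.X 2488) (.N 10
    (.N 7 (.N 5 (.X 2448) (.X 1044) (.N 11 .L (.X 828) .L (.X 976)) (.X 2448)) (.X 1548) (.N 5
    (.N 11 (.X 1584) (.X 1584) .L (.X 1584)) (.X 1044) (.N 11 .L (.X 828) .L (.X 976)) (.N 11
    (.X 1584) (.X 1584) (.X 976) (.X 1584))) (.X 2704)) (.X 2272) (.X 1008) (.X 1008)) (.X 2488)
    (.X 2488)) (.N 7 (.X 660) (.X 2844) (.N 10 (.X 2272) (.N 5 (.N 8 (.N 11 .L (.X 828) (.X 832)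
    (.X 976)) (.X 738) (.X 1080) (.X 1080)) (.X 1044) (.X 622) (.N 8 (.N 11 (.X 976) (.X 828)
    (.X 976) .L) (.X 738) (.X 1080) (.X 1080))) (.X 1008) (.X 1008)) (.X 2704)) (.X 1522) (.N 8
    (.X 2488) (.X 1152) (.X 2452) (.X 2488))) (.N 5 (.X 2232) (.X 2232) (.N 6 (.X 622) (.N 7 (.X
    660) (.X 2412) (.N 8 (.X 2350) (.N 10 (.X 2272) (.N 11 (.X 504) (.X 504) .L (.X 504)) (.X
    936) (.X 936)) (.X 2664) (.X 2664)) (.X 2704)) (.X 1014) (.X 1014)) (.X 2232)) (.X 508) (.N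
    6 (.N 5 (.N 10 (.N 8 (.N 11 (.N 7 (.X 2304) (.X 2304) .L (.X 2304)) (.X 828) (.X 832) (.X
    976)) (.X 1152) (.X 2020) (.X 1160)) (.X 2272) (.X 1008) (.X 1008)) (.X 624) (.X 622) (.X
    620)) (.N 5 (.N 7 (.X 660) (.X 2412) (.N 8 (.X 1092) (.X 1152) (.X 2020) (.N 10 (.X 2272)
    (.N 11 .L (.X 828) (.X 832) (.X 976)) (.X 1008) (.X 1008))) (.X 2704)) (.X 624) (.X 622) (.X
    620)) (.X 1522) (.N 8 (.X 1088) (.N 10 (.X 1008) (.X 1008) (.X 1008) (.N 5 (.N 7 (.X 2448)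
    (.X 1116) (.N 11 (.X 1584) (.X 1584) .L (.X 1584)) (.X 2448)) (.X 1476) (.N 7 (.N 11 .L (.X
    828) .L (.X 976)) (.X 1116) (.N 11 .L (.X 828) .L (.X 976)) (.X 2704)) (.X 620))) (.X 2452)
    (.X 1088)))) (.X 544) (.X 544)) (.N 11 (.N 7 (.X 1192) (.X 1192) (.X 1192) (.N 2 (.N 5 (.N 4
    (.N 6 (.N 8 (.N 10 (.X 760) .L (.X 760) (.X 760)) (.X 2488) (.X 724) (.X 2488)) (.X 648) (.X
    652) (.X 1523)) (.X 576) (.X 580) (.X 2426)) (.N 6 (.N 4 (.X 612) (.X 576) (.X 1012) (.X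
    612)) (.X 648) (.X 2772) (.X 2772)) (.X 1048) (.X 1055)) (.X 504) (.X 508) (.X 2420))) (.N
    10 (.X 828) (.X 828) (.N 4 (.X 2980) (.X 2980) (.X 2929) (.N 6 (.X 1624) (.X 1624) (.X 1624)
    (.X 1523))) (.X 828)) (.X 1264) (.N 5 (.X 1271) (.X 1271) (.N 7 (.X 1048) (.X 1048) (.X
    1048) (.N 2 (.N 4 (.N 10 (.X 839) (.X 839) (.X 796) (.X 803)) (.N 6 (.N 8 (.X 2488) (.N 10
    .L .L (.X 1008) (.X 1008)) (.X 724) (.X 2488)) (.N 8 (.X 1703) (.N 10 .L .L (.X 1008) (.X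
    1008)) (.X 724) (.X 731)) (.X 652) (.X 659)) (.X 580) (.X 587)) (.N 4 (.N 6 (.X 616) (.N 10
    (.X 1624) (.N 8 .L .L (.X 1800) (.X 1800)) (.X 936) (.X 936)) (.X 616) (.X 616)) (.N 6 (.N 8
    (.X 2488) (.N 10 .L .L (.X 936) (.X 936)) (.X 2664) (.X 2664)) (.N 8 (.N 10 (.X 760) .L (.X
    936) (.X 936)) (.N 10 .L .L (.X 936) (.X 936)) (.X 2664) (.X 2664)) (.X 652) (.X 1014)) (.X
    580) (.X 587)) (.X 508) (.X 2420))) (.X 2783)))) (.N 2 (.N 10 (.N 7 (.N 11 (.N 3 (.N 6 (.N 4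
    (.N 5 (.N 8 .L (.X 720) (.X 724) (.X 1646)) (.X 612) (.X 616) (.X 2501)) (.X 1440) (.N 5 (.X
    580) (.N 8 (.X 1476) (.X 1476) (.X 1476) .L) (.X 580) (.X 580)) (.X 1634)) (.N 4 (.N 5 (.X
    648) (.X 612) (.N 8 .L (.X 720) (.X 1080) (.X 1080)) (.X 648)) (.X 1440) (.X 1012) (.X
    1202)) (.X 2812) (.X 1640)) (.N 5 (.X 972) (.X 972) (.X 972) (.X 1205)) (.X 2704) (.N 5 (.X
    1199) (.X 1044) (.X 1199) (.X 1055))) (.X 828) (.N 3 (.X 1264) (.X 1264) (.X 2704) (.N 8 (.N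
    4 (.N 5 (.N 6 .L (.X 648) (.X 652) (.X 1091)) (.X 1044) (.N 6 (.X 616) .L (.X 616) (.X 616))
    (.X 2992)) (.X 1440) (.X 767) (.X 1696)) (.X 720) (.X 724) (.X 2459))) (.X 1289)) (.N 5 (.X
    1116) (.X 1116) (.X 2412) (.X 1116)) (.N 3 (.N 5 (.N 11 (.X 1120) (.X 828) (.X 1120) (.N 4
    (.N 6 (.N 8 (.X 688) .L (.X 688) (.X 688)) (.X 2585) (.X 652) (.X 1640)) (.X 1440) (.X 580)
    (.X 842))) (.X 1044) (.X 1132) (.N 4 (.X 2501) (.X 1440) (.X 580) (.X 2501))) (.N 5 (.X 972)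
    (.X 972) (.X 972) (.N 4 (.X 2501) (.X 1440) (.X 2501) (.X 2930))) (.X 2704) (.N 8 (.N 6 (.X
    688) (.N 4 (.N 5 (.N 11 .L (.X 828) .L (.X 839)) (.X 1476) (.N 11 .L (.X 828) .L (.X 1048))
    (.X 623)) (.X 1440) (.X 1080) (.X 1080)) (.X 2812) (.X 688)) (.N 4 (.X 767) (.X 1440) (.X
    767) (.X 767)) (.X 724) (.X 2459))) (.N 3 (.X 2939) (.X 2939) (.N 4 (.X 544) (.N 5 (.N 6 (.N
    8 (.N 11 .L (.X 828) (.X 1264) (.X 976)) (.X 2448) (.X 724) (.X 2471)) (.X 2272) (.X 1008)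
    (.X 1008)) (.X 2340) (.X 1054) (.X 1133)) (.X 544) (.X 544)) (.X 1127))) (.X 792) (.N 8 (.N
    11 (.X 796) (.N 3 (.X 1692) (.X 1692) (.N 4 (.X 544) (.X 2962) (.X 544) (.X 544)) (.X 1692))
    (.X 796) (.X 796)) (.N 11 (.X 796) (.N 3 (.X 1692) (.X 1692) (.N 4 (.X 544) (.X 2962) (.X
    544) (.X 544)) (.X 1692)) (.X 796) (.X 796)) (.N 7 (.X 724) (.X 2884) (.X 724) (.X 724)) (.N
    7 (.X 782) (.X 782) (.N 6 (.X 688) (.N 4 (.X 1080) (.X 1008) (.N 5 (.X 2092) (.N 11 (.X 796)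
    (.N 3 .L (.X 1404) (.X 544) .L) (.X 2772) (.X 2772)) (.X 1480) (.X 2092)) (.X 1080)) (.X
    2812) (.X 688)) (.X 2903))) (.N 11 (.N 8 (.N 7 (.X 1253) (.N 5 (.N 3 (.N 4 (.N 6 (.X 684)
    (.X 648) .L (.X 684)) (.X 576) (.X 1980) (.X 1980)) (.X 972) (.X 1840) (.X 1199)) (.X 2340)
    (.X 2412) (.X 2412)) (.X 1253) (.X 1253)) (.X 821) (.X 821) (.N 7 (.X 1253) (.X 782) (.X
    782) (.X 2903))) (.X 828) (.X 832) (.X 860))) (.N 5 (.X 2232) (.X 2232) (.X 2232) (.N 3 (.N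
    11 (.N 4 (.N 7 (.N 6 (.N 8 (.N 10 .L (.X 792) (.X 936) (.X 936)) (.X 720) (.X 2664) (.X
    2664)) (.X 648) (.X 652) (.X 2825)) (.X 2412) (.X 1120) (.X 1997)) (.X 576) (.X 580) (.X
    2498)) (.X 1205) (.X 504) (.X 504)) (.N 11 (.X 1205) (.N 7 (.N 4 (.X 540) (.X 540) (.N 6 (.X
    1404) (.X 1404) (.X 1404) (.X 665)) (.X 540)) (.X 2412) (.X 1120) (.X 1133)) (.X 504) (.X
    504)) (.N 4 (.X 544) (.X 582) (.X 544) (.X 544)) (.N 4 (.N 6 (.X 623) (.N 7 (.X 1055) (.X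
    2412) (.N 8 (.X 2351) (.N 10 (.N 11 (.X 504) (.X 504) (.X 504) .L) (.X 792) (.X 936) (.X
    936)) (.X 2664) (.X 2664)) (.X 1055)) (.X 623) (.X 623)) (.X 582) (.X 580) (.X 587)))) (.N 3
    (.X 508) (.N 6 (.X 1404) (.X 1404) (.X 1404) (.N 7 (.N 4 (.N 8 (.N 5 (.N 10 (.N 11 .L (.X
    828) (.X 1836) (.X 1836)) (.X 792) (.X 2268) (.X 2268)) (.X 1476) (.X 616) (.X 1097)) (.X
    1152) (.X 724) (.X 2668)) (.X 1440) (.X 1015) (.X 662)) (.X 2844) (.X 2419) (.X 2864))) (.X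
    508) (.X 508)) (.N 4 (.N 7 (.N 11 (.X 1196) (.N 3 (.N 6 (.N 5 (.N 8 (.N 10 (.X 828) (.X 792)
    .L (.X 828)) (.X 720) (.X 2124) (.X 2124)) (.X 612) (.X 2556) (.X 2556)) (.X 2574) (.X 2812)
    (.X 1640)) (.X 540) (.X 544) (.X 548)) (.X 1196) (.X 1196)) (.X 2492) (.X 2492) (.X 2420))
    (.N 7 (.X 2492) (.N 3 (.X 1440) (.X 1440) (.X 2704) (.X 1440)) (.X 2492) (.X 2420)) (.N 7
    (.X 2492) (.X 2492) (.N 10 (.N 5 (.N 6 (.X 2060) (.X 2060) (.X 2812) (.X 2060)) (.X 2340)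
    (.X 2428) (.X 2348)) (.X 792) (.N 6 (.N 8 (.X 1237) (.X 1152) (.X 2884) (.N 3 (.N 5 (.X
    2524) (.X 2524) (.X 1480) (.X 1637)) (.X 1404) (.X 544) (.N 5 (.N 11 (.X 1412) .L (.X 832)
    (.X 1412)) (.N 11 .L .L (.X 2772) (.X 2772)) (.X 1480) (.X 1487)))) (.N 11 (.N 5 (.X 1628)
    (.N 3 (.X 805) (.X 1404) (.X 544) (.N 8 (.X 2308) (.X 1152) (.X 2308) .L)) (.X 1628) (.X
    1628)) (.N 3 (.N 5 (.X 1120) (.N 8 .L (.X 1152) (.X 1588) .L) (.X 2988) (.X 2988)) (.X 1404)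
    (.X 544) (.N 5 (.N 8 (.X 1876) (.X 1152) (.X 1876) .L) (.N 8 .L (.X 1152) (.X 1588) .L) (.X
    2988) (.X 2988))) (.X 832) (.X 2585)) (.X 2812) (.N 8 (.X 1088) (.X 1237) (.X 2884) (.X
    1088))) (.X 1444)) (.X 2420)) (.N 6 (.X 1016) (.N 7 (.X 1634) (.X 2844) (.X 2492) (.X 2420))
    (.X 1016) (.X 1016))))

/-- the search tree, the second class starts at `2` -/
def tr2 : Tree :=
  .N 5 (.N 9 (.N 7 (.N 3 (.N 11 (.N 6 (.N 4 (.N 8 (.N 10 .L (.X 1224) .L .L) (.X 1152) (.N 10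
    (.X 1159) .L (.X 1159) (.X 1159)) (.N 10 .L (.X 1224) (.X 1231) (.X 1250))) (.N 10 (.N 8 .L
    (.X 1152) (.X 1159) .L) (.N 8 (.X 1224) (.X 1152) .L (.X 1224)) (.X 1008) (.X 1008)) (.X
    1015) (.N 8 (.N 10 .L (.X 1224) (.X 1231) (.X 1238)) (.X 1152) (.N 10 .L (.X 2952) (.X 1231)
    .L) (.N 10 (.X 1166) (.X 1224) .L (.X 1166)))) (.N 8 (.N 4 (.N 10 (.X 1080) (.X 1080) (.X
    1080) .L) (.X 1092) (.N 10 .L (.X 1224) .L (.X 2743)) (.N 10 (.X 1080) (.X 1080) (.X 1080)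
    .L)) (.X 1152) (.N 4 (.N 10 .L .L .L .L) (.N 10 .L .L (.X 1008) (.X 1008)) (.N 10 .L (.X
    2952) .L (.X 2743)) (.N 10 .L (.X 2952) (.X 1231) .L)) (.N 4 (.N 10 (.X 1080) (.X 1080) (.X
    1080) (.X 2978)) (.X 1092) (.N 10 (.X 2743) (.X 1224) (.X 2743) .L) (.N 10 (.X 1080) (.X
    1080) (.X 1080) (.X 1166)))) (.N 8 (.X 1087) (.N 4 (.N 10 .L (.X 1224) (.X 1231) .L) (.N 10
    (.X 1008) (.X 1008) .L (.X 1008)) (.X 1015) (.N 10 .L (.X 1224) (.X 1231) (.X 1238))) (.X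
    1087) (.X 1087)) (.N 8 (.N 4 (.N 10 .L (.X 1224) .L (.X 1244)) (.N 10 (.X 1008) (.X 1008)
    (.X 1008) .L) (.X 1015) (.X 1094)) (.X 1152) (.N 4 (.N 10 (.X 1159) (.X 2952) (.X 1159) (.X
    1159)) (.N 10 (.X 1008) (.X 1008) (.X 1008) (.X 1159)) (.X 1015) (.N 10 (.X 2822) .L (.X
    1231) (.X 2822))) (.X 2900))) (.N 10 (.X 1260) (.X 1260) (.X 828) (.X 828)) (.N 4 (.X 1267)
    (.X 576) (.X 1267) (.N 6 (.X 2563) (.X 648) (.X 2563) (.X 2563))) (.N 6 (.N 4 (.N 8 (.N 10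
    .L (.X 1224) (.X 799) (.X 860)) (.X 720) (.N 10 (.X 1159) .L (.X 1159) (.X 1159)) (.X 1718))
    (.X 576) (.X 1015) (.X 1274)) (.X 648) (.X 1519) (.X 3008))) (.N 10 (.X 972) (.X 972) (.X
    972) (.N 8 (.X 2268) (.X 2268) (.X 727) (.X 2268))) (.N 4 (.X 979) (.X 1440) (.X 979) (.X
    547)) (.N 8 (.N 10 (.N 4 (.N 6 (.N 11 .L (.X 1260) (.X 835) (.X 839)) (.X 1080) (.X 655) (.X
    659)) (.X 1440) (.N 6 (.X 1015) (.N 11 .L (.X 1260) (.X 648) (.X 648)) (.X 1015) (.X 1015))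
    (.X 587)) (.X 1224) (.X 2527) (.X 1235)) (.X 2448) (.X 727) (.X 2891))) (.X 2412) (.X 2419)
    (.N 6 (.N 4 (.N 8 (.N 3 (.N 10 (.N 11 .L (.X 1260) (.X 835) (.X 851)) (.X 1224) (.X 2527)
    (.X 1247)) (.N 10 (.X 972) (.X 972) (.X 972) (.X 1247)) (.X 979) (.X 695)) (.X 1152) (.N 3
    (.X 727) (.X 727) (.X 979) (.N 10 (.X 1159) (.N 11 .L (.X 1260) (.X 835) (.X 839)) (.X 1159)
    (.X 1159))) (.X 2903)) (.N 3 (.X 1440) (.X 1440) (.X 1440) (.N 11 (.X 576) (.X 576) (.X 576)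
    (.N 8 (.X 1703) (.X 1152) (.X 1703) (.X 1595)))) (.X 1015) (.X 1130)) (.N 11 (.X 648) (.X
    648) (.X 648) (.N 8 (.N 3 (.N 10 (.N 4 (.X 1080) (.X 576) .L (.X 1080)) (.X 1224) (.X 799)
    (.X 815)) (.N 4 (.X 540) (.X 540) (.X 540) (.X 1089)) (.X 1411) (.X 1703)) (.X 1152) (.N 3
    (.X 727) (.X 727) (.X 1411) (.X 1703)) (.X 743))) (.N 3 (.X 655) (.X 1404) (.X 655) (.N 8
    (.X 1087) (.N 11 (.X 720) (.X 720) (.X 720) (.N 4 (.N 10 (.X 839) (.X 1224) (.X 1231) (.X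
    803)) (.N 10 (.X 1008) (.X 1008) .L (.X 1008)) (.X 1015) (.X 587))) (.X 1087) (.X 1087)))
    (.X 2864))) (.N 7 (.N 4 (.X 2484) (.X 2484) (.X 2484) (.N 8 (.X 2052) (.X 2052) (.N 3 (.X
    727) (.N 10 (.X 972) (.X 972) (.X 972) (.N 11 (.N 6 .L .L (.X 1404) (.X 1404)) (.X 828) (.X
    1197) (.X 1197))) (.X 547) (.X 727)) (.X 2052))) (.X 2412) (.N 8 (.N 4 (.N 3 (.N 6 (.N 10
    (.N 11 .L (.X 1260) (.X 756) (.X 756)) (.X 1224) (.X 2527) (.N 11 (.X 756) (.X 756) (.X 756)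
    .L)) (.X 691) (.X 1620) (.X 1620)) (.N 10 (.X 972) (.X 972) (.X 972) (.X 2268)) (.X 979) (.N
    6 (.X 1620) (.X 1620) (.X 1620) (.N 10 (.N 11 .L (.X 1260) (.X 756) (.X 756)) (.X 1224) (.X
    2527) (.X 1235)))) (.N 3 (.X 1440) (.X 1440) (.X 547) (.X 1440)) (.X 2052) (.X 2052)) (.X
    2851) (.N 3 (.X 727) (.N 6 (.X 691) (.N 11 (.X 648) (.X 648) (.X 1197) (.X 648)) (.X 1404)
    (.X 1404)) (.X 2707) (.X 727)) (.X 2851)) (.N 4 (.X 2484) (.X 2484) (.X 2484) (.N 8 (.X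
    2052) (.X 2052) (.N 6 (.X 1130) (.N 11 (.X 648) (.X 648) (.X 648) (.X 1706)) (.X 1087) (.X
    2390)) (.X 2052)))) (.N 6 (.N 11 (.X 1627) (.N 10 (.N 4 (.N 7 (.N 3 (.N 8 .L (.X 720) (.X
    2124) (.X 2124)) (.X 540) (.X 979) (.N 8 (.X 2124) (.X 720) (.X 2124) .L)) (.X 2412) (.X
    2556) (.X 2556)) (.X 2568) (.X 1015) (.N 3 (.N 7 (.X 2556) (.X 1548) (.X 2556) (.N 8 .L (.X
    1152) (.X 727) (.X 763))) (.X 972) (.X 547) (.X 587))) (.X 792) (.X 828) (.X 828)) (.X 1627)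
    (.X 1627)) (.N 10 (.X 2059) (.X 792) (.X 2059) (.N 11 (.X 1627) (.X 828) (.X 1627) (.X
    1627))) (.N 11 (.X 1627) (.X 2988) (.X 1627) (.X 1627)) (.N 10 (.X 2059) (.X 792) (.X 2059)
    (.X 2059))) (.N 7 (.N 10 (.N 11 (.N 4 (.N 3 (.N 8 (.N 6 .L (.X 1080) (.X 1087) (.X 1640))
    (.X 720) (.X 727) (.X 2078)) (.X 540) (.X 979) (.N 8 (.X 767) (.X 720) (.N 6 (.X 1159) .L
    (.X 655) (.X 1159)) (.X 731))) (.X 2304) (.N 6 (.X 1015) (.N 3 (.N 8 .L (.X 720) (.X 727)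
    (.X 2743)) (.X 540) (.X 979) (.N 8 (.X 767) (.X 720) .L (.X 2743))) (.X 1015) (.X 1015)) (.X
    2498)) (.X 1260) (.N 3 (.X 835) (.X 972) (.X 835) (.X 835)) (.N 4 (.N 3 (.N 6 (.X 2585) (.X
    648) (.N 8 (.X 1087) .L (.X 1087) (.X 1087)) (.X 1640)) (.X 540) (.X 979) (.X 839)) (.X
    2304) (.X 1447) (.X 2498))) (.X 792) (.N 3 (.X 2527) (.X 972) (.X 2527) (.N 11 (.N 4 (.N 6
    (.N 8 .L (.X 720) (.X 1159) (.X 1231)) (.N 8 (.X 1080) (.X 1080) .L (.X 1080)) (.X 655) (.X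
    659)) (.X 576) (.N 6 (.X 1015) (.N 8 .L (.X 720) .L (.X 2743)) (.X 1015) (.X 1015)) (.X
    587)) (.X 828) (.X 835) (.X 1663))) (.N 6 (.X 1685) (.X 1685) (.X 2117) (.X 2072))) (.X
    2412) (.X 2419) (.N 4 (.X 2507) (.N 3 (.N 6 (.N 8 (.N 10 (.N 11 .L (.X 1260) (.X 576) (.X
    576)) (.X 792) (.X 1008) (.X 1008)) (.X 1152) (.X 727) (.X 2903)) (.X 660) (.X 655) (.X
    2864)) (.X 585) (.X 547) (.N 11 (.X 576) (.X 576) (.X 576) (.N 6 (.X 2585) (.X 2388) (.N 8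
    (.X 1087) (.N 10 (.X 1008) (.X 1008) .L (.X 1008)) (.X 1087) (.X 1087)) (.X 1523)))) (.X
    2507) (.X 2507)))) (.N 7 (.N 10 (.N 3 (.X 1044) (.X 972) (.N 4 (.N 6 (.N 11 (.N 8 (.N 9 .L
    (.X 1188) (.X 1908) (.X 1908)) (.X 1152) (.X 1159) (.N 9 (.X 1908) (.X 1908) (.X 1908) .L))
    (.X 1843) (.X 612) (.X 612)) (.N 8 (.X 1080) (.X 1080) (.N 9 (.X 1908) (.X 1908) (.N 11 (.X
    1843) .L (.X 612) (.X 612)) (.X 1908)) (.X 1080)) (.X 655) (.N 8 (.N 9 (.N 11 (.X 612) (.X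
    612) (.X 612) .L) (.X 1620) (.X 1908) (.X 1908)) (.X 1152) (.X 1159) (.X 2036))) (.X 547)
    (.X 583) (.X 547)) (.X 1044)) (.N 3 (.X 1044) (.X 972) (.X 2520) (.X 1044)) (.X 2340) (.X
    2340)) (.X 2412) (.N 9 (.X 2419) (.N 10 (.X 2340) (.X 2340) (.N 8 (.N 3 (.X 1476) (.X 972)
    (.X 2275) (.X 1476)) (.X 2851) (.X 2545) (.X 2851)) (.X 2340)) (.X 2419) (.X 2419)) (.N 10
    (.X 2340) (.X 2340) (.X 2340) (.N 11 (.N 6 (.N 3 (.X 2111) (.X 621) (.N 4 (.N 8 (.N 9 .L (.X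
    756) (.X 1908) (.X 1908)) (.X 1152) (.X 1159) (.X 1607)) (.X 576) (.X 612) (.X 612)) (.X
    1667)) (.X 648) (.X 2772) (.X 2772)) (.X 828) (.N 8 (.X 1699) (.N 9 (.X 720) (.X 720) (.X
    1288) (.X 720)) (.X 1699) (.X 1699)) (.X 1283)))) (.N 4 (.N 3 (.N 7 (.X 1051) (.N 6 (.N 8
    (.N 11 (.N 9 (.N 10 .L (.X 1224) (.X 1548) (.X 1548)) (.X 2052) (.X 1627) (.N 10 (.X 1548)
    (.X 1548) (.X 1548) .L)) (.X 2556) (.X 684) (.X 684)) (.X 1152) (.N 9 (.X 727) (.X 727) (.X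
    727) (.X 2032)) (.N 9 (.N 10 (.N 11 (.X 684) (.X 684) (.X 684) .L) (.X 1224) (.X 1548) (.X
    1548)) (.X 2052) (.X 2491) (.X 2078))) (.X 619) (.X 2844) (.X 2844)) (.X 1051) (.X 1051))
    (.N 6 (.X 619) (.N 8 (.X 1089) (.X 1152) (.N 9 (.X 2032) (.N 11 (.X 540) (.X 540) (.N 7 (.N
    10 .L .L .L .L) (.N 10 .L .L (.X 1548) (.X 1548)) (.N 10 .L (.X 1656) .L (.X 1555)) (.N 10
    .L (.X 1656) (.X 1663) .L)) (.X 540)) (.X 1404) (.X 1404)) (.X 1089)) (.X 619) (.X 619)) (.X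
    979) (.N 6 (.X 619) (.X 619) (.X 619) (.N 7 (.X 1051) (.X 2844) (.X 1051) (.X 1051)))) (.N 3
    (.N 6 (.X 619) (.X 619) (.X 619) (.N 7 (.X 1051) (.X 2844) (.X 1051) (.X 1051))) (.N 11 (.X
    540) (.X 540) (.N 9 (.X 1267) (.N 8 (.X 2052) (.X 1584) (.N 6 (.N 10 (.X 1915) (.N 7 .L .L
    (.X 1440) (.X 1440)) (.X 1008) (.X 1008)) (.N 7 (.N 10 .L .L (.X 1008) (.X 1008)) (.N 10 .L
    .L (.X 1008) (.X 1008)) (.X 1440) (.X 1440)) (.X 1404) (.X 1404)) (.X 2052)) (.X 1267) (.X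
    1267)) (.X 540)) (.X 547) (.N 6 (.X 619) (.X 619) (.X 619) (.N 7 (.X 1051) (.X 2844) (.X
    1051) (.X 1051)))) (.N 6 (.X 1015) (.N 3 (.X 619) (.N 11 (.X 540) (.X 540) (.N 9 (.X 1267)
    (.N 8 (.N 10 (.X 756) (.X 756) (.N 7 .L (.X 684) .L (.X 1447)) (.X 756)) (.X 1152) (.N 7 (.N
    10 .L (.X 2952) .L (.X 2743)) (.X 1447) (.N 10 .L (.X 1656) .L (.X 2743)) (.X 1447)) (.X
    1483)) (.X 1404) (.X 1404)) (.X 540)) (.X 979) (.X 619)) (.X 1015) (.X 1015)) (.N 3 (.N 6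
    (.X 619) (.N 10 (.N 8 (.X 1080) (.X 1080) (.X 2464) (.X 1080)) (.X 2952) (.X 2536) (.N 11
    (.N 9 (.X 806) (.X 806) (.X 1627) (.X 2498)) (.X 828) (.N 7 (.N 9 (.N 8 .L (.X 720) .L (.X
    1483)) (.X 1276) (.X 1627) (.X 1634)) (.N 9 (.X 1548) (.X 1548) (.X 1548) (.X 1276)) (.X
    1555) (.N 9 (.X 1276) (.X 1276) (.X 1627) (.X 1634))) (.X 842))) (.X 619) (.X 619)) (.N 6
    (.X 619) (.N 8 (.X 1089) (.X 1152) (.N 7 (.N 9 (.X 727) (.N 11 (.X 648) (.X 648) (.N 10 .L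
    (.X 2952) (.X 1231) .L) (.X 648)) (.X 1404) (.X 1404)) (.N 10 (.X 1557) (.X 2952) (.X 1231)
    (.X 1557)) (.X 700) (.N 9 (.X 727) (.N 11 (.X 1197) (.X 1692) (.N 10 .L (.X 1656) (.X 1231)
    .L) (.X 1483)) (.X 1404) (.X 1404))) (.X 1089)) (.X 619) (.X 619)) (.X 547) (.N 7 (.N 6 (.X
    1451) (.X 1451) (.X 655) (.X 1451)) (.N 9 (.N 8 (.N 6 (.N 10 (.N 11 .L (.X 1260) (.X 684)
    (.X 684)) (.X 1224) (.X 1231) (.X 1915)) (.X 702) (.X 2844) (.X 2844)) (.X 2448) (.X 727)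
    (.X 731)) (.X 2505) (.X 2491) (.N 8 (.X 2066) (.X 2448) (.N 10 (.X 2464) (.X 792) (.X 1231)
    (.N 11 (.X 2315) (.X 828) (.N 6 .L .L (.X 2844) (.X 2844)) (.X 1483))) (.X 731))) (.N 6 (.X
    1451) (.X 1451) (.X 655) (.X 1451)) (.N 6 (.X 1451) (.X 1451) (.N 8 (.X 1087) (.N 9 (.X
    1528) (.X 1620) (.X 2923) (.X 2066)) (.X 1087) (.X 1087)) (.X 1451))))) (.N 3 (.N 10 (.N 7
    (.N 4 (.N 8 (.N 6 (.N 9 (.N 11 .L (.X 1260) (.X 835) (.X 845)) (.X 2052) (.X 2059) (.X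
    1637)) (.X 1080) (.X 655) (.N 9 (.X 1529) (.X 1620) (.N 11 (.X 1195) .L (.X 1195) (.X 1195))
    (.X 1529))) (.X 2448) (.N 6 (.X 1159) (.N 9 (.N 11 (.X 648) (.X 648) (.X 648) .L) (.X 2052)
    (.X 2059) (.X 727)) (.X 655) (.X 1159)) (.X 2465)) (.N 9 (.N 11 (.X 576) (.X 576) (.X 576)
    (.N 6 (.N 8 .L (.X 720) (.X 1159) (.X 737)) (.N 8 (.X 1080) (.X 1080) .L (.X 1080)) (.X
    1008) (.X 1008))) (.X 2484) (.X 1440) (.X 1440)) (.X 583) (.N 6 (.X 1058) (.X 626) (.X 655)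
    (.X 1058))) (.X 2412) (.N 8 (.N 6 (.N 9 (.X 2419) (.N 4 (.X 2052) (.X 1440) (.X 2052) (.N 11
    .L (.X 1260) (.X 756) (.X 756))) (.X 2419) (.X 2419)) (.X 691) (.X 655) (.X 691)) (.X 2851)
    (.X 2470) (.X 2851)) (.X 2429)) (.N 7 (.N 8 (.X 1224) (.X 2448) (.N 9 (.N 4 (.N 6 (.N 11 .L
    (.X 1260) (.X 835) (.X 845)) (.N 11 (.X 648) (.X 648) (.X 648) .L) (.X 2952) (.X 2952)) (.N
    11 (.X 576) (.X 576) (.X 576) (.N 6 .L .L (.X 1008) (.X 1008))) (.X 583) (.X 1490)) (.X 727)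
    (.X 792) (.X 792)) (.X 1224)) (.X 2412) (.X 2520) (.X 2520)) (.N 7 (.N 11 (.X 1663) (.X 828)
    (.X 1663) (.X 1663)) (.X 2412) (.X 2542) (.N 8 (.N 4 (.N 6 (.N 9 (.N 11 .L (.X 828) (.X 835)
    (.X 799)) (.X 2052) (.X 2059) (.X 773)) (.X 1080) (.X 655) (.X 2864)) (.X 1231) (.X 583) (.X
    1231)) (.X 2448) (.X 2545) (.X 2903))) (.X 2537)) (.N 10 (.X 972) (.X 972) (.X 972) (.N 7
    (.N 8 (.X 1673) (.X 2448) (.X 1673) (.X 1673)) (.X 2412) (.N 9 (.X 2419) (.N 6 (.X 2105) (.N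
    11 (.X 1197) (.X 828) (.X 1197) (.N 4 (.X 540) (.X 540) (.X 540) (.N 8 .L (.X 720) .L (.X
    2851)))) (.X 1404) (.X 1404)) (.X 2419) (.X 2419)) (.X 2429))) (.N 4 (.X 979) (.X 547) (.X
    979) (.X 547)) (.N 6 (.X 623) (.X 623) (.N 8 (.X 1087) (.N 4 (.N 7 (.N 10 (.N 9 (.N 11 .L
    (.X 1260) (.X 720) (.X 720)) (.X 1620) (.X 763) (.X 767)) (.X 1224) (.X 1231) (.X 1235)) (.X
    2412) (.X 691) (.X 701)) (.N 10 (.X 1008) (.X 1008) (.N 11 (.X 576) (.X 576) (.X 576) (.N 7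
    (.X 1663) (.X 684) (.X 691) (.N 9 .L (.X 756) (.X 763) .L))) (.X 1008)) (.X 583) (.X 587))
    (.X 1087) (.X 1087)) (.X 623)))

/-- the search tree, the second class starts at `3` -/
def tr3 : Tree :=
  .N 7 (.N 10 (.N 5 (.N 4 (.N 8 (.N 11 (.N 6 (.N 9 .L (.X 1620) .L .L) (.N 9 .L (.X 1620) .L .L)
    (.N 9 (.X 1522) .L (.X 1522) (.X 1522)) (.N 9 .L (.X 1620) .L (.X 1640))) (.X 2124) (.X 838)
    (.N 6 (.N 9 .L (.X 756) (.X 1198) (.X 857)) (.X 648) (.X 1954) (.X 848))) (.X 2448) (.N 6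
    (.N 9 (.N 11 (.X 1594) .L (.X 1594) (.X 1594)) (.X 1620) (.X 2077) (.X 730)) (.X 1080) (.X
    2035) (.X 1162)) (.N 6 (.N 9 (.N 11 .L (.X 1692) (.X 838) (.X 854)) (.X 1620) (.X 766) (.X
    2078)) (.X 1080) (.X 1090) (.X 2036))) (.N 9 (.X 1440) (.X 1440) (.X 1440) (.N 11 (.X 576)
    (.X 576) (.X 1270) (.X 576))) (.N 6 (.X 1450) (.X 1018) (.X 1450) (.X 1018)) (.N 6 (.N 11
    (.N 8 (.N 9 .L (.X 1620) (.X 766) (.X 770)) (.X 2448) (.X 1594) (.N 9 (.X 734) (.X 756) .L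
    (.X 734))) (.X 2556) (.X 838) (.X 842)) (.N 8 (.X 1080) (.X 1080) (.X 1162) (.X 1080)) (.X
    658) (.X 662))) (.X 1044) (.N 8 (.X 2350) (.N 6 (.N 9 (.N 11 (.N 4 .L (.X 576) (.X 1450) .L)
    (.X 1692) (.X 720) (.X 720)) (.X 1620) (.N 4 (.X 766) (.X 1440) (.X 1450) (.X 766)) (.N 4
    (.N 11 (.X 720) (.X 720) (.X 720) .L) (.X 732) (.X 1450) (.X 770))) (.X 622) (.X 1152) (.X
    1152)) (.X 2350) (.X 2350)) (.N 8 (.N 4 (.N 6 (.N 11 (.N 9 .L (.X 1620) (.X 1198) (.X 1205))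
    (.X 2124) (.X 838) (.X 845)) (.N 11 (.X 648) (.X 648) (.X 648) (.N 9 (.X 1277) (.X 756) .L
    (.X 773))) (.X 658) (.X 1097)) (.N 6 (.N 9 (.X 1440) (.X 1440) (.X 1440) (.X 773)) (.X 660)
    (.X 1008) (.X 1008)) (.X 586) (.N 6 (.X 626) (.X 1080) (.N 9 (.X 1522) (.N 11 .L (.X 1692)
    (.X 756) (.X 756)) (.X 1522) (.X 1522)) (.X 626))) (.X 2448) (.N 6 (.X 1162) (.X 1162) (.X
    1162) (.N 4 (.N 9 (.N 11 (.X 2026) .L (.X 2026) (.X 2026)) (.X 1620) (.X 1961) (.X 730)) (.X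
    1008) (.X 586) (.X 626))) (.X 2465))) (.X 2520) (.N 6 (.X 1666) (.X 1666) (.X 1666) (.N 8
    (.N 5 (.X 1234) (.X 2340) (.X 622) (.X 1234)) (.X 1152) (.X 1249) (.X 2900))) (.N 5 (.N 6
    (.N 8 (.N 4 (.N 9 (.N 11 .L (.X 828) (.X 1702) (.X 860)) (.X 1620) (.X 766) (.X 1685)) (.X
    1008) (.X 1450) (.X 1238)) (.X 2448) (.X 1162) (.X 1250)) (.N 11 (.N 4 (.N 8 (.X 1080) (.X
    1080) (.X 1080) (.N 9 .L (.X 756) (.X 766) (.X 1214))) (.X 576) (.X 1018) (.N 9 (.X 806) (.X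
    1188) (.N 8 .L (.X 720) (.X 730) .L) (.X 1202))) (.X 828) (.X 648) (.X 648)) (.N 4 (.N 8 (.N
    9 (.X 1522) (.N 11 (.X 756) (.X 756) (.X 756) .L) (.X 1522) (.X 1522)) (.X 1152) (.X 1162)
    (.X 1090)) (.X 1008) (.X 1450) (.X 658)) (.N 9 (.X 1676) (.X 1620) (.X 1676) (.X 1640))) (.X
    1044) (.N 8 (.X 2350) (.N 6 (.N 4 (.N 9 (.N 11 .L (.X 828) (.X 720) (.X 720)) (.X 1620) (.N
    11 (.X 720) (.X 720) .L (.X 720)) (.X 1685)) (.X 1008) (.X 1450) (.X 1238)) (.X 622) (.X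
    1152) (.X 1152)) (.X 2350) (.X 2350)) (.X 2537))) (.N 10 (.N 5 (.N 9 (.N 4 (.X 1548) (.X
    1440) (.N 6 (.N 8 (.N 11 .L (.X 1692) (.X 684) (.X 684)) (.X 2448) (.X 730) (.N 11 (.X 684)
    (.X 684) (.X 684) .L)) (.X 1018) (.X 2844) (.X 2844)) (.X 1548)) (.X 2937) (.X 1116) (.X
    1116)) (.X 1044) (.X 2412) (.X 2412)) (.X 2520) (.N 5 (.N 8 (.X 1234) (.X 2448) (.X 1234)
    (.X 2530)) (.X 2340) (.X 2412) (.X 2412)) (.N 5 (.N 9 (.X 1116) (.X 1116) (.X 1116) (.N 4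
    (.X 2549) (.X 1560) (.N 6 (.N 8 (.N 11 .L (.X 828) (.X 684) (.X 684)) (.X 2448) (.X 1162)
    (.X 782)) (.X 1018) (.X 2844) (.X 2844)) (.X 2930))) (.X 1044) (.X 2412) (.X 2412))) (.N 8
    (.N 10 (.X 2422) (.N 9 (.N 5 (.N 4 (.N 6 (.N 11 .L (.X 1692) (.X 838) .L) (.X 694) (.X 2088)
    (.X 2088)) (.N 11 (.X 576) (.X 576) (.X 1714) (.X 576)) (.X 2746) (.N 6 (.X 2088) (.X 1080)
    (.X 2088) (.N 11 .L (.X 1692) (.X 838) (.X 842)))) (.X 1044) (.X 2350) (.N 11 (.N 4 (.N 6 .L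
    (.X 694) (.X 2088) (.X 2088)) (.N 6 (.X 694) .L (.X 1008) (.X 1008)) (.X 586) (.X 1490)) (.X
    1692) (.X 1270) (.X 1277))) (.X 1126) (.X 792) (.X 792)) (.X 2422) (.X 2422)) (.N 6 (.N 4
    (.X 694) (.N 9 (.N 11 (.X 720) (.X 720) (.N 5 (.N 10 .L .L (.X 1008) (.X 1008)) (.X 612) (.N
    10 .L (.X 2428) (.X 1008) (.X 1008)) (.X 1270)) (.X 720)) (.X 1620) (.N 10 (.N 11 (.X 720)
    (.X 720) (.N 5 .L (.X 612) .L (.X 1198)) (.X 720)) (.X 792) (.X 1008) (.X 1008)) (.X 1126))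
    (.X 1450) (.X 694)) (.N 4 (.X 694) (.N 9 (.N 5 (.N 11 (.X 576) (.X 576) (.N 10 .L .L (.X
    1008) (.X 1008)) (.X 576)) (.X 1476) (.X 622) (.X 738)) (.X 1620) (.X 2388) (.X 1126)) (.X
    1450) (.X 694)) (.X 1152) (.X 1152)) (.X 2470) (.N 10 (.X 2422) (.X 1224) (.X 2422) (.X
    2422))) (.N 10 (.N 9 (.N 5 (.N 6 (.N 4 (.N 8 (.N 11 .L (.X 1692) (.X 838) (.X 851)) (.X
    2448) (.X 730) (.X 2471)) (.X 1440) (.X 1450) (.N 8 (.X 698) (.X 2448) (.N 11 (.X 1594) .L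
    (.X 1594) (.X 1594)) (.X 698))) (.N 4 (.N 8 (.N 11 (.X 648) (.X 648) (.X 648) .L) (.X 2448)
    (.X 1080) (.X 1080)) (.X 1440) (.X 1018) (.X 1130)) (.X 1522) (.X 2864)) (.X 2340) (.X 1054)
    (.X 1133)) (.N 5 (.N 11 (.X 1188) (.X 1188) (.X 1270) (.X 1188)) (.X 2340) (.X 1054) (.X
    1133)) (.N 5 (.N 11 (.X 1198) (.X 1260) (.X 1198) (.X 1198)) (.X 2340) (.X 1054) (.N 8 (.N 4
    (.N 6 (.N 11 .L (.X 1260) (.X 838) (.X 845)) (.N 11 (.X 648) (.X 648) (.X 648) .L) (.X 658)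
    (.X 1097)) (.X 1440) (.X 586) (.X 766)) (.X 2448) (.X 781) (.X 2465))) (.X 2939)) (.X 2520)
    (.N 6 (.X 1666) (.X 1666) (.X 1666) (.X 2864)) (.N 5 (.X 2543) (.N 8 (.N 9 (.X 1476) (.X
    1476) (.X 1476) (.X 2939)) (.X 2448) (.X 2458) (.X 2471)) (.X 1054) (.X 2537)))

/-- the search tree, the second class starts at `4` -/
def tr4 : Tree :=
  .N 11 (.N 7 (.N 6 (.N 5 (.N 9 (.N 10 (.N 8 .L .L .L .L) (.X 2952) (.N 8 (.X 1237) (.X 1237)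
    (.X 1237) .L) (.N 8 .L .L (.X 1165) (.X 1250))) (.X 2484) (.X 1633) (.N 8 (.N 10 .L (.X 792)
    (.X 805) (.X 1253)) (.X 720) (.X 733) (.X 1646))) (.X 612) (.N 10 (.N 8 (.N 9 (.X 1921) .L
    (.X 1921) (.X 1921)) (.X 2448) (.X 2464) (.X 1489)) (.X 2952) (.X 2536) (.X 2785)) (.N 8 (.N
    9 (.N 10 .L (.X 2088) (.X 805) (.X 809)) (.X 2052) (.X 1633) (.X 1637)) (.X 2448) (.X 1597)
    (.N 9 (.X 737) (.X 2484) (.X 1633) (.X 737)))) (.N 5 (.N 10 (.N 8 (.X 1080) (.X 1080) (.X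
    1080) (.N 9 .L (.X 756) (.X 769) (.X 1214))) (.X 2952) (.N 9 (.N 8 .L .L .L .L) (.X 1188)
    (.X 1201) (.X 805)) (.N 8 (.X 1080) (.X 1080) (.X 1080) (.X 2978))) (.X 612) (.X 648) (.X
    648)) (.N 8 (.N 9 (.N 10 (.X 1957) (.N 5 .L (.X 612) (.X 1921) .L) (.X 1957) (.X 1957)) (.X
    1620) (.X 1633) (.X 1525)) (.X 1152) (.X 2899) (.X 1093)) (.N 5 (.N 9 (.N 8 (.N 10 .L (.X
    2088) (.X 1237) (.X 1244)) (.X 1152) (.N 10 .L (.X 1224) (.X 1237) (.X 1165)) (.X 2900)) (.X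
    1620) (.X 1201) (.X 1640)) (.X 2772) (.X 625) (.X 665))) (.N 8 (.X 1980) (.X 1980) (.X 1980)
    (.N 6 (.X 684) (.X 684) (.X 2844) (.X 684))) (.N 8 (.X 1993) (.X 1993) (.X 1993) (.N 9 (.X
    2425) (.N 6 (.N 10 (.X 756) (.X 756) (.X 814) (.X 756)) (.X 2502) (.X 1620) (.X 1620)) (.X
    2425) (.X 2425))) (.N 6 (.N 10 (.N 9 (.N 5 (.N 8 .L (.X 720) (.X 733) (.X 1607)) (.X 612)
    (.X 1057) (.N 8 (.X 701) (.X 720) .L (.X 701))) (.X 1188) (.X 1201) (.X 1643)) (.X 2520) (.N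
    8 (.X 1237) (.X 1237) (.X 1237) (.X 2471)) (.X 1679)) (.N 5 (.X 648) (.X 612) (.X 625) (.X
    648)) (.X 661) (.X 2432))) (.N 8 (.N 7 (.X 2124) (.X 1980) (.N 9 (.N 10 (.N 5 (.N 6 .L (.X
    648) (.X 2988) (.X 2988)) (.X 1044) (.X 1921) (.N 6 (.X 2988) (.X 1080) (.X 2988) .L)) (.X
    1656) (.X 828) (.X 828)) (.X 1287) (.X 1692) (.X 1692)) (.X 2124)) (.N 6 (.X 2580) (.X 2574)
    (.X 1152) (.X 1152)) (.N 7 (.X 2124) (.X 1980) (.X 2470) (.X 2124)) (.N 9 (.X 1692) (.X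
    1692) (.X 1692) (.X 2510))) (.N 7 (.N 8 (.X 2137) (.X 1705) (.X 2137) (.X 1705)) (.N 5 (.N
    10 (.X 841) (.X 841) (.X 841) (.X 3001)) (.X 2859) (.X 2412) (.X 2412)) (.N 8 (.X 1993) (.X
    1993) (.X 1993) (.X 1705)) (.N 8 (.X 1705) (.X 1705) (.X 1705) (.X 2471))) (.N 8 (.N 7 (.N 9
    (.N 6 (.N 10 (.N 5 .L (.X 612) (.X 1921) (.X 845)) (.X 2088) (.X 1237) (.X 860)) (.N 5 (.X
    648) (.X 612) (.X 648) (.N 10 (.X 1080) (.X 1080) .L (.X 1080))) (.N 10 (.X 1957) (.N 5 .L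
    (.X 612) (.X 1921) (.X 845)) (.X 1957) (.X 1957)) (.X 1280)) (.N 5 (.X 2052) (.X 1908) (.N 6
    (.N 10 (.X 756) (.X 756) (.X 756) .L) (.X 648) (.X 1620) (.X 1620)) (.X 2052)) (.X 2497) (.X
    857)) (.X 1980) (.X 1993) (.N 10 (.X 1715) (.X 2520) (.X 1715) (.X 1679))) (.N 6 (.N 7 (.N 5
    (.N 9 (.X 720) (.X 720) (.X 720) (.N 10 .L (.X 792) (.X 805) (.X 821))) (.X 612) (.X 2448)
    (.X 2448)) (.X 684) (.X 1993) (.X 2579)) (.X 2466) (.X 1152) (.X 1152)) (.N 9 (.X 2461) (.N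
    5 (.X 2052) (.X 1476) (.X 1600) (.X 2052)) (.X 2461) (.X 2461)) (.N 6 (.X 2582) (.N 9 (.N 7
    (.N 5 (.X 648) (.X 612) (.X 648) (.N 10 (.X 1169) (.X 1224) .L (.X 1169))) (.X 2430) (.X
    2425) (.X 743)) (.X 2502) (.X 2497) (.X 2510)) (.X 1093) (.X 2900)))

/-- the search tree, the second class starts at `5` -/
def tr5 : Tree :=
  .N 10 (.N 8 (.N 9 (.N 7 (.N 6 (.N 11 .L (.X 2556) (.X 844) .L) (.N 11 (.X 648) (.X 648) .L (.X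
    648)) (.N 11 (.X 2392) .L (.X 2392) (.X 2392)) (.N 11 .L (.X 2556) (.X 844) (.X 848))) (.X
    1116) (.N 11 (.N 6 .L (.X 648) (.X 2392) .L) (.X 2124) (.N 6 (.X 844) .L (.X 2392) (.X 844))
    (.X 1996)) (.N 11 (.N 6 .L .L (.X 664) (.X 704)) (.X 2124) (.X 1276) (.X 1283))) (.X 2052)
    (.X 2500) (.N 7 (.N 11 (.N 6 .L (.X 648) (.X 1528) (.X 776)) (.X 1260) (.X 1276) (.X 857))
    (.X 1548) (.X 1132) (.X 2507))) (.N 7 (.X 2448) (.X 2412) (.X 2448) (.N 9 (.N 11 (.X 720)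
    (.X 720) (.X 720) (.X 1283)) (.X 2052) (.X 2500) (.X 2507))) (.X 2464) (.N 7 (.N 6 (.N 9 (.N
    11 .L (.X 1692) (.X 844) (.X 854)) (.X 2052) (.X 772) (.X 2078)) (.X 1080) (.X 1096) (.X
    2036)) (.X 2412) (.X 700) (.X 2471))) (.N 7 (.N 8 (.N 9 (.N 6 (.N 11 .L (.X 2556) (.X 844)
    .L) (.N 11 (.X 648) (.X 648) .L (.X 648)) (.X 2088) (.X 2088)) (.X 2052) (.X 792) (.X 792))
    (.X 2448) (.X 1224) (.X 1224)) (.X 2412) (.X 2520) (.X 2520)) (.X 2536) (.N 7 (.N 8 (.N 6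
    (.N 9 (.N 11 .L (.X 828) .L (.X 860)) (.X 2052) (.X 772) (.X 1685)) (.X 1080) (.N 9 (.X
    1960) (.X 1620) (.X 1960) (.X 1528)) (.X 1244)) (.X 2448) (.N 6 (.X 1168) (.X 1080) (.X
    1168) (.X 1168)) (.X 2546)) (.X 2412) (.X 2428) (.X 2543))

/-- the search tree, the second class starts at `6` -/
def tr6 : Tree :=
  .N 7 (.N 8 (.N 9 (.N 10 (.N 11 .L (.X 2556) (.X 847) .L) (.X 2088) (.X 1243) (.N 11 .L (.X
    828) (.X 2143) (.X 860))) (.X 1620) (.X 1639) (.N 10 (.N 11 .L (.X 1260) (.X 847) (.X 857))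
    (.X 792) (.X 1243) (.X 2117))) (.X 1152) (.X 2899) (.N 9 (.N 10 (.N 11 .L (.X 1692) (.X 847)
    (.X 854)) (.X 1224) (.X 1243) (.X 1250)) (.X 1620) (.X 1639) (.X 2078))) (.X 2844) (.X 2863)
    (.N 8 (.N 9 (.N 10 (.N 11 .L (.X 2124) (.X 847) (.X 851)) (.X 1656) (.X 1243) (.X 1247)) (.X
    1620) (.X 1639) (.X 2507)) (.X 1152) (.X 2899) (.X 2471))

/-- the search tree, the second class starts at `7` -/
def tr7 : Tree :=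
  .N 8 (.N 9 (.N 10 (.N 11 .L (.X 2124) (.X 850) .L) (.X 1656) (.X 1246) (.N 11 .L (.X 828) (.X
    1714) (.X 860))) (.X 2484) (.X 2506) (.N 10 (.N 11 .L (.X 1260) (.X 850) (.X 857)) (.X 792)
    (.X 1246) (.X 1685))) (.X 2448) (.X 2470) (.N 9 (.N 10 (.N 11 .L (.X 1692) (.X 850) (.X
    854)) (.X 1224) (.X 2542) (.X 1250)) (.X 2052) (.X 2506) (.X 2078))

/-- the search tree, the second class starts at `8` -/
def tr8 : Tree :=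
  .N 9 (.N 10 (.N 11 .L (.X 1692) (.X 853) .L) (.X 1224) (.X 1249) (.N 11 .L (.X 828) (.X 1285)
    (.X 860))) (.X 2052) (.X 2077) (.N 10 (.N 11 .L (.X 1260) (.X 853) (.X 857)) (.X 792) (.X
    1249) (.X 1685))

/-- the search tree, the second class starts at `9` -/
def tr9 : Tree :=
  .N 10 (.N 11 .L (.X 1260) (.X 856) .L) (.X 792) (.X 1684) (.N 11 .L (.X 828) (.X 856) (.X
    860))

/-- the search tree, the second class starts at `10` -/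
def tr10 : Tree :=
  .N 11 .L (.X 828) (.X 859) .L

/-- the search tree, the second class starts at `11` -/
def tr11 : Tree :=
  .L

/-- the normal forms -/
def nfs : List ℕ :=
  [34363933184,
   34361835776,
   34360787072,
   34363932928,
   34360262688,
   34360786976,
   34360262720,
   34363932736,
   34361835584,
   34360787008,
   34361835536,
   34360786960,
   34360262672,
   34363932800,
   34360000544,
   34363932704,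
   34361835552,
   34360262664,
   34361835648,
   34361836560,
   34360263176,
   17190354960,
   8598847496,
   34359869700,
   8598848788,
   2156003848,
   8595179648,
   21483749384,
   2151745544,
   2148796424,
   4299425824,
   4297590816,
   17190354984,
   8598847508,
   2149713928,
   10745937924,
   8599520402,
   34901393928,
   35436676242,
   3227617572,
   36646961698,
   35973547154,
   26182041794,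
   34900869640,
   34901131524,
   34899263748,
   34900869380,
   34898739460,
   4834002948,
   9131067400,
   5372971016,
   9668003856,
   6446778384,
   6444812304,
   25779240984,
   21483749396,
   10741876768,
   25779240996,
   10745937930,
   19336003596,
   51539804292,
   12889622592,
   3223390212,
   5370939400,
   34898740370,
   9673262226,
   8733738130,
   36645913122,
   36647027234,
   9807479954,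
   8729479330,
   34898739330,
   17458954370,
   26182041795,
   39263478345,
   36643677525]

/-- the labels, with a change of order and a translation -/
def tab : List (List (ℕ × ℕ × ℕ)) :=
  [[(34431640137, 0, 5), (36643677525, 0, 0), (12884975649, 4, 6), (13091022913, 0, 5), (8729411649, 0, 4), (34359870465, 2, 1)],
    [(608772681, 0, 8), (19327402017, 4, 8), (52345455177, 1, 8), (45772718353, 3, 1), (1611696129, 3, 1)],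
    [(39263477833, 3, 9), (18329674001, 5, 5), (25769951361, 2, 3), (34361835521, 3, 1)],
    [(17179877377, 4, 2), (2425504329, 2, 10)],
    [(67149841, 0, 5), (39263412809, 4, 4), (18322956561, 0, 3), (8589967361, 4, 4), (38654804097, 2, 1)],
    [(1209016833, 5, 4), (52346511945, 2, 1), (34359754753, 4, 3), (278020681, 2, 7), (34360067073, 2, 1)],
    [(39258694217, 4, 4), (36643676433, 4, 2), (51540148737, 2, 3), (536887297, 0, 6), (1342735361, 0, 8), (537199617, 0, 7)],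
    [(39196369481, 0, 2), (34361844737, 2, 2), (18331869457, 0, 3), (12884951073, 0, 10), (8589967425, 1, 4), (17179934721, 4, 5)],
    [(201400353, 0, 6), (17180401921, 2, 2), (17256030209, 3, 3), (538977281, 5, 2), (18323513617, 0, 11), (4295000065, 4, 4), (1074855937, 0, 9)],
    [(4299760201, 0, 11), (36643676497, 4, 10), (8661248001, 5, 3), (2688565249, 5, 3), (37182783761, 3, 9)],
    [(36643676437, 4, 6), (17180934209, 0, 3), (2147516417, 0, 8)],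
    [(2420123649, 5, 2), (34901402185, 0, 2), (39262888521, 4, 4), (8589942785, 4, 2), (8728363009, 5, 4), (34897675329, 4, 3), (1073774593, 0, 7)],
    [(52345987657, 2, 7), (1612728321, 2, 7), (2686484481, 0, 10), (17180131329, 3, 1)],
    [(34897141825, 4, 2), (806363649, 5, 2), (36643676501, 4, 10), (13023914081, 5, 2), (34359869441, 4, 6)],
    [(17448837185, 4, 2), (18331345169, 0, 3), (2283807745, 5, 4), (134234113, 0, 4)],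
    [(4294975489, 4, 2), (39263478273, 3, 3), (18322989329, 0, 7), (51539902977, 2, 1), (8590000129, 4, 5)],
    [(38654976129, 2, 2), (17716764681, 4, 6), (4364739665, 0, 5), (25769902209, 1, 5), (34360786945, 3, 1)],
    [(2147491841, 4, 2), (4431300609, 5, 4), (8725282881, 0, 10)],
    [(1073750017, 0, 7), (5368717317, 4, 3), (17448837189, 4, 8), (39263478337, 3, 3), (18331902225, 3, 1), (17457889345, 3, 1), (402800769, 0, 8), (17181966337, 3, 1)],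
    [(52345463369, 1, 8), (4295032833, 3, 1), (17179934977, 2, 1), (1611204609, 0, 8)],
    [(8590196737, 3, 1)],
    [(2147491845, 4, 3), (34897141833, 4, 8), (4433979489, 2, 9), (51541205577, 0, 4), (35166642761, 4, 10), (39259284041, 4, 10), (17179885569, 4, 3), (34360296449, 2, 4), (2147549185, 0, 8)],
    [(17448312837, 4, 5), (21819433025, 5, 3), (17718338121, 0, 11), (17449369601, 3, 5), (8729477185, 0, 5), (671367425, 0, 9), (268599553, 0, 9), (537428993, 0, 8), (4295032897, 0, 9), (1073807361, 0, 7)],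
    [(39263478281, 3, 6), (34360262657, 3, 1)],
    [(17179885633, 1, 3), (1343243265, 5, 3), (34897674305, 4, 3), (34897675281, 2, 6), (4299227137, 3, 1), (4295229441, 3, 1)],
    [(18331377937, 0, 7), (17449369665, 3, 1), (39195836481, 3, 1)],
    [(17448837441, 4, 2), (52344939081, 1, 7), (39263478345, 0, 0), (34361844817, 0, 2), (2147745793, 3, 1)],
    [(1614817281, 5, 2), (17448837381, 2, 5), (34897675345, 2, 1), (268468225, 0, 5), (4299227201, 2, 1)],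
    [(1082138625, 5, 2), (39258759753, 4, 7), (4366869065, 0, 5), (8724815937, 0, 10), (25770074241, 2, 2), (36507304001, 4, 8), (42949837057, 2, 1)],
    [(34493964293, 4, 4), (18253651985, 4, 7), (13091022881, 3, 6), (8589950977, 4, 3), (34900869185, 3, 1), (17180000257, 3, 1)],
    [(4362608705, 0, 3), (17448837445, 4, 3), (52346495561, 1, 2), (34968511049, 0, 8), (69771281, 2, 5), (268714241, 0, 9), (1208500737, 0, 10)],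
    [(67641345, 2, 3), (671621377, 0, 9)],
    [(36507361345, 2, 2), (4433389569, 5, 4), (17255374849, 5, 3), (71901769, 0, 5), (13091022945, 5, 2), (45235847441, 3, 1), (17456840769, 5, 7), (17180917761, 3, 1)],
    [(39262954057, 4, 7), (36643677253, 2, 4), (4294983681, 4, 3), (19336938057, 2, 1)],
    [(268443649, 0, 5), (17190519041, 2, 1)],
    [(4366803009, 0, 3), (18331771153, 5, 5), (2147500033, 4, 3), (17189454409, 2, 1), (34363932673, 3, 1)],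
    [(51809641033, 0, 5), (10737459217, 4, 5), (12889696353, 2, 2), (8796055649, 5, 8), (1073758209, 0, 7), (18253627409, 4, 7), (42949951745, 2, 3), (8728428609, 5, 7)],
    [(34897142337, 4, 2), (52345971273, 1, 2), (17986773577, 0, 11), (2685468673, 0, 9), (1074397185, 0, 8), (8590065665, 3, 1)],
    [(67117057, 0, 3), (38659498569, 0, 2), (8733204545, 5, 2), (269500417, 2, 5), (805847553, 0, 10)],
    [(335683649, 0, 7), (268968193, 0, 9), (4836631113, 0, 11), (17448321089, 4, 7), (34360804353, 2, 3), (134299713, 0, 7), (17188388865, 3, 1), (17180393473, 3, 1)],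
    [(604250241, 0, 8), (4571799553, 5, 5), (35433553953, 4, 7), (4501088353, 2, 9), (36645912849, 3, 1), (34897674321, 4, 9), (537936897, 5, 3), (8590983169, 3, 1)],
    [(269500481, 0, 9), (1077952513, 5, 3), (34359771137, 4, 4), (537429073, 0, 8), (4295098369, 3, 1)],
    [(4295008273, 4, 5), (1141383425, 5, 3), (34364531273, 0, 2), (51540664833, 2, 2), (21474918465, 2, 1), (536903681, 0, 6), (36507254849, 4, 8)],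
    [(134357057, 0, 7), (541663817, 0, 8), (10737434641, 4, 5), (21745401921, 3, 1), (51539804673, 2, 1), (2147614721, 0, 8)],
    [(402923649, 0, 8), (34493964613, 1, 4), (34896650257, 4, 6), (206121057, 2, 8), (1075871745, 3, 1), (37046222913, 3, 1), (1073872897, 0, 7)],
    [(34897142345, 1, 2), (36643677509, 2, 4), (8732680257, 5, 7), (42950205697, 2, 2), (8724684865, 0, 4), (9126813701, 4, 6)],
    [(34628198409, 4, 5), (21474975809, 2, 2), (18329805073, 5, 9), (2215649793, 5, 3), (2282767361, 5, 4), (34898739265, 3, 1), (2417002497, 0, 9), (2147614785, 0, 8)],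
    [(35433529377, 4, 7), (805601793, 0, 7), (17450434625, 3, 1), (8590458881, 3, 1)],
    [(34359746561, 4, 2), (19605373513, 2, 1), (52346503753, 2, 1)],
    [(536879105, 0, 6), (36643677269, 2, 8), (4294983697, 4, 5), (2157068873, 2, 10)],
    [(17457889865, 2, 1)],
    [(34359746625, 1, 2), (52078076489, 4, 4), (38654853249, 2, 3), (26182041729, 3, 1), (34896625681, 4, 6), (4295491585, 3, 1)],
    [(4362674241, 0, 9), (39263477761, 3, 3), (34629771849, 0, 5), (268451841, 0, 5), (17180033281, 2, 1), (34359803905, 4, 5)],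
    [(806904393, 0, 10), (1344283649, 5, 2), (4567613441, 5, 5), (536936449, 0, 6)],
    [(4364182529, 5, 3), (36643677457, 4, 2), (9663701001, 4, 4), (17449370121, 2, 5), (8590016577, 4, 7), (26182041793, 3, 1)],
    [(39263477825, 3, 3), (19327426593, 4, 8), (8733073473, 0, 4), (13091020833, 3, 6), (12956805217, 2, 3)],
    [(8725217345, 0, 4), (4565532673, 5, 5), (21474869313, 2, 1), (42949738753, 2, 1)],
    [(134225921, 0, 4), (6442475529, 4, 4), (2692751361, 5, 2), (4366868545, 2, 3), (38726607433, 0, 5), (36643677521, 4, 2), (17449370185, 0, 5), (2418034689, 5, 5), (17179901953, 4, 4), (34360000513, 3, 1)],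
    [(4903739977, 0, 11), (18323480849, 0, 11), (36643677461, 4, 6), (8590073921, 2, 2), (13091022849, 3, 5), (13091020897, 0, 11)],
    [(8732549121, 5, 4), (43621294405, 4, 4), (8661837921, 2, 3)],
    [(39263477769, 3, 6), (39259218505, 4, 4), (34899272785, 2, 2), (17180147969, 2, 3)]]

/-- a certificate -/
def ce0 : Cer := ⟨512, 1024, 2048, 3, [
    (10, []),
    (11, [.sm 1 [10] [11],
      .md 1 [10] [11]]),
    (9, [])], [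
    ]⟩

/-- a certificate -/
def ce1 : Cer := ⟨256, 512, 2048, 3, [
    (9, []),
    (8, [.sm 0 [8] [9],
      .md 0 [8] [9]]),
    (11, [])], [
    ]⟩

/-- a certificate -/
def ce2 : Cer := ⟨128, 256, 2048, 3, [
    (7, []),
    (8, [.sm 0 [7] [8],
      .md 0 [7] [8]]),
    (11, [])], [
    ]⟩

/-- a certificate -/
def ce3 : Cer := ⟨2176, 1280, 512, 5, [
    (8, [.bd 1 [8] [10] 4]),
    (10, [.bd 1 [8, 10] [] 5,
      .eq 0 7 11 1 [8] [10]]),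
    (7, [.bd 0 [7] [11] 4]),
    (11, [.bd 0 [7, 11] [] 5,
      .eq 1 8 10 1 [11] [7],
      .sm 0 [7, 11] [8, 10]]),
    (9, [.sm 1 [8, 10] [9]])], [
    ([0, 6, 7, 8, 9, 1], [0, 0, 0, 0, 0, 0, 0, 1, 1, 2, 1, 1]),
    ([0, 6, 7, 8, 9, 2], [0, 0, 0, 0, 0, 0, 0, 2, 2, 4, 2, 2])]⟩

/-- a certificate -/
def ce4 : Cer := ⟨256, 1024, 2048, 3, [
    (10, []),
    (8, [.sm 0 [8] [10],
      .md 0 [8] [10]]),
    (11, [])], [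
    ]⟩

/-- a certificate -/
def ce5 : Cer := ⟨260, 1040, 2080, 6, [
    (8, [.bd 0 [8] [2] 5]),
    (2, [.bd 0 [2, 8] [] 6,
      .eq 1 4 10 2 [8] [2]]),
    (10, [.bd 1 [10] [4] 5]),
    (4, [.bd 1 [4, 10] [] 6,
      .eq 0 2 8 2 [4] [10],
      .sm 0 [2, 8] [4, 10],
      .md 0 [2, 8] [4, 10]]),
    (5, [.bd 2 [5] [11] 5]),
    (11, [.bd 2 [5, 11] [] 6,
      .eq 1 4 10 1 [5] [11],
      .sm 1 [4, 10] [5, 11],
      .md 1 [4, 10] [5, 11]])], [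
    ]⟩

/-- a certificate -/
def ce6 : Cer := ⟨260, 1104, 2080, 7, [
    (4, [.bd 1 [4] [6, 10] 5]),
    (6, [.bd 1 [4, 6] [10] 6]),
    (10, [.bd 1 [4, 6, 10] [] 7,
      .eq 0 2 8 2 [4] [6, 10],
      .eq 2 5 11 1 [10] [4, 6]]),
    (5, []),
    (8, []),
    (2, []),
    (11, [])], [
    ]⟩

/-- a certificate -/
def ce7 : Cer := ⟨2052, 528, 288, 6, [
    (9, [.bd 1 [9] [4] 5]),
    (4, [.bd 1 [4, 9] [] 6,
      .eq 0 2 11 2 [4] [9]]),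
    (5, [.bd 2 [5] [8] 5]),
    (8, [.bd 2 [5, 8] [] 6,
      .eq 0 2 11 3 [8] [5],
      .sm 1 [4, 9] [5, 8]]),
    (2, [.bd 0 [2] [11] 5]),
    (11, [.bd 0 [2, 11] [] 6,
      .eq 1 4 9 2 [11] [2],
      .sm 0 [2, 11] [4, 9]])], [
    ([0, 1, 2, 4, 5, 1], [0, 0, 1, 0, 1, 1, 0, 0, 1, 1, 0, 1]),
    ([0, 1, 2, 4, 5, 2], [0, 0, 2, 0, 2, 2, 0, 0, 2, 2, 0, 2]),
    ([0, 1, 2, 4, 5, 3], [0, 0, 3, 0, 3, 3, 0, 0, 3, 3, 0, 3])]⟩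

/-- a certificate -/
def ce8 : Cer := ⟨8, 2176, 1280, 5, [
    (11, [.bd 1 [11] [7] 4]),
    (7, [.bd 1 [7, 11] [] 5,
      .eq 2 8 10 1 [11] [7]]),
    (3, [.sm 0 [3] [7, 11]]),
    (10, [.bd 2 [10] [8] 4]),
    (8, [.bd 2 [8, 10] [] 5,
      .eq 1 7 11 1 [8] [10],
      .sm 1 [7, 11] [8, 10]])], [
    ([0, 6, 3, 7, 8, 1], [0, 0, 0, 2, 0, 0, 0, 1, 1, 0, 1, 1]),
    ([0, 6, 3, 7, 8, 2], [0, 0, 0, 4, 0, 0, 0, 2, 2, 0, 2, 2])]⟩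

/-- a certificate -/
def ce9 : Cer := ⟨520, 1040, 2080, 6, [
    (4, [.bd 1 [4] [10] 5]),
    (10, [.bd 1 [4, 10] [] 6,
      .eq 0 3 9 1 [4] [10]]),
    (5, [.bd 2 [5] [11] 5]),
    (11, [.bd 2 [5, 11] [] 6,
      .eq 0 3 9 2 [11] [5],
      .sm 1 [4, 10] [5, 11],
      .md 1 [4, 10] [5, 11]]),
    (3, []),
    (9, [])], [
    ]⟩

/-- a certificate -/
def ce10 : Cer := ⟨2056, 1040, 544, 6, [
    (11, [.bd 0 [11] [3] 5]),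
    (3, [.bd 0 [3, 11] [] 6,
      .eq 2 5 9 2 [3] [11]]),
    (4, [.bd 1 [4] [10] 5]),
    (10, [.bd 1 [4, 10] [] 6,
      .eq 0 3 11 1 [4] [10],
      .sm 0 [3, 11] [4, 10]]),
    (9, [.bd 2 [9] [5] 5]),
    (5, [.bd 2 [5, 9] [] 6,
      .eq 0 3 11 2 [9] [5],
      .sm 1 [4, 10] [5, 9]])], [
    ([0, 2, 3, 4, 5, 1], [0, 0, 0, 1, 1, 1, 0, 0, 0, 1, 1, 1]),
    ([0, 2, 3, 4, 5, 2], [0, 0, 0, 2, 2, 2, 0, 0, 0, 2, 2, 2]),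
    ([0, 2, 3, 4, 5, 3], [0, 0, 0, 3, 3, 3, 0, 0, 0, 3, 3, 3])]⟩

/-- a certificate -/
def ce11 : Cer := ⟨520, 1168, 2080, 7, [
    (11, [.bd 2 [11] [5] 6]),
    (3, [.bd 0 [3] [9] 6,
      .eq 1 4 7 4 [3] [11]]),
    (9, [.bd 0 [3, 9] [] 7,
      .eq 1 4 7 5 [11] [9]]),
    (7, [.bd 1 [7] [4, 10] 5,
      .eq 2 5 11 2 [3] [7, 9]]),
    (5, []),
    (10, []),
    (4, [])], [
    ]⟩

/-- a certificate -/
def ce12 : Cer := ⟨2056, 1040, 128, 5, [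
    (11, [.bd 0 [11] [3] 4]),
    (3, [.bd 0 [3, 11] [] 5,
      .eq 1 4 10 1 [11] [3]]),
    (7, [.sm 2 [7] [3, 11]]),
    (10, [.bd 1 [10] [4] 4]),
    (4, [.bd 1 [4, 10] [] 5,
      .eq 0 3 11 1 [4] [10],
      .sm 0 [3, 11] [4, 10]])], [
    ([0, 2, 3, 4, 7, 1], [0, 0, 0, 1, 1, 0, 0, 2, 0, 0, 1, 1]),
    ([0, 2, 3, 4, 7, 2], [0, 0, 0, 2, 2, 0, 0, 4, 0, 0, 2, 2])]⟩

/-- a certificate -/
def ce13 : Cer := ⟨2056, 1040, 320, 6, [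
    (8, [.bd 2 [8] [6] 5]),
    (6, [.bd 2 [6, 8] [] 6,
      .eq 0 3 11 3 [8] [6]]),
    (11, [.bd 0 [11] [3] 5]),
    (3, [.bd 0 [3, 11] [] 6,
      .eq 1 4 10 1 [11] [3],
      .sm 2 [6, 8] [3, 11]]),
    (4, [.bd 1 [4] [10] 5]),
    (10, [.bd 1 [4, 10] [] 6,
      .eq 0 3 11 1 [4] [10],
      .sm 0 [3, 11] [4, 10]])], [
    ([0, 2, 3, 4, 6, 1], [0, 0, 0, 1, 1, 0, 1, 0, 1, 0, 1, 1]),
    ([0, 2, 3, 4, 6, 2], [0, 0, 0, 2, 2, 0, 2, 0, 2, 0, 2, 2]),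
    ([0, 2, 3, 4, 6, 3], [0, 0, 0, 3, 3, 0, 3, 0, 3, 0, 3, 3])]⟩

/-- a certificate -/
def ce14 : Cer := ⟨2056, 320, 128, 5, [
    (8, [.bd 1 [8] [6] 4]),
    (6, [.bd 1 [6, 8] [] 5,
      .eq 0 3 11 3 [6] [8]]),
    (7, [.sm 1 [6, 8] [7]]),
    (11, [.bd 0 [11] [3] 4]),
    (3, [.bd 0 [3, 11] [] 5,
      .eq 1 6 8 3 [11] [3],
      .sm 0 [3, 11] [6, 8]])], [
    ([0, 2, 3, 6, 7, 1], [0, 0, 0, 1, 0, 0, 1, 2, 1, 0, 0, 1]),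
    ([0, 2, 3, 6, 7, 2], [0, 0, 0, 2, 0, 0, 2, 4, 2, 0, 0, 2])]⟩

/-- a certificate -/
def ce15 : Cer := ⟨1170, 2340, 584, 11, [
    (8, [.bd 1 [8] [2, 5, 11] 8]),
    (2, [.bd 1 [2, 8] [5, 11] 9]),
    (6, [.bd 2 [6] [3, 9] 9,
      .eq 0 1 7 1 [2, 6] [8],
      .eq 0 4 10 2 [2] [6, 8]]),
    (7, []),
    (4, []),
    (11, []),
    (10, []),
    (1, []),
    (3, []),
    (5, []),
    (9, [])], [
    ]⟩

/-- a certificate -/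
def ce16 : Cer := ⟨2064, 1056, 576, 6, [
    (5, [.bd 1 [5] [10] 5]),
    (10, [.bd 1 [5, 10] [] 6,
      .eq 0 4 11 1 [5] [10]]),
    (4, [.bd 0 [4] [11] 5]),
    (11, [.bd 0 [4, 11] [] 6,
      .eq 1 5 10 6 [4] [11],
      .sm 0 [4, 11] [5, 10]]),
    (9, [.bd 2 [9] [6] 5]),
    (6, [.bd 2 [6, 9] [] 6,
      .eq 0 4 11 2 [9] [6],
      .sm 1 [5, 10] [6, 9]])], [
    ([0, 3, 4, 5, 6, 1], [0, 0, 0, 0, 1, 1, 1, 0, 0, 1, 1, 1]),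
    ([0, 3, 4, 5, 6, 2], [0, 0, 0, 0, 2, 2, 2, 0, 0, 2, 2, 2]),
    ([0, 3, 4, 5, 6, 3], [0, 0, 0, 0, 3, 3, 3, 0, 0, 3, 3, 3])]⟩

/-- a certificate -/
def ce17 : Cer := ⟨2064, 1056, 384, 6, [
    (7, [.bd 2 [7] [8] 5]),
    (8, [.bd 2 [7, 8] [] 6,
      .eq 0 4 11 3 [8] [7]]),
    (4, [.bd 0 [4] [11] 5]),
    (11, [.bd 0 [4, 11] [] 6,
      .eq 1 5 10 1 [11] [4],
      .sm 2 [7, 8] [4, 11]]),
    (5, [.bd 1 [5] [10] 5]),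
    (10, [.bd 1 [5, 10] [] 6,
      .eq 0 4 11 1 [5] [10],
      .sm 0 [4, 11] [5, 10]])], [
    ([0, 3, 4, 5, 7, 1], [0, 0, 0, 0, 1, 1, 0, 1, 1, 0, 1, 1]),
    ([0, 3, 4, 5, 7, 2], [0, 0, 0, 0, 2, 2, 0, 2, 2, 0, 2, 2]),
    ([0, 3, 4, 5, 7, 3], [0, 0, 0, 0, 3, 3, 0, 3, 3, 0, 3, 3])]⟩

/-- a certificate -/
def ce18 : Cer := ⟨1040, 512, 2048, 4, [
    (11, []),
    (9, [.eq 0 4 10 1 [11] [9],
      .md 1 [9] [11]]),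
    (10, []),
    (4, [])], [
    ]⟩

/-- a certificate -/
def ce19 : Cer := ⟨16, 2560, 1024, 4, [
    (4, []),
    (10, [.sm 2 [10] [4],
      .md 2 [10] [4]]),
    (11, [.bd 1 [11] [9] 3]),
    (9, [.bd 1 [9, 11] [] 4,
      .sm 0 [4] [9, 11],
      .md 0 [4] [9, 11]])], [
    ([0, 8, 4, 9, 10, 1], [0, 0, 0, 0, 2, 0, 0, 0, 0, 1, 2, 1]),
    ([0, 8, 4, 9, 10, 2], [0, 0, 0, 0, 4, 0, 0, 0, 0, 2, 4, 2])]⟩

/-- a certificate -/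
def ce20 : Cer := ⟨1300, 2176, 512, 7, [
    (7, [.bd 1 [7] [11] 6]),
    (11, [.bd 1 [7, 11] [] 7,
      .eq 0 2 4 3 [11] [7]]),
    (9, [.eq 0 2 8 1 [9] [7],
      .sm 1 [7, 11] [9]]),
    (4, []),
    (10, []),
    (8, []),
    (2, [])], [
    ]⟩

/-- a certificate -/
def ce21 : Cer := ⟨1170, 520, 2080, 8, [
    (3, [.bd 1 [3] [9] 7]),
    (5, [.bd 2 [5] [11] 7,
      .eq 0 1 4 1 [5] [3]]),
    (9, [.bd 1 [3, 9] [] 8,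
      .eq 0 1 4 4 [9] [5]]),
    (11, [.bd 2 [5, 11] [] 8,
      .eq 0 1 4 2 [3] [11],
      .md 1 [3, 9] [5, 11]]),
    (7, [.bd 0 [7] [1, 4, 10] 5]),
    (1, [.bd 0 [1, 7] [4, 10] 6,
      .eq 1 3 9 2 [5, 7] [1, 11]]),
    (4, [.bd 0 [1, 4, 7] [10] 7]),
    (10, [.bd 0 [1, 4, 7, 10] [] 8,
      .eq 1 3 9 1 [10] [4],
      .sm 0 [1, 4, 7, 10] [3, 9],
      .md 0 [1, 4, 7, 10] [3, 9]])], [
    ([1, 3, 4, 11], [0, 1, 0, 3, 2, 3, 0, 1, 0, 3, 2, 3])]⟩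

/-- a certificate -/
def ce22 : Cer := ⟨2064, 576, 384, 6, [
    (6, [.bd 1 [6] [9] 5]),
    (9, [.bd 1 [6, 9] [] 6,
      .eq 0 4 11 2 [6] [9]]),
    (7, [.bd 2 [7] [8] 5]),
    (8, [.bd 2 [7, 8] [] 6,
      .eq 0 4 11 3 [8] [7],
      .sm 1 [6, 9] [7, 8]]),
    (11, [.bd 0 [11] [4] 5]),
    (4, [.bd 0 [4, 11] [] 6,
      .eq 1 6 9 2 [8, 11] [4, 7],
      .sm 0 [4, 11] [6, 9]])], [
    ([0, 3, 4, 6, 7, 1], [0, 0, 0, 0, 1, 0, 1, 1, 1, 1, 0, 1]),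
    ([0, 3, 4, 6, 7, 2], [0, 0, 0, 0, 2, 0, 2, 2, 2, 2, 0, 2]),
    ([0, 3, 4, 6, 7, 3], [0, 0, 0, 0, 3, 0, 3, 3, 3, 3, 0, 3])]⟩

/-- a certificate -/
def ce23 : Cer := ⟨1170, 780, 2112, 10, [
    (7, [.bd 0 [7] [1, 4, 10] 7]),
    (4, [.bd 0 [4, 7] [1, 10] 8,
      .eq 1 2 9 5 [4] [7]]),
    (11, [.bd 2 [11] [6] 9,
      .eq 1 2 9 2 [7] [4, 11]]),
    (8, []),
    (6, []),
    (10, []),
    (3, []),
    (9, []),
    (1, []),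
    (2, [])], [
    ]⟩

/-- a certificate -/
def ce24 : Cer := ⟨24, 2304, 1536, 6, [
    (11, [.bd 1 [11] [8] 5]),
    (8, [.bd 1 [8, 11] [] 6,
      .eq 0 3 4 4 [11] [8]]),
    (3, [.bd 0 [3] [4] 5]),
    (4, [.bd 0 [3, 4] [] 6,
      .eq 1 8 11 4 [3] [4],
      .sm 0 [3, 4] [8, 11]]),
    (9, [.bd 2 [9] [10] 5]),
    (10, [.bd 2 [9, 10] [] 6,
      .eq 0 3 4 5 [8, 9] [10, 11],
      .sm 1 [8, 11] [9, 10]])], [
    ([0, 7, 3, 8, 9, 1], [0, 0, 0, 1, 1, 0, 0, 0, 1, 1, 1, 1]),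
    ([0, 7, 3, 8, 9, 2], [0, 0, 0, 2, 2, 0, 0, 0, 2, 2, 2, 2]),
    ([0, 7, 3, 8, 9, 3], [0, 0, 0, 3, 3, 0, 0, 0, 3, 3, 3, 3])]⟩

/-- a certificate -/
def ce25 : Cer := ⟨1170, 780, 2144, 11, [
    (7, [.bd 0 [7] [1, 4, 10] 8]),
    (4, [.bd 0 [4, 7] [1, 10] 9,
      .eq 1 2 9 5 [4] [7]]),
    (11, [.bd 2 [11] [5, 6] 9,
      .eq 1 2 9 2 [7] [4, 11]]),
    (1, []),
    (8, []),
    (5, []),
    (6, []),
    (10, []),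
    (2, []),
    (3, []),
    (9, [])], [
    ]⟩

/-- a certificate -/
def ce26 : Cer := ⟨1170, 2340, 512, 9, [
    (2, [.bd 1 [2] [5, 8, 11] 6]),
    (11, [.bd 1 [2, 11] [5, 8] 7,
      .eq 0 1 4 2 [11] [2]]),
    (9, [.eq 0 1 10 1 [2, 9] [11]]),
    (5, []),
    (10, []),
    (4, []),
    (7, []),
    (1, []),
    (8, [])], [
    ]⟩

/-- a certificate -/
def ce27 : Cer := ⟨1170, 2340, 520, 10, [
    (2, [.bd 1 [2] [5, 8, 11] 7]),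
    (8, [.bd 1 [2, 8] [5, 11] 8,
      .eq 0 1 7 1 [2] [8]]),
    (11, [.bd 1 [2, 8, 11] [5] 9]),
    (9, [.bd 2 [9] [3] 9,
      .eq 0 1 4 5 [8, 9] [11]]),
    (5, [.bd 1 [2, 5, 8, 11] [] 10,
      .eq 0 1 4 4 [5] [8, 9]]),
    (3, [.bd 2 [3, 9] [] 10,
      .eq 0 1 4 1 [2, 3] [5],
      .sm 1 [2, 5, 8, 11] [3, 9]]),
    (4, []),
    (1, []),
    (7, []),
    (10, [])], [
    ]⟩

/-- a certificate -/
def ce28 : Cer := ⟨20, 2176, 1280, 6, [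
    (8, [.bd 2 [8] [10] 5]),
    (10, [.bd 2 [8, 10] [] 6,
      .eq 0 2 4 4 [8] [10]]),
    (4, [.bd 0 [4] [2] 5]),
    (2, [.bd 0 [2, 4] [] 6,
      .eq 1 7 11 3 [2, 10] [4, 8],
      .sm 2 [8, 10] [2, 4]]),
    (11, [.bd 1 [11] [7] 5]),
    (7, [.bd 1 [7, 11] [] 6,
      .eq 0 2 4 3 [11] [7],
      .sm 0 [2, 4] [7, 11]])], [
    ([0, 6, 2, 7, 8, 1], [0, 0, 1, 0, 1, 0, 0, 1, 1, 0, 1, 1]),
    ([0, 6, 2, 7, 8, 2], [0, 0, 2, 0, 2, 0, 0, 2, 2, 0, 2, 2]),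
    ([0, 6, 2, 7, 8, 3], [0, 0, 3, 0, 3, 0, 0, 3, 3, 0, 3, 3])]⟩

/-- a certificate -/
def ce29 : Cer := ⟨260, 648, 2080, 7, [
    (7, [.bd 1 [7] [3, 9] 5]),
    (3, [.bd 1 [3, 7] [9] 6]),
    (9, [.bd 1 [3, 7, 9] [] 7,
      .eq 0 2 8 1 [3] [7, 9],
      .eq 2 5 11 2 [9] [3, 7]]),
    (11, []),
    (8, []),
    (2, []),
    (5, [])], [
    ]⟩

/-- a certificate -/
def ce30 : Cer := ⟨128, 1024, 2048, 3, [
    (7, []),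
    (11, [.sm 2 [11] [7],
      .md 2 [11] [7]]),
    (10, [.sm 0 [7] [10],
      .md 0 [7] [10]])], [
    ]⟩

/-- a certificate -/
def ce31 : Cer := ⟨260, 520, 2080, 6, [
    (2, [.bd 0 [2] [8] 5]),
    (8, [.bd 0 [2, 8] [] 6,
      .eq 1 3 9 1 [8] [2]]),
    (5, [.bd 2 [5] [11] 5]),
    (11, [.bd 2 [5, 11] [] 6,
      .eq 1 3 9 2 [5] [11],
      .sm 2 [5, 11] [2, 8],
      .md 2 [5, 11] [2, 8]]),
    (3, [.bd 1 [3] [9] 5]),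
    (9, [.bd 1 [3, 9] [] 6,
      .eq 0 2 8 1 [3] [9],
      .sm 0 [2, 8] [3, 9],
      .md 0 [2, 8] [3, 9]])], [
    ]⟩

/-- a certificate -/
def ce32 : Cer := ⟨2080, 1088, 256, 5, [
    (6, [.bd 1 [6] [10] 4]),
    (10, [.bd 1 [6, 10] [] 5,
      .eq 0 5 11 1 [6] [10]]),
    (8, [.sm 1 [6, 10] [8]]),
    (11, [.bd 0 [11] [5] 4]),
    (5, [.bd 0 [5, 11] [] 5,
      .eq 1 6 10 1 [11] [5],
      .sm 0 [5, 11] [6, 10]])], [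
    ([0, 4, 5, 6, 8, 1], [0, 0, 0, 0, 0, 1, 1, 0, 2, 0, 1, 1]),
    ([0, 4, 5, 6, 8, 2], [0, 0, 0, 0, 0, 2, 2, 0, 4, 0, 2, 2])]⟩

/-- a certificate -/
def ce33 : Cer := ⟨2080, 1088, 640, 6, [
    (7, [.bd 2 [7] [9] 5]),
    (9, [.bd 2 [7, 9] [] 6,
      .eq 0 5 11 2 [9] [7]]),
    (11, [.bd 0 [11] [5] 5]),
    (5, [.bd 0 [5, 11] [] 6,
      .eq 1 6 10 1 [7, 11] [5, 9],
      .sm 2 [7, 9] [5, 11]]),
    (10, [.bd 1 [10] [6] 5]),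
    (6, [.bd 1 [6, 10] [] 6,
      .eq 0 5 11 1 [6] [10],
      .sm 0 [5, 11] [6, 10]])], [
    ([0, 4, 5, 6, 7, 1], [0, 0, 0, 0, 0, 1, 1, 1, 0, 1, 1, 1]),
    ([0, 4, 5, 6, 7, 2], [0, 0, 0, 0, 0, 2, 2, 2, 0, 2, 2, 2]),
    ([0, 4, 5, 6, 7, 3], [0, 0, 0, 0, 0, 3, 3, 3, 0, 3, 3, 3])]⟩

/-- a certificate -/
def ce34 : Cer := ⟨32, 64, 2048, 3, [
    (5, []),
    (11, [.sm 2 [11] [5],
      .md 2 [11] [5]]),
    (6, [.sm 0 [5] [6],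
      .md 0 [5] [6]])], [
    ]⟩

/-- a certificate -/
def ce35 : Cer := ⟨32, 1024, 2048, 3, [
    (5, []),
    (11, [.sm 2 [11] [5],
      .md 2 [11] [5]]),
    (10, [.sm 0 [5] [10],
      .md 0 [5] [10]])], [
    ]⟩

/-- a certificate -/
def ce36 : Cer := ⟨36, 2304, 1536, 6, [
    (8, [.bd 1 [8] [11] 5]),
    (11, [.bd 1 [8, 11] [] 6,
      .eq 0 2 5 3 [11] [8]]),
    (9, [.bd 2 [9] [10] 5]),
    (10, [.bd 2 [9, 10] [] 6,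
      .eq 0 2 5 4 [9] [10],
      .sm 1 [8, 11] [9, 10]]),
    (5, [.bd 0 [5] [2] 5]),
    (2, [.bd 0 [2, 5] [] 6,
      .eq 1 8 11 3 [2] [5],
      .sm 0 [2, 5] [8, 11]])], [
    ([0, 7, 2, 8, 9, 1], [0, 0, 1, 0, 0, 1, 0, 0, 1, 1, 1, 1]),
    ([0, 7, 2, 8, 9, 2], [0, 0, 2, 0, 0, 2, 0, 0, 2, 2, 2, 2]),
    ([0, 7, 2, 8, 9, 3], [0, 0, 3, 0, 0, 3, 0, 0, 3, 3, 3, 3])]⟩

/-- a certificate -/
def ce37 : Cer := ⟨2340, 1560, 192, 10, [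
    (2, [.bd 0 [2] [5, 8, 11] 7]),
    (5, [.bd 0 [2, 5] [8, 11] 8,
      .eq 1 3 4 1 [5] [2]]),
    (6, [.bd 2 [6] [7] 9,
      .eq 1 3 4 2 [2] [5, 6]]),
    (4, []),
    (10, []),
    (3, []),
    (7, []),
    (9, []),
    (11, []),
    (8, [])], [
    ]⟩

/-- a certificate -/
def ce38 : Cer := ⟨2080, 640, 256, 5, [
    (9, [.bd 1 [9] [7] 4]),
    (7, [.bd 1 [7, 9] [] 5,
      .eq 0 5 11 2 [7] [9]]),
    (11, [.bd 0 [11] [5] 4]),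
    (5, [.bd 0 [5, 11] [] 5,
      .eq 1 7 9 2 [11] [5],
      .sm 0 [5, 11] [7, 9]]),
    (8, [.sm 1 [7, 9] [8]])], [
    ([0, 4, 5, 7, 8, 1], [0, 0, 0, 0, 0, 1, 0, 1, 2, 1, 0, 1]),
    ([0, 4, 5, 7, 8, 2], [0, 0, 0, 0, 0, 2, 0, 2, 4, 2, 0, 2])]⟩

/-- a certificate -/
def ce39 : Cer := ⟨546, 1348, 2184, 10, [
    (6, [.bd 1 [6] [2, 8, 10] 7]),
    (2, [.bd 1 [2, 6] [8, 10] 8,
      .eq 0 1 5 1 [2] [6]]),
    (8, [.bd 1 [2, 6, 8] [10] 9,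
      .eq 0 1 9 5 [6, 8] [2]]),
    (5, []),
    (9, []),
    (3, []),
    (10, []),
    (1, []),
    (7, []),
    (11, [])], [
    ]⟩

/-- a certificate -/
def ce40 : Cer := ⟨40, 2560, 1024, 5, [
    (3, [.bd 0 [3] [5] 4]),
    (5, [.bd 0 [3, 5] [] 5,
      .eq 1 9 11 4 [3] [5]]),
    (11, [.bd 1 [11] [9] 4]),
    (9, [.bd 1 [9, 11] [] 5,
      .eq 0 3 5 4 [11] [9],
      .sm 0 [3, 5] [9, 11]]),
    (10, [.sm 1 [9, 11] [10]])], [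
    ([0, 8, 3, 9, 10, 1], [0, 0, 0, 1, 0, 1, 0, 0, 0, 1, 2, 1]),
    ([0, 8, 3, 9, 10, 2], [0, 0, 0, 2, 0, 2, 0, 0, 0, 2, 4, 2])]⟩

/-- a certificate -/
def ce41 : Cer := ⟨546, 1364, 2184, 11, [
    (4, [.bd 1 [4] [2, 6, 8, 10] 7]),
    (6, [.bd 1 [4, 6] [2, 8, 10] 8]),
    (10, [.bd 1 [4, 6, 10] [2, 8] 9,
      .eq 0 1 9 3 [4, 10] [6]]),
    (2, [.bd 1 [2, 4, 6, 10] [8] 10,
      .eq 0 1 5 1 [2] [4, 6],
      .eq 2 3 11 1 [10] [2, 4]]),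
    (11, []),
    (3, []),
    (5, []),
    (1, []),
    (7, []),
    (8, []),
    (9, [])], [
    ]⟩

/-- a certificate -/
def ce42 : Cer := ⟨2210, 1300, 520, 10, [
    (7, [.bd 0 [7] [1, 5, 11] 7]),
    (11, [.bd 0 [7, 11] [1, 5] 8,
      .eq 1 2 4 5 [11] [7]]),
    (5, [.bd 0 [5, 7, 11] [1] 9]),
    (1, [.bd 0 [1, 5, 7, 11] [] 10,
      .eq 1 2 4 1 [5] [1],
      .eq 2 3 9 2 [1, 5] [7, 11]]),
    (3, [.bd 2 [3] [9] 9]),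
    (9, [.bd 2 [3, 9] [] 10,
      .eq 0 1 7 2 [9] [3],
      .sm 2 [3, 9] [1, 5, 7, 11]]),
    (2, [.bd 1 [2] [4, 8, 10] 7]),
    (8, [.bd 1 [2, 8] [4, 10] 8,
      .eq 0 1 7 1 [2] [8]]),
    (10, [.bd 1 [2, 8, 10] [4] 9,
      .eq 0 1 5 5 [8] [10]]),
    (4, [.bd 1 [2, 4, 8, 10] [] 10,
      .eq 0 1 5 1 [2] [4],
      .sm 0 [1, 5, 7, 11] [2, 4, 8, 10]])], [
    ([1, 1, 5, 5], [0, 1, 1, 2, 1, 1, 0, 1, 1, 2, 1, 1]),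
    ([1, 1, 5, 14], [0, 2, 2, 4, 2, 2, 0, 2, 2, 4, 2, 2])]⟩

/-- a certificate -/
def ce43 : Cer := ⟨546, 1092, 2184, 9, [
    (6, [.bd 1 [6] [2, 10] 7]),
    (2, [.bd 1 [2, 6] [10] 8,
      .eq 0 1 5 1 [2] [6]]),
    (10, [.bd 1 [2, 6, 10] [] 9,
      .eq 0 1 5 3 [10] [2]]),
    (3, [.bd 2 [3] [7, 11] 7]),
    (7, [.bd 2 [3, 7] [11] 8,
      .eq 0 1 9 2 [7] [3]]),
    (11, [.bd 2 [3, 7, 11] [] 9,
      .eq 0 1 5 2 [7] [11],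
      .sm 1 [2, 6, 10] [3, 7, 11],
      .md 1 [2, 6, 10] [3, 7, 11]]),
    (9, []),
    (1, []),
    (5, [])], [
    ]⟩

/-- a certificate -/
def ce44 : Cer := ⟨32, 512, 2048, 3, [
    (5, []),
    (9, [.sm 0 [5] [9],
      .md 0 [5] [9]]),
    (11, [.sm 1 [9] [11],
      .md 1 [9] [11]])], [
    ]⟩

/-- a certificate -/
def ce45 : Cer := ⟨8, 2176, 512, 4, [
    (3, []),
    (9, [.sm 2 [9] [3],
      .md 2 [9] [3]]),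
    (11, [.bd 1 [11] [7] 3]),
    (7, [.bd 1 [7, 11] [] 4,
      .sm 0 [3] [7, 11],
      .md 0 [3] [7, 11]])], [
    ([0, 6, 3, 7, 9, 1], [0, 0, 0, 2, 0, 0, 0, 1, 0, 2, 0, 1]),
    ([0, 6, 3, 7, 9, 2], [0, 0, 0, 4, 0, 0, 0, 2, 0, 4, 0, 2])]⟩

/-- a certificate -/
def ce46 : Cer := ⟨32, 128, 2048, 3, [
    (7, []),
    (5, [.sm 0 [5] [7],
      .md 0 [5] [7]]),
    (11, [])], [
    ]⟩

/-- a certificate -/
def ce47 : Cer := ⟨32, 256, 2048, 3, [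
    (11, []),
    (8, [.sm 1 [8] [11],
      .md 1 [8] [11]]),
    (5, [])], [
    ]⟩

/-- a certificate -/
def ce48 : Cer := ⟨8, 128, 2048, 3, [
    (7, []),
    (11, [.sm 1 [7] [11],
      .md 1 [7] [11]]),
    (3, [.sm 0 [3] [7]])], [
    ([1, 7, 1, 0], [0, 0, 0, 3, 0, 0, 0, 3, 0, 0, 0, 3])]⟩

/-- a certificate -/
def ce49 : Cer := ⟨10, 2080, 640, 6, [
    (7, [.bd 2 [7] [9] 5]),
    (9, [.bd 2 [7, 9] [] 6,
      .eq 0 1 3 6 [9] [7]]),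
    (5, [.bd 1 [5] [11] 5]),
    (11, [.bd 1 [5, 11] [] 6,
      .eq 0 1 3 2 [11] [5],
      .sm 1 [5, 11] [7, 9]]),
    (3, [.bd 0 [3] [1] 5]),
    (1, [.bd 0 [1, 3] [] 6,
      .eq 1 5 11 2 [1, 7] [3, 9],
      .sm 0 [1, 3] [5, 11]])], [
    ([0, 4, 1, 5, 7, 1], [0, 1, 0, 1, 0, 1, 0, 1, 0, 1, 0, 1]),
    ([0, 4, 1, 5, 7, 2], [0, 2, 0, 2, 0, 2, 0, 2, 0, 2, 0, 2]),
    ([0, 4, 1, 5, 7, 3], [0, 3, 0, 3, 0, 3, 0, 3, 0, 3, 0, 3])]⟩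

/-- a certificate -/
def ce50 : Cer := ⟨520, 128, 2048, 4, [
    (7, []),
    (11, [.eq 0 3 9 2 [11] [7],
      .md 1 [7] [11]]),
    (3, [.bd 0 [3] [9] 3]),
    (9, [.bd 0 [3, 9] [] 4,
      .sm 0 [3, 9] [7],
      .md 0 [3, 9] [7]])], [
    ([1, 7, 4, 2], [0, 0, 0, 1, 0, 0, 0, 3, 0, 2, 0, 3])]⟩

/-- a certificate -/
def ce51 : Cer := ⟨520, 2080, 128, 5, [
    (3, [.bd 0 [3] [9] 4]),
    (9, [.bd 0 [3, 9] [] 5]),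
    (7, [.eq 1 5 11 2 [7, 9] [3],
      .sm 2 [7] [3, 9]]),
    (5, []),
    (11, [])], [
    ]⟩

/-- a certificate -/
def ce52 : Cer := ⟨12, 2112, 1152, 6, [
    (6, [.bd 1 [6] [11] 5]),
    (11, [.bd 1 [6, 11] [] 6,
      .eq 0 2 3 3 [11] [6]]),
    (10, [.bd 2 [10] [7] 5]),
    (7, [.bd 2 [7, 10] [] 6,
      .eq 0 2 3 4 [6, 7] [10, 11],
      .sm 1 [6, 11] [7, 10]]),
    (2, [.bd 0 [2] [3] 5]),
    (3, [.bd 0 [2, 3] [] 6,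
      .eq 1 6 11 3 [2] [3],
      .sm 0 [2, 3] [6, 11]])], [
    ([0, 5, 2, 6, 7, 1], [0, 0, 1, 1, 0, 0, 1, 1, 0, 0, 1, 1]),
    ([0, 5, 2, 6, 7, 2], [0, 0, 2, 2, 0, 0, 2, 2, 0, 0, 2, 2]),
    ([0, 5, 2, 6, 7, 3], [0, 0, 3, 3, 0, 0, 3, 3, 0, 0, 3, 3])]⟩

/-- a certificate -/
def ce53 : Cer := ⟨132, 48, 3072, 6, [
    (11, [.bd 2 [11] [10] 5]),
    (10, [.bd 2 [10, 11] [] 6,
      .eq 0 2 7 4 [11] [10]]),
    (7, [.bd 0 [7] [2] 5]),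
    (2, [.bd 0 [2, 7] [] 6,
      .eq 1 4 5 2 [7] [2],
      .sm 2 [10, 11] [2, 7]]),
    (5, [.bd 1 [5] [4] 5]),
    (4, [.bd 1 [4, 5] [] 6,
      .eq 0 2 7 2 [4] [5],
      .sm 0 [2, 7] [4, 5]])], [
    ([0, 9, 2, 4, 10, 1], [0, 0, 1, 0, 1, 1, 0, 1, 0, 0, 1, 1]),
    ([0, 9, 2, 4, 10, 2], [0, 0, 2, 0, 2, 2, 0, 2, 0, 0, 2, 2]),
    ([0, 9, 2, 4, 10, 3], [0, 0, 3, 0, 3, 3, 0, 3, 0, 0, 3, 3])]⟩

/-- a certificate -/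
def ce54 : Cer := ⟨2112, 1152, 768, 6, [
    (11, [.bd 0 [11] [6] 5]),
    (6, [.bd 0 [6, 11] [] 6,
      .eq 1 7 10 4 [6] [11]]),
    (7, [.bd 1 [7] [10] 5]),
    (10, [.bd 1 [7, 10] [] 6,
      .eq 0 6 11 1 [7] [10],
      .sm 0 [6, 11] [7, 10]]),
    (9, [.bd 2 [9] [8] 5]),
    (8, [.bd 2 [8, 9] [] 6,
      .eq 0 6 11 2 [9] [8],
      .sm 1 [7, 10] [8, 9]])], [
    ([0, 5, 6, 7, 8, 1], [0, 0, 0, 0, 0, 0, 1, 1, 1, 1, 1, 1]),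
    ([0, 5, 6, 7, 8, 2], [0, 0, 0, 0, 0, 0, 2, 2, 2, 2, 2, 2]),
    ([0, 5, 6, 7, 8, 3], [0, 0, 0, 0, 0, 0, 3, 3, 3, 3, 3, 3])]⟩

/-- a certificate -/
def ce55 : Cer := ⟨64, 128, 2048, 3, [
    (7, []),
    (6, [.sm 0 [6] [7],
      .md 0 [6] [7]]),
    (11, [])], [
    ]⟩

/-- a certificate -/
def ce56 : Cer := ⟨64, 1024, 2048, 3, [
    (11, []),
    (6, [.sm 2 [11] [6],
      .md 2 [11] [6]]),
    (10, [])], [
    ]⟩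

/-- a certificate -/
def ce57 : Cer := ⟨194, 2340, 1560, 11, [
    (2, [.bd 1 [2] [5, 8, 11] 8]),
    (8, [.bd 1 [2, 8] [5, 11] 9,
      .eq 0 1 7 1 [2] [8]]),
    (6, [.bd 0 [6] [1, 7] 9,
      .eq 2 4 10 2 [6, 8] [2]]),
    (4, []),
    (7, []),
    (3, []),
    (10, []),
    (1, []),
    (9, []),
    (11, []),
    (5, [])], [
    ]⟩

/-- a certificate -/
def ce58 : Cer := ⟨195, 2340, 1560, 12, [
    (11, [.bd 1 [11] [2, 5, 8] 9]),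
    (8, [.bd 1 [8, 11] [2, 5] 10,
      .eq 0 0 7 1 [11] [8]]),
    (2, [.bd 1 [2, 8, 11] [5] 11,
      .eq 0 0 1 1 [11] [2]]),
    (5, [.bd 1 [2, 5, 8, 11] [] 12,
      .eq 0 0 1 5 [5] [8]]),
    (6, [.bd 0 [6] [0, 1, 7] 9]),
    (7, [.bd 0 [6, 7] [0, 1] 10,
      .eq 2 3 10 4 [2, 7] [6, 11]]),
    (0, [.bd 0 [0, 6, 7] [1] 11,
      .eq 2 3 4 4 [7, 8] [0, 11]]),
    (1, [.bd 0 [0, 1, 6, 7] [] 12,
      .eq 2 3 4 2 [1, 2] [5, 6],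
      .sm 0 [0, 1, 6, 7] [2, 5, 8, 11]]),
    (9, [.bd 2 [9] [3, 4, 10] 9]),
    (10, [.bd 2 [9, 10] [3, 4] 10,
      .eq 0 0 7 2 [2, 9] [5, 10]]),
    (3, [.bd 2 [3, 9, 10] [4] 11,
      .eq 0 0 1 2 [2, 3] [10, 11]]),
    (4, [.bd 2 [3, 4, 9, 10] [] 12,
      .eq 0 0 1 3 [4, 10] [3, 9],
      .sm 1 [2, 5, 8, 11] [3, 4, 9, 10]])], [
    ([1, 4, 0, 4], [1, 1, 1, 1, 1, 1, 1, 1, 1, 1, 1, 1]),
    ([1, 4, 0, 13], [2, 2, 2, 2, 2, 2, 2, 2, 2, 2, 2, 2]),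
    ([1, 4, 0, 16], [3, 3, 3, 3, 3, 3, 3, 3, 3, 3, 3, 3])]⟩

/-- a certificate -/
def ce59 : Cer := ⟨128, 512, 2048, 3, [
    (11, []),
    (7, [.sm 2 [11] [7],
      .md 2 [11] [7]]),
    (9, [.sm 0 [7] [9],
      .md 0 [7] [9]])], [
    ]⟩

/-- a certificate -/
def ce60 : Cer := ⟨64, 512, 2048, 3, [
    (11, []),
    (6, [.sm 2 [11] [6],
      .md 2 [11] [6]]),
    (9, [])], [
    ]⟩

/-- a certificate -/
def ce61 : Cer := ⟨64, 256, 2048, 3, [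
    (6, []),
    (8, [.sm 0 [6] [8],
      .md 0 [6] [8]]),
    (11, [])], [
    ]⟩

/-- a certificate -/
def ce62 : Cer := ⟨585, 1170, 2340, 12, [
    (9, [.bd 0 [9] [0, 3, 6] 9]),
    (3, [.bd 0 [3, 9] [0, 6] 10]),
    (7, [.bd 1 [7] [1, 4, 10] 9]),
    (1, [.bd 1 [1, 7] [4, 10] 10,
      .eq 2 2 8 1 [3, 7] [1, 9],
      .eq 2 5 11 2 [1, 3] [7, 9]]),
    (10, [.bd 1 [1, 7, 10] [4] 11]),
    (6, [.bd 0 [3, 6, 9] [0] 11,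
      .eq 2 2 5 4 [1, 6] [9, 10]]),
    (0, [.bd 0 [0, 3, 6, 9] [] 12,
      .eq 2 2 5 5 [9, 10] [0, 7]]),
    (4, [.bd 1 [1, 4, 7, 10] [] 12,
      .eq 2 2 5 1 [3, 4] [1, 6],
      .sm 0 [0, 3, 6, 9] [1, 4, 7, 10],
      .md 0 [0, 3, 6, 9] [1, 4, 7, 10]]),
    (2, [.bd 2 [2] [5, 8, 11] 9]),
    (5, [.bd 2 [2, 5] [8, 11] 10,
      .eq 0 0 3 2 [5, 10] [1, 2]]),
    (11, [.bd 2 [2, 5, 11] [8] 11,
      .eq 0 0 3 1 [1, 2] [4, 11]]),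
    (8, [.bd 2 [2, 5, 8, 11] [] 12,
      .eq 0 0 3 4 [4, 11] [7, 8],
      .sm 1 [1, 4, 7, 10] [2, 5, 8, 11]])], [
    ([1, 4, 1, 10], [2, 1, 2, 1, 2, 1, 2, 1, 2, 1, 2, 1]),
    ([1, 4, 1, 19], [5, 1, 5, 1, 5, 1, 5, 1, 5, 1, 5, 1]),
    ([1, 1, 1, 10], [1, 2, 1, 2, 1, 2, 1, 2, 1, 2, 1, 2]),
    ([1, 4, 1, 18], [4, 2, 4, 2, 4, 2, 4, 2, 4, 2, 4, 2]),
    ([1, 1, 1, 15], [3, 3, 3, 3, 3, 3, 3, 3, 3, 3, 3, 3]),
    ([1, 1, 1, 18], [2, 4, 2, 4, 2, 4, 2, 4, 2, 4, 2, 4]),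
    ([1, 1, 1, 19], [1, 5, 1, 5, 1, 5, 1, 5, 1, 5, 1, 5])]⟩

/-- a certificate -/
def ce63 : Cer := ⟨16, 512, 2048, 3, [
    (9, []),
    (11, [.sm 1 [9] [11],
      .md 1 [9] [11]]),
    (4, [])], [
    ]⟩

/-- a certificate -/
def ce64 : Cer := ⟨16, 256, 2048, 3, [
    (8, []),
    (11, [.sm 1 [8] [11],
      .md 1 [8] [11]]),
    (4, [])], [
    ]⟩

/-- a certificate -/
def ce65 : Cer := ⟨16, 128, 2048, 3, [
    (4, []),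
    (7, [.sm 0 [4] [7],
      .md 0 [4] [7]]),
    (11, [])], [
    ]⟩

/-- a certificate -/
def ce66 : Cer := ⟨1365, 546, 2184, 12, [
    (7, [.bd 2 [7] [3, 11] 10]),
    (3, [.bd 2 [3, 7] [11] 11,
      .eq 0 0 10 5 [3] [7]]),
    (11, [.bd 2 [3, 7, 11] [] 12,
      .eq 0 0 2 1 [3] [11]]),
    (4, [.bd 0 [4] [0, 2, 6, 8, 10] 7]),
    (0, [.bd 0 [0, 4] [2, 6, 8, 10] 8]),
    (10, [.bd 0 [0, 4, 10] [2, 6, 8] 9]),
    (2, [.bd 0 [0, 2, 4, 10] [6, 8] 10,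
      .eq 2 3 11 1 [2, 4] [0, 10]]),
    (6, [.bd 0 [0, 2, 4, 6, 10] [8] 11,
      .eq 1 1 5 1 [4, 6] [0, 2],
      .eq 1 1 9 3 [0, 6] [4, 10]]),
    (8, [.bd 0 [0, 2, 4, 6, 8, 10] [] 12,
      .eq 1 1 5 3 [2, 8] [4, 10],
      .sm 2 [3, 7, 11] [0, 2, 4, 6, 8, 10],
      .md 2 [3, 7, 11] [0, 2, 4, 6, 8, 10]]),
    (9, [.bd 1 [9] [1, 5] 10]),
    (5, [.bd 1 [5, 9] [1] 11,
      .eq 0 0 2 3 [9, 11] [3, 5]]),
    (1, [.bd 1 [1, 5, 9] [] 12,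
      .eq 0 0 4 1 [1, 3] [5, 11],
      .sm 0 [0, 2, 4, 6, 8, 10] [1, 5, 9]])], [
    ([1, 3, 2, 9], [1, 2, 1, 2, 1, 2, 1, 2, 1, 2, 1, 2]),
    ([1, 3, 2, 17], [2, 4, 2, 4, 2, 4, 2, 4, 2, 4, 2, 4])]⟩

/-- a certificate -/
def ce67 : Cer := ⟨2052, 528, 192, 6, [
    (9, [.bd 1 [9] [4] 5]),
    (4, [.bd 1 [4, 9] [] 6,
      .eq 0 2 11 2 [4] [9]]),
    (6, [.bd 2 [6] [7] 5]),
    (7, [.bd 2 [6, 7] [] 6,
      .eq 0 2 11 4 [7] [6],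
      .sm 1 [4, 9] [6, 7]]),
    (11, [.bd 0 [11] [2] 5]),
    (2, [.bd 0 [2, 11] [] 6,
      .eq 1 4 9 2 [6, 11] [2, 7],
      .sm 0 [2, 11] [4, 9]])], [
    ([0, 1, 2, 4, 6, 1], [0, 0, 1, 0, 1, 0, 1, 1, 0, 1, 0, 1]),
    ([0, 1, 2, 4, 6, 2], [0, 0, 2, 0, 2, 0, 2, 2, 0, 2, 0, 2]),
    ([0, 1, 2, 4, 6, 3], [0, 0, 3, 0, 3, 0, 3, 3, 0, 3, 0, 3])]⟩

/-- a certificate -/
def ce68 : Cer := ⟨260, 32, 2048, 4, [
    (5, []),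
    (11, [.sm 1 [5] [11],
      .md 1 [5] [11]]),
    (8, [.bd 0 [8] [2] 3]),
    (2, [.bd 0 [2, 8] [] 4,
      .sm 0 [2, 8] [5],
      .md 0 [2, 8] [5]])], [
    ([0, 10, 2, 5, 11, 1], [0, 0, 1, 0, 0, 2, 0, 0, 1, 0, 0, 2]),
    ([0, 10, 2, 5, 11, 2], [0, 0, 2, 0, 0, 4, 0, 0, 2, 0, 0, 4])]⟩

/-- a certificate -/
def ce69 : Cer := ⟨20, 2176, 512, 5, [
    (4, [.bd 0 [4] [2] 4]),
    (2, [.bd 0 [2, 4] [] 5,
      .eq 1 7 11 3 [2] [4]]),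
    (9, [.sm 2 [9] [2, 4]]),
    (7, [.bd 1 [7] [11] 4]),
    (11, [.bd 1 [7, 11] [] 5,
      .eq 0 2 4 3 [11] [7],
      .sm 0 [2, 4] [7, 11]])], [
    ([0, 6, 2, 7, 9, 1], [0, 0, 1, 0, 1, 0, 0, 1, 0, 2, 0, 1]),
    ([0, 6, 2, 7, 9, 2], [0, 0, 2, 0, 2, 0, 0, 2, 0, 4, 0, 2])]⟩

/-- a certificate -/
def ce70 : Cer := ⟨2056, 544, 320, 6, [
    (3, [.bd 0 [3] [11] 5]),
    (11, [.bd 0 [3, 11] [] 6,
      .eq 1 5 9 2 [11] [3]]),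
    (8, [.bd 2 [8] [6] 5]),
    (6, [.bd 2 [6, 8] [] 6,
      .eq 0 3 11 3 [8] [6],
      .sm 2 [6, 8] [3, 11]]),
    (5, [.bd 1 [5] [9] 5]),
    (9, [.bd 1 [5, 9] [] 6,
      .eq 0 3 11 2 [5] [9],
      .sm 0 [3, 11] [5, 9]])], [
    ([0, 2, 3, 5, 6, 1], [0, 0, 0, 1, 0, 1, 1, 0, 1, 1, 0, 1]),
    ([0, 2, 3, 5, 6, 2], [0, 0, 0, 2, 0, 2, 2, 0, 2, 2, 0, 2]),
    ([0, 2, 3, 5, 6, 3], [0, 0, 0, 3, 0, 3, 3, 0, 3, 3, 0, 3])]⟩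

/-- a certificate -/
def ce71 : Cer := ⟨2056, 544, 128, 5, [
    (9, [.bd 1 [9] [5] 4]),
    (5, [.bd 1 [5, 9] [] 5,
      .eq 0 3 11 2 [5] [9]]),
    (7, [.sm 1 [5, 9] [7]]),
    (3, [.bd 0 [3] [11] 4]),
    (11, [.bd 0 [3, 11] [] 5,
      .eq 1 5 9 2 [11] [3],
      .sm 0 [3, 11] [5, 9]])], [
    ([0, 2, 3, 5, 7, 1], [0, 0, 0, 1, 0, 1, 0, 2, 0, 1, 0, 1]),
    ([0, 2, 3, 5, 7, 2], [0, 0, 0, 2, 0, 2, 0, 4, 0, 2, 0, 2])]⟩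

/-- a certificate -/
def ce72 : Cer := ⟨4, 2080, 640, 5, [
    (9, [.bd 2 [9] [7] 4]),
    (7, [.bd 2 [7, 9] [] 5,
      .eq 1 5 11 2 [7] [9]]),
    (5, [.bd 1 [5] [11] 4]),
    (11, [.bd 1 [5, 11] [] 5,
      .eq 2 7 9 2 [11] [5],
      .sm 1 [5, 11] [7, 9]]),
    (2, [.sm 0 [2] [5, 11]])], [
    ([0, 4, 2, 5, 7, 1], [0, 0, 2, 0, 0, 1, 0, 1, 0, 1, 0, 1]),
    ([0, 4, 2, 5, 7, 2], [0, 0, 4, 0, 0, 2, 0, 2, 0, 2, 0, 2])]⟩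

/-- a certificate -/
def ce73 : Cer := ⟨130, 2600, 1040, 8, [
    (9, [.bd 1 [9] [3, 5, 11] 5]),
    (11, [.bd 1 [9, 11] [3, 5] 6]),
    (5, [.bd 1 [5, 9, 11] [3] 7]),
    (3, [.bd 1 [3, 5, 9, 11] [] 8,
      .eq 0 1 7 2 [3, 11] [5, 9],
      .eq 2 4 10 1 [9, 11] [3, 5]]),
    (1, [.bd 0 [1] [7] 7]),
    (7, [.bd 0 [1, 7] [] 8,
      .eq 1 3 5 2 [7] [1],
      .sm 0 [1, 7] [3, 5, 9, 11],
      .md 0 [1, 7] [3, 5, 9, 11]]),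
    (10, [.bd 2 [10] [4] 7]),
    (4, [.bd 2 [4, 10] [] 8,
      .eq 1 3 9 1 [4] [10],
      .sm 1 [3, 5, 9, 11] [4, 10]])], [
    ([1, 4, 0, 3], [0, 2, 0, 1, 2, 1, 0, 2, 0, 1, 2, 1]),
    ([1, 4, 0, 12], [0, 4, 0, 2, 4, 2, 0, 4, 0, 2, 4, 2])]⟩

/-- a certificate -/
def ce74 : Cer := ⟨130, 520, 2080, 6, [
    (5, [.bd 2 [5] [11] 5]),
    (11, [.bd 2 [5, 11] [] 6]),
    (7, [.bd 0 [7] [1] 5]),
    (1, [.bd 0 [1, 7] [] 6,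
      .eq 1 3 9 2 [5, 7] [1, 11],
      .sm 2 [5, 11] [1, 7],
      .md 2 [5, 11] [1, 7]]),
    (3, [.bd 1 [3] [9] 5]),
    (9, [.bd 1 [3, 9] [] 6,
      .eq 0 1 7 2 [3, 5] [9, 11],
      .sm 0 [1, 7] [3, 9]])], [
    ([1, 3, 1, 1], [0, 1, 0, 2, 0, 1, 0, 2, 0, 1, 0, 2]),
    ([1, 3, 1, 8], [0, 1, 0, 5, 0, 1, 0, 5, 0, 1, 0, 5]),
    ([1, 9, 1, 1], [0, 2, 0, 1, 0, 2, 0, 1, 0, 2, 0, 1]),
    ([1, 3, 1, 7], [0, 2, 0, 4, 0, 2, 0, 4, 0, 2, 0, 4]),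
    ([1, 3, 1, 6], [0, 3, 0, 3, 0, 3, 0, 3, 0, 3, 0, 3]),
    ([1, 9, 1, 7], [0, 4, 0, 2, 0, 4, 0, 2, 0, 4, 0, 2]),
    ([1, 9, 1, 8], [0, 5, 0, 1, 0, 5, 0, 1, 0, 5, 0, 1])]⟩

/-- a certificate -/
def ce75 : Cer := ⟨1170, 2340, 576, 10, [
    (7, [.bd 0 [7] [1, 4, 10] 7]),
    (4, [.bd 0 [4, 7] [1, 10] 8,
      .eq 1 2 5 2 [7] [4]]),
    (10, [.bd 0 [4, 7, 10] [1] 9]),
    (1, [.bd 0 [1, 4, 7, 10] [] 10,
      .eq 1 2 11 1 [10] [1]]),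
    (6, [.bd 2 [6] [9] 9,
      .eq 1 2 5 1 [4] [1, 6],
      .eq 1 2 8 2 [10] [4, 6]]),
    (11, []),
    (2, []),
    (9, []),
    (8, []),
    (5, [])], [
    ]⟩

/-- certificates -/
def cb0 : List Cer := [ce0, ce1, ce2, ce4, ce46, ce47, ce55, ce56, ce60, ce61, ce63, ce64, ce65, ce30, ce34, ce35, ce44, ce48, ce59, ce18, ce50, ce19, ce45, ce68, ce20, ce51, ce3, ce8, ce12, ce14, ce32, ce38, ce40, ce69]

/-- certificates -/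
def cb1 : List Cer := [ce71, ce72, ce26, ce11, ce23, ce37, ce39, ce25, ce57, ce9]

/-- certificates -/
def cb2 : List Cer := [ce6, ce29, ce5, ce31, ce7, ce10]

/-- certificates -/
def cb3 : List Cer := [ce13, ce16, ce17, ce22, ce24]

/-- certificates -/
def cb4 : List Cer := [ce28, ce33, ce36, ce49, ce52]

/-- certificates -/
def cb5 : List Cer := [ce53, ce54, ce67, ce70]

/-- certificates -/
def cb6 : List Cer := [ce21, ce75, ce27]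

/-- certificates -/
def cb7 : List Cer := [ce43, ce41]

/-- certificates -/
def cb8 : List Cer := [ce15, ce42]

/-- certificates -/
def cb9 : List Cer := [ce74]

/-- certificates -/
def cb10 : List Cer := [ce73]

/-- certificates -/
def cb11 : List Cer := [ce58]

/-- certificates -/
def cb12 : List Cer := [ce62]

/-- certificates -/
def cb13 : List Cer := [ce66]

/-- the certificates -/
def cers : List Cer := cb0 ++ (cb1 ++ (cb2 ++ (cb3 ++ (cb4 ++ (cb5 ++ (cb6 ++ (cb7 ++ (cb8 ++ (cb9 ++ (cb10 ++ (cb11 ++ (cb12 ++ (cb13)))))))))))))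

end Pool.Agent.UEL
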