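import Mathlib.Data.Int.Notation
import Mathlib.Data.Nat.Notation

set_option autoImplicit false

/-!
Three divisors on the cyclic group of order twelve: the search. Only computations here.
-/

namespace Pool.Agent.UEL

/-! ### labels -/

/-- sign test of the relation with the masks `(A, B)` for two classes -/
def sg (E G A B : ℕ) : Bool :=
  cond (Nat.beq (Nat.lor (Nat.land E A) (Nat.land G B)) 0)
    (Nat.beq (Nat.lor (Nat.land E B) (Nat.land G A)) 0)
    (!(Nat.beq (Nat.lor (Nat.land E B) (Nat.land G A)) 0))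

/-- the two points of a relation -/
def pm (T j : ℕ) : ℕ := Nat.lor (Nat.shiftLeft 1 ((T + 12 - j) % 12)) (Nat.shiftLeft 1 ((T + j) % 12))

/-- the points of a relation on one side -/
def mA (T U j : ℕ) : ℕ := Nat.land (pm T j) (Nat.xor 4095 (pm U j))

/-- all points of the relation are known, and the sign test fails -/
def xr (K D E G p A B : ℕ) : Bool :=
  Nat.beq (Nat.land K (Nat.lor p (Nat.lor A B))) (Nat.lor p (Nat.lor A B)) &&
  (Nat.beq (Nat.land D p) p && !(sg E G A B))

/-- the same for the relation of `T`, `U`, `j` and the class `c` -/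
def xc (K D E G c T U j : ℕ) : Bool :=
  match c with
  | 0 => xr K D E G (Nat.lor (Nat.shiftLeft 1 T) (Nat.shiftLeft 1 U)) (mA T U j) (mA U T j)
  | 1 => xr K E G D (Nat.lor (Nat.shiftLeft 1 T) (Nat.shiftLeft 1 U)) (mA T U j) (mA U T j)
  | _ => xr K G D E (Nat.lor (Nat.shiftLeft 1 T) (Nat.shiftLeft 1 U)) (mA T U j) (mA U T j)

/-- the search tree: complete labels, a relation which is violated, the label of a point -/
inductive Tree
  | L
  | X (v : ℕ)
  | N (x : ℕ) (a b c d : Tree)

/-- the check of a search tree -/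
def ck (leaf : ℕ → ℕ → ℕ → Bool) : Tree → ℕ → ℕ → ℕ → ℕ → Bool
  | .L, K, D, E, G => Nat.beq K 4095 && leaf D E G
  | .X v, K, D, E, G => xc K D E G (v % 3) (v / 3 % 12) (v / 36 % 12) (v / 432 % 12)
  | .N x a b c d, K, D, E, G =>
    ck leaf a (Nat.lor K (Nat.shiftLeft 1 x)) D E G &&
    (ck leaf b (Nat.lor K (Nat.shiftLeft 1 x)) (Nat.lor D (Nat.shiftLeft 1 x)) E G &&
    (ck leaf c (Nat.lor K (Nat.shiftLeft 1 x)) D (Nat.lor E (Nat.shiftLeft 1 x)) G &&
    ck leaf d (Nat.lor K (Nat.shiftLeft 1 x)) D E (Nat.lor G (Nat.shiftLeft 1 x))))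

/-- translate a mask -/
def rotl (t m : ℕ) : ℕ :=
  Nat.land (Nat.lor (Nat.shiftRight m t) (Nat.shiftLeft m (12 - t))) 4095

/-- the code of three masks -/
def enc (D E G : ℕ) : ℕ := D + 4096 * E + 16777216 * G

/-- the six orders -/
def ord6 (s D E G : ℕ) : ℕ :=
  match s with
  | 0 => enc D E G
  | 1 => enc D G E
  | 2 => enc E D G
  | 3 => enc E G D
  | 4 => enc G D E
  | _ => enc G E D

/-- the image under a translation and a change of order -/
def img (s t D E G : ℕ) : ℕ := ord6 s (rotl t D) (rotl t E) (rotl t G)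

/-- the labels are in the table, and equivalent to a normal form -/
def leafT (tab : List (List (ℕ × ℕ × ℕ))) (nfs : List ℕ) (D E G : ℕ) : Bool :=
  Nat.beq G 0 || (tab.getD (enc D E G % 61) []).any fun e =>
    Nat.beq e.1 (enc D E G) && (Nat.blt e.2.2 12 && nfs.any (Nat.beq (img e.2.1 e.2.2 D E G)))

/-! ### values -/

/-- the tests on the values -/
inductive Test
  /-- the relation of `T`, `U`, `j` for the class `c` -/
  | eq (c T U j : ℕ) (P N : List ℕ)
  /-- the classes `c` and `c + 1` have the same sum -/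
  | sm (c : ℕ) (P N : List ℕ)
  /-- the weighted sums of the classes `c` and `c + 1` agree modulo twelve -/
  | md (c : ℕ) (P N : List ℕ)
  /-- the bound for the class `c` -/
  | bd (c : ℕ) (P U : List ℕ) (b : ℕ)

/-- a sum of values -/
def sv (st : ℕ → ℕ) (P : List ℕ) : ℕ := P.foldr (fun y s => st y + s) 0

/-- a weighted sum of values -/
def sw (st : ℕ → ℕ) (P : List ℕ) : ℕ := P.foldr (fun y s => y * st y + s) 0

/-- run a test -/
def chk (st : ℕ → ℕ) : Test → Bool
  | .eq _ _ _ _ P N => Nat.beq (sv st P) (sv st N)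
  | .sm _ P N => Nat.beq (sv st P) (sv st N)
  | .md _ P N => Nat.beq (sw st P % 12) (sw st N % 12)
  | .bd _ P _ b => Nat.ble (sv st P) b

/-- the points of a test -/
def tpt : Test → List ℕ
  | .eq _ _ _ _ P N => P ++ N
  | .sm _ P N => P ++ N
  | .md _ P N => P ++ N
  | .bd _ P _ _ => P

/-- the search for the values -/
def run (vs : List ℕ) (fin : (ℕ → ℕ) → Bool) : List (ℕ × List Test) → (ℕ → ℕ) → Bool
  | [], st => fin st
  | x :: l, st => vs.all fun v =>
    !(x.2.all (chk fun y => cond (Nat.beq y x.1) v (st y))) ||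
      run vs fin l (fun y => cond (Nat.beq y x.1) v (st y))

/-- the points -/
def r12 : List ℕ := [0, 1, 2, 3, 4, 5, 6, 7, 8, 9, 10, 11]

/-- a bit -/
def bt (m y : ℕ) : ℕ := Nat.shiftRight m y % 2

/-- count -/
def cnt (P : List ℕ) (y : ℕ) : ℕ := P.foldr (fun z s => cond (Nat.beq z y) (s + 1) s) 0

/-- all points are less than twelve -/
def lt12 (P : List ℕ) : Bool := P.all fun y => Nat.blt y 12

/-- static check of a relation: `X` contains `T` and `U` -/
def seq (X Y Z T U j : ℕ) (P N : List ℕ) : Bool :=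
  Nat.blt T 12 && Nat.blt U 12 && Nat.blt j 12 && Nat.beq (bt X T) 1 && Nat.beq (bt X U) 1 &&
  r12.all fun y =>
    Nat.beq (cnt P y) (bt (mA T U j) y * bt Y y + bt (mA U T j) y * bt Z y) &&
    Nat.beq (cnt N y) (bt (mA U T j) y * bt Y y + bt (mA T U j) y * bt Z y)

/-- static check of the sums -/
def ssm (X Y : ℕ) (P N : List ℕ) : Bool :=
  r12.all fun y => Nat.beq (cnt P y) (bt X y) && Nat.beq (cnt N y) (bt Y y)

/-- static check of a bound -/
def sbd (X m : ℕ) (P U : List ℕ) (b : ℕ) : Bool :=
  Nat.ble m (b + U.length) && r12.all fun y => Nat.beq (cnt P y + cnt U y) (bt X y)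

/-- static check of a test -/
def stk (m X Y Z : ℕ) : Test → Bool
  | .eq 0 T U j P N => lt12 P && lt12 N && seq X Y Z T U j P N
  | .eq 1 T U j P N => lt12 P && lt12 N && seq Y Z X T U j P N
  | .eq _ T U j P N => lt12 P && lt12 N && seq Z X Y T U j P N
  | .sm 0 P N => lt12 P && lt12 N && ssm X Y P N
  | .sm 1 P N => lt12 P && lt12 N && ssm Y Z P N
  | .sm _ P N => lt12 P && lt12 N && ssm Z X P N
  | .md 0 P N => lt12 P && lt12 N && ssm X Y P N
  | .md 1 P N => lt12 P && lt12 N && ssm Y Z P N
  | .md _ P N => lt12 P && lt12 N && ssm Z X P N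
  | .bd 0 P U b => lt12 P && lt12 U && sbd X m P U b
  | .bd 1 P U b => lt12 P && lt12 U && sbd Y m P U b
  | .bd _ P U b => lt12 P && lt12 U && sbd Z m P U b

/-- static check of the steps -/
def stl (m X Y Z : ℕ) : List (ℕ × List Test) → Bool
  | [] => true
  | x :: l => Nat.beq (bt X x.1 + bt Y x.1 + bt Z x.1) 1 &&
      x.2.all (fun t => stk m X Y Z t && (tpt t).all fun y => l.all fun e => !(Nat.beq e.1 y)) &&
      stl m X Y Z l

/-- a certificate for a normal form: three masks, the number of points, the steps, the solutions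
(a hint and the values) -/
structure Cer where
  X : ℕ
  Y : ℕ
  Z : ℕ
  m : ℕ
  st : List (ℕ × List Test)
  so : List (List ℕ × List ℕ)

/-- the values agree with one of the solutions -/
def fin (so : List (List ℕ × List ℕ)) (st : ℕ → ℕ) : Bool :=
  so.any fun s => r12.all fun y => Nat.beq (st y) (s.2.getD y 0)

/-- the static check of a certificate -/
def sc (c : Cer) : Bool :=
  Nat.beq (r12.foldr (fun y s => bt c.X y + bt c.Y y + bt c.Z y + s) 0) c.m &&
  (r12.all fun y => Nat.beq (bt c.X y + bt c.Y y + bt c.Z y) 0 || c.st.any fun e => Nat.beq e.1 y) &&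
  stl c.m c.X c.Y c.Z c.st

/-- the values `1, …, m` -/
def vls (m : ℕ) : List ℕ := (List.range m).map (· + 1)

/-- the check of a certificate -/
def cc (c : Cer) : Bool := sc c && run (vls c.m) (fin c.so) c.st fun _ => 0

/-- the part of the search with a given first value -/
def rp (c : Cer) (v : ℕ) : Bool :=
  match c.st with
  | [] => false
  | x :: l => !(x.2.all (chk fun y => cond (Nat.beq y x.1) v 0)) ||
      run (vls c.m) (fin c.so) l (fun y => cond (Nat.beq y x.1) v 0)

end Pool.Agent.UEL
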