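import Pool.Agent.Lib_helper40.UP.Comb
import Pool.Agent.Lib_helper7.UEL.Kc

/-!
# Three divisors on the cyclic group of order twelve: the labels
-/

set_option autoImplicit false
set_option linter.unusedVariables false

namespace Pool.Agent.UEL

open UP Finset

/-- the mask of a function -/
def bm (f : ℕ → ℤ) : ℕ := Nat.ofBits (n := 12) fun i => decide (f i ≠ 0)

lemma bm_bit (f : ℕ → ℤ) (y : ℕ) : (bm f).testBit y = (decide (y < 12) && decide (f y ≠ 0)) := by
  unfold bm
  by_cases hy : y < 12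
  · rw [Nat.testBit_ofBits_lt _ _ hy]
    simp [hy]
  · rw [Nat.testBit_ofBits_ge _ _ (by omega)]
    simp [hy]

lemma bt_eq (m y : ℕ) : bt m y = (m.testBit y).toNat := by
  show Nat.shiftRight m y % 2 = _
  have : Nat.shiftRight m y = m >>> y := rfl
  rw [this, Nat.testBit_eq_decide_div_mod_eq, Nat.shiftRight_eq_div_pow]
  have := Nat.mod_two_eq_zero_or_one (m / 2 ^ y)
  rcases this with h | h <;> rw [h] <;> rfl

/-- the indicator -/
def ind (a y : ℕ) : ℕ := cond (Nat.beq a y) 1 0

lemma ind_eq (a y : ℕ) : ind a y = if a = y then 1 else 0 := by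
  unfold ind
  by_cases h : a = y
  · subst h
    rw [Nat.beq_refl, if_pos rfl]; rfl
  · rw [if_neg h]
    have : Nat.beq a y = false := by
      rw [Bool.eq_false_iff]
      exact fun hb => h (Nat.eq_of_beq_eq_true hb)
    rw [this]; rfl

/-- the coefficients of a relation -/
def cfk (T U j k : ℕ) : Bool := r12.all fun y =>
  Nat.beq (ind ((T + 12 - j) % 12) y + ind ((T + j) % 12) y + k * bt (mA U T j) y)
    (ind ((U + 12 - j) % 12) y + ind ((U + j) % 12) y + k * bt (mA T U j) y)

lemma cfk_ok : (r12.all fun T => r12.all fun U => r12.all fun j =>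
    cfk T U j 1 || cfk T U j 2) = true := by decide +kernel

lemma mem_r12 {y : ℕ} : y ∈ r12 ↔ y < 12 := by
  unfold r12
  constructor
  · intro h
    simp only [List.mem_cons, List.not_mem_nil, or_false] at h
    omega
  · intro h
    simp only [List.mem_cons, List.not_mem_nil, or_false]
    omega

lemma all12 {P : ℕ → Bool} (h : r12.all P = true) {y : ℕ} (hy : y < 12) : P y = true :=
  List.all_eq_true.mp h y (mem_r12.mpr hy)

lemma cfk_spec {T U j : ℕ} (hT : T < 12) (hU : U < 12) (hj : j < 12) : ∃ k : ℤ, k ≠ 0 ∧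
    ∀ y < 12, (ind ((T + 12 - j) % 12) y : ℤ) + ind ((T + j) % 12) y + k * bt (mA U T j) y =
    ind ((U + 12 - j) % 12) y + ind ((U + j) % 12) y + k * bt (mA T U j) y := by
  have h := all12 (all12 (all12 cfk_ok hT) hU) hj
  rw [Bool.or_eq_true] at h
  rcases h with h | h
  · refine ⟨1, by norm_num, fun y hy => ?_⟩
    have := Nat.eq_of_beq_eq_true (all12 h hy)
    exact_mod_cast this
  · refine ⟨2, by norm_num, fun y hy => ?_⟩
    have := Nat.eq_of_beq_eq_true (all12 h hy)
    exact_mod_cast this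

lemma sum_ind (M : ℕ → ℤ) {x : ℕ} (hx : x < 12) : ∑ y ∈ range 12, (ind x y : ℤ) * M y = M x := by
  have : ∀ y ∈ range 12, (ind x y : ℤ) * M y = if x = y then M y else 0 := by
    intro y _
    rw [ind_eq]
    split_ifs <;> simp
  rw [Finset.sum_congr rfl this, Finset.sum_ite_eq, if_pos (Finset.mem_range.mpr hx)]

/-- a relation as a sum over all points -/
lemma sum_rel {M : ℕ → ℤ} {T U j : ℕ} (hT : T < 12) (hU : U < 12) (hj : j < 12)
    (h : M ((T + 12 - j) % 12) + M ((T + j) % 12) = M ((U + 12 - j) % 12) + M ((U + j) % 12)) :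
    ∑ y ∈ range 12, ((bt (mA T U j) y : ℤ) - bt (mA U T j) y) * M y = 0 := by
  obtain ⟨k, hk, hk'⟩ := cfk_spec hT hU hj
  have h1 : ∀ y ∈ range 12, k * (((bt (mA T U j) y : ℤ) - bt (mA U T j) y) * M y) =
      ((ind ((T + 12 - j) % 12) y : ℤ) * M y + ind ((T + j) % 12) y * M y) -
      (ind ((U + 12 - j) % 12) y * M y + ind ((U + j) % 12) y * M y) := by
    intro y hy
    have := hk' y (Finset.mem_range.mp hy)
    have h2 : k * ((bt (mA T U j) y : ℤ) - bt (mA U T j) y) =
        (ind ((T + 12 - j) % 12) y : ℤ) + ind ((T + j) % 12) y -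
        (ind ((U + 12 - j) % 12) y + ind ((U + j) % 12) y) := by linarith
    rw [← mul_assoc, h2]
    ring
  have h2 : k * ∑ y ∈ range 12, ((bt (mA T U j) y : ℤ) - bt (mA U T j) y) * M y = 0 := by
    rw [Finset.mul_sum, Finset.sum_congr rfl h1, Finset.sum_sub_distrib, Finset.sum_add_distrib,
      Finset.sum_add_distrib, sum_ind M (Nat.mod_lt _ (by norm_num)),
      sum_ind M (Nat.mod_lt _ (by norm_num)), sum_ind M (Nat.mod_lt _ (by norm_num)),
      sum_ind M (Nat.mod_lt _ (by norm_num)), h, sub_self]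
  rcases mul_eq_zero.mp h2 with h3 | h3
  · exact absurd h3 hk
  · exact h3

/-- the three fibres, on the natural numbers less than twelve -/
structure Lb (X Y Z : ℕ → ℤ) : Prop where
  x0 : ∀ y, 0 ≤ X y
  y0 : ∀ y, 0 ≤ Y y
  z0 : ∀ y, 0 ≤ Z y
  xy : ∀ y, X y ≠ 0 → Y y = 0
  yz : ∀ y, Y y ≠ 0 → Z y = 0
  zx : ∀ y, Z y ≠ 0 → X y = 0
  rx : ∀ T U j, T < 12 → U < 12 → j < 12 → X T ≠ 0 → X U ≠ 0 →
    ∑ y ∈ range 12, ((bt (mA T U j) y : ℤ) - bt (mA U T j) y) * (Y y - Z y) = 0
  ry : ∀ T U j, T < 12 → U < 12 → j < 12 → Y T ≠ 0 → Y U ≠ 0 →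
    ∑ y ∈ range 12, ((bt (mA T U j) y : ℤ) - bt (mA U T j) y) * (Z y - X y) = 0
  rz : ∀ T U j, T < 12 → U < 12 → j < 12 → Z T ≠ 0 → Z U ≠ 0 →
    ∑ y ∈ range 12, ((bt (mA T U j) y : ℤ) - bt (mA U T j) y) * (X y - Y y) = 0

lemma Lb.rot {X Y Z : ℕ → ℤ} (h : Lb X Y Z) : Lb Y Z X :=
  ⟨h.y0, h.z0, h.x0, h.yz, h.zx, h.xy, h.ry, h.rz, h.rx⟩

lemma zero_iff {Y Z : ℕ → ℤ} (hY : ∀ y, 0 ≤ Y y) (hZ : ∀ y, 0 ≤ Z y) (A B : ℕ) :
    Nat.lor (Nat.land (bm Y) A) (Nat.land (bm Z) B) = 0 ↔
    ∑ y ∈ range 12, ((bt A y : ℤ) * Y y + bt B y * Z y) = 0 := by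
  have nn : ∀ y ∈ range 12, 0 ≤ (bt A y : ℤ) * Y y + bt B y * Z y := by
    intro y _
    have := mul_nonneg (Int.natCast_nonneg (bt A y)) (hY y)
    have := mul_nonneg (Int.natCast_nonneg (bt B y)) (hZ y)
    linarith
  rw [Finset.sum_eq_zero_iff_of_nonneg nn]
  have e : Nat.lor (Nat.land (bm Y) A) (Nat.land (bm Z) B) = (bm Y &&& A) ||| (bm Z &&& B) := rfl
  rw [e]
  constructor
  · intro h y hy
    have hy := Finset.mem_range.mp hy
    have h1 := congrArg (fun m => m.testBit y) h
    simp only [Nat.testBit_or, Nat.testBit_and, Nat.zero_testBit, bm_bit, hy, decide_true,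
      Bool.true_and, Bool.or_eq_false_iff] at h1
    obtain ⟨h2, h3⟩ := h1
    have a1 : (bt A y : ℤ) * Y y = 0 := by
      rw [bt_eq]
      by_cases h4 : Y y = 0
      · rw [h4, mul_zero]
      · rw [decide_eq_true h4, Bool.true_and] at h2
        rw [h2]; simp
    have a2 : (bt B y : ℤ) * Z y = 0 := by
      rw [bt_eq]
      by_cases h4 : Z y = 0
      · rw [h4, mul_zero]
      · rw [decide_eq_true h4, Bool.true_and] at h3
        rw [h3]; simp
    rw [a1, a2, add_zero]
  · intro h
    apply Nat.eq_of_testBit_eq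
    intro y
    simp only [Nat.testBit_or, Nat.testBit_and, Nat.zero_testBit, bm_bit]
    by_cases hy : y < 12
    · have h1 := h y (Finset.mem_range.mpr hy)
      have b1 := mul_nonneg (Int.natCast_nonneg (bt A y)) (hY y)
      have b2 := mul_nonneg (Int.natCast_nonneg (bt B y)) (hZ y)
      have c1 : (bt A y : ℤ) * Y y = 0 := by linarith
      have c2 : (bt B y : ℤ) * Z y = 0 := by linarith
      rw [bt_eq] at c1 c2
      rw [Bool.or_eq_false_iff]
      constructor
      · rcases mul_eq_zero.mp c1 with h2 | h2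
        · have : A.testBit y = false := by
            cases h3 : A.testBit y
            · rfl
            · rw [h3] at h2; simp at h2
          rw [this, Bool.and_false]
        · rw [h2]; simp
      · rcases mul_eq_zero.mp c2 with h2 | h2
        · have : B.testBit y = false := by
            cases h3 : B.testBit y
            · rfl
            · rw [h3] at h2; simp at h2
          rw [this, Bool.and_false]
        · rw [h2]; simp
    · simp [hy]

/-- the sign test -/
lemma sg_true {Y Z : ℕ → ℤ} (hY : ∀ y, 0 ≤ Y y) (hZ : ∀ y, 0 ≤ Z y) {A B : ℕ}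
    (h : ∑ y ∈ range 12, ((bt A y : ℤ) - bt B y) * (Y y - Z y) = 0) :
    sg (bm Y) (bm Z) A B = true := by
  have e1 := zero_iff hY hZ A B
  have e2 := zero_iff hY hZ B A
  have e3 : ∑ y ∈ range 12, ((bt A y : ℤ) * Y y + bt B y * Z y) =
      ∑ y ∈ range 12, ((bt B y : ℤ) * Y y + bt A y * Z y) := by
    rw [← sub_eq_zero, ← Finset.sum_sub_distrib, ← h]
    refine Finset.sum_congr rfl fun y _ => ?_
    ring
  rw [e3, ← e2] at e1
  unfold sg
  by_cases h0 : Nat.lor (Nat.land (bm Y) A) (Nat.land (bm Z) B) = 0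
  · rw [h0, e1.mp h0]; rfl
  · have h0' : ¬ Nat.lor (Nat.land (bm Y) B) (Nat.land (bm Z) A) = 0 := fun h => h0 (e1.mpr h)
    have f1 : Nat.beq (Nat.lor (Nat.land (bm Y) A) (Nat.land (bm Z) B)) 0 = false := by
      rw [Bool.eq_false_iff]
      exact fun hb => h0 (Nat.eq_of_beq_eq_true hb)
    have f2 : Nat.beq (Nat.lor (Nat.land (bm Y) B) (Nat.land (bm Z) A)) 0 = false := by
      rw [Bool.eq_false_iff]
      exact fun hb => h0' (Nat.eq_of_beq_eq_true hb)
    rw [f1, f2]; rfl

lemma land_sub {K A X : ℕ} (h : K &&& A = A) : (X &&& K) &&& A = X &&& A := by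
  rw [Nat.and_assoc, h]

lemma sub_l {K A B : ℕ} (h : K &&& (A ||| B) = A ||| B) : K &&& A = A := by
  apply Nat.eq_of_testBit_eq
  intro i
  have := congrArg (fun m => m.testBit i) h
  simp only [Nat.testBit_and, Nat.testBit_or] at this ⊢
  cases hA : A.testBit i
  · simp
  · rw [hA] at this
    simpa using this

lemma sub_r {K A B : ℕ} (h : K &&& (A ||| B) = A ||| B) : K &&& B = B := by
  rw [Nat.or_comm] at h
  exact sub_l h

lemma xr_false {X Y Z : ℕ → ℤ} (h : Lb X Y Z) {K T U j : ℕ} (hT : T < 12) (hU : U < 12)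
    (hj : j < 12) : xr K (bm X &&& K) (bm Y &&& K) (bm Z &&& K)
      (Nat.lor (Nat.shiftLeft 1 T) (Nat.shiftLeft 1 U)) (mA T U j) (mA U T j) = false := by
  rw [Bool.eq_false_iff]
  intro hb
  unfold xr at hb
  rw [Bool.and_eq_true, Bool.and_eq_true] at hb
  obtain ⟨h1, h2, h3⟩ := hb
  have h1 : K &&& ((1 <<< T ||| 1 <<< U) ||| (mA T U j ||| mA U T j)) =
    (1 <<< T ||| 1 <<< U) ||| (mA T U j ||| mA U T j) := Nat.eq_of_beq_eq_true h1
  have h2 : (bm X &&& K) &&& (1 <<< T ||| 1 <<< U) = 1 <<< T ||| 1 <<< U :=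
    Nat.eq_of_beq_eq_true h2
  rw [land_sub (sub_l h1)] at h2
  have hA := sub_l (sub_r h1)
  have hB := sub_r (sub_r h1)
  have tT : X T ≠ 0 := by
    have := congrArg (fun m => m.testBit T) (sub_l h2)
    simp only [Nat.testBit_and, bm_bit, hT, Nat.testBit_shiftLeft] at this
    simpa using this
  have tU : X U ≠ 0 := by
    have := congrArg (fun m => m.testBit U) (sub_r h2)
    simp only [Nat.testBit_and, bm_bit, hU, Nat.testBit_shiftLeft] at this
    simpa using this
  have h4 := sg_true h.y0 h.z0 (h.rx T U j hT hU hj tT tU)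
  have h5 : sg (bm Y &&& K) (bm Z &&& K) (mA T U j) (mA U T j) =
      sg (bm Y) (bm Z) (mA T U j) (mA U T j) := by
    have e1 : ∀ X : ℕ, Nat.land (X &&& K) (mA T U j) = Nat.land X (mA T U j) := fun X =>
      land_sub hA
    have e2 : ∀ X : ℕ, Nat.land (X &&& K) (mA U T j) = Nat.land X (mA U T j) := fun X =>
      land_sub hB
    unfold sg
    rw [e1, e1, e2, e2]
  rw [h5, h4] at h3
  exact absurd h3 (by decide)

lemma tb1 {n : ℕ} (h : n ≠ 0) : Nat.testBit 1 n = false := by
  rw [Bool.eq_false_iff]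
  exact fun hb => h (Nat.testBit_one_eq_true_iff_self_eq_zero.mp hb)

lemma and_bit (f : ℕ → ℤ) (K x : ℕ) :
    bm f &&& (K ||| 1 <<< x) = if (bm f).testBit x then (bm f &&& K) ||| 1 <<< x else bm f &&& K := by
  apply Nat.eq_of_testBit_eq
  intro i
  split_ifs with h
  · simp only [Nat.testBit_and, Nat.testBit_or, Nat.testBit_shiftLeft]
    by_cases hi : i = x
    · subst hi
      simp [h]
    · have : (decide (i ≥ x) && Nat.testBit 1 (i - x)) = false := by
        by_cases h1 : i ≥ x
        · have : i - x ≠ 0 := by omega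
          simp [h1, tb1 this]
        · simp [h1]
      rw [this]
      simp
  · simp only [Nat.testBit_and, Nat.testBit_or, Nat.testBit_shiftLeft]
    by_cases hi : i = x
    · subst hi
      have : (bm f).testBit i = false := by simpa using h
      rw [this]; simp
    · have : (decide (i ≥ x) && Nat.testBit 1 (i - x)) = false := by
        by_cases h1 : i ≥ x
        · have : i - x ≠ 0 := by omega
          simp [h1, tb1 this]
        · simp [h1]
      rw [this]
      simp

/-- the search tree is correct -/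
theorem ck_sound {X Y Z : ℕ → ℤ} (h : Lb X Y Z) {leaf : ℕ → ℕ → ℕ → Bool} (t : Tree) (K : ℕ)
    (hc : ck leaf t K (bm X &&& K) (bm Y &&& K) (bm Z &&& K) = true) :
    leaf (bm X) (bm Y) (bm Z) = true := by
  induction t generalizing K with
  | L =>
    rw [ck, Bool.and_eq_true] at hc
    obtain ⟨h1, h2⟩ := hc
    have h1 : K = 4095 := Nat.eq_of_beq_eq_true h1
    have e : ∀ f : ℕ → ℤ, bm f &&& 4095 = bm f := by
      intro f
      have h3 : bm f < 2 ^ 12 := Nat.ofBits_lt_two_pow _
      have := Nat.and_two_pow_sub_one_eq_mod (bm f) 12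
      norm_num at this h3
      rw [this, Nat.mod_eq_of_lt h3]
    rw [h1, e, e, e] at h2
    exact h2
  | X v =>
    exfalso
    rw [ck] at hc
    have l1 : v / 3 % 12 < 12 := Nat.mod_lt _ (by norm_num)
    have l2 : v / 36 % 12 < 12 := Nat.mod_lt _ (by norm_num)
    have l3 : v / 432 % 12 < 12 := Nat.mod_lt _ (by norm_num)
    generalize v / 3 % 12 = T at *
    generalize v / 36 % 12 = U at *
    generalize v / 432 % 12 = j at *
    generalize v % 3 = c at *
    unfold xc at hc
    split at hc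
    · rw [xr_false h l1 l2 l3] at hc; exact absurd hc (by decide)
    · rw [xr_false h.rot l1 l2 l3] at hc; exact absurd hc (by decide)
    · rw [xr_false h.rot.rot l1 l2 l3] at hc; exact absurd hc (by decide)
  | N x a b c d iha ihb ihc ihd =>
    rw [ck, Bool.and_eq_true, Bool.and_eq_true, Bool.and_eq_true] at hc
    obtain ⟨h1, h2, h3, h4⟩ := hc
    have key : ∀ f, (bm f &&& (K ||| 1 <<< x)) =
      if (bm f).testBit x then (bm f &&& K) ||| 1 <<< x else bm f &&& K := fun f => and_bit f K x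
    have iha := iha (K ||| 1 <<< x)
    have ihb := ihb (K ||| 1 <<< x)
    have ihc := ihc (K ||| 1 <<< x)
    have ihd := ihd (K ||| 1 <<< x)
    rw [key, key, key] at iha ihb ihc ihd
    by_cases bX : (bm X).testBit x = true
    · have hx : X x ≠ 0 := by
        rw [bm_bit, Bool.and_eq_true] at bX
        exact of_decide_eq_true bX.2
      have bY : ¬ (bm Y).testBit x = true := by
        rw [bm_bit, h.xy x hx]; simp
      have bZ : ¬ (bm Z).testBit x = true := by
        rw [bm_bit, Bool.and_eq_true]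
        rintro ⟨_, h5⟩
        exact hx (h.zx x (of_decide_eq_true h5))
      rw [if_pos bX, if_neg bY, if_neg bZ] at ihb
      exact ihb h2
    by_cases bY : (bm Y).testBit x = true
    · have hx : Y x ≠ 0 := by
        rw [bm_bit, Bool.and_eq_true] at bY
        exact of_decide_eq_true bY.2
      have bZ : ¬ (bm Z).testBit x = true := by
        rw [bm_bit, h.yz x hx]; simp
      rw [if_neg bX, if_pos bY, if_neg bZ] at ihc
      exact ihc h3
    by_cases bZ : (bm Z).testBit x = true
    · rw [if_neg bX, if_neg bY, if_pos bZ] at ihd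
      exact ihd h4
    · rw [if_neg bX, if_neg bY, if_neg bZ] at iha
      exact iha h1

/-! ### translations -/

/-- translate -/
def sh (t : ℕ) (f : ℕ → ℤ) : ℕ → ℤ := fun y => f ((y + t) % 12)

lemma bm_sh (t : ℕ) (ht : t < 12) (f : ℕ → ℤ) : bm (sh t f) = rotl t (bm f) := by
  apply Nat.eq_of_testBit_eq
  intro i
  have e : rotl t (bm f) = ((bm f >>> t) ||| (bm f <<< (12 - t))) &&& 4095 := rfl
  have e2 : (4095 : ℕ) = 2 ^ 12 - 1 := by norm_num
  rw [e, e2, bm_bit]
  simp only [Nat.testBit_and, Nat.testBit_or, Nat.testBit_shiftLeft, Nat.testBit_shiftRight,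
    Nat.testBit_two_pow_sub_one, bm_bit]
  by_cases hi : i < 12
  · simp only [hi, decide_true, Bool.true_and, Bool.and_true]
    unfold sh
    by_cases h1 : t + i < 12
    · have e1 : (i + t) % 12 = t + i := by rw [Nat.mod_eq_of_lt (by omega)]; omega
      have e2 : ¬ (i ≥ 12 - t) := by omega
      rw [e1]
      simp [h1, e2]
    · have e1 : (i + t) % 12 = i - (12 - t) := by omega
      have e2 : i ≥ 12 - t := by omega
      have e3 : i - (12 - t) < 12 := by omega
      rw [e1]
      simp only [h1, e2, e3, decide_true, decide_false, Bool.true_and, Bool.false_and,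
        Bool.false_or]
  · simp [hi]

/-- the leaves -/
lemma leafT_spec {tab : List (List (ℕ × ℕ × ℕ))} {nfs : List ℕ} {D E G : ℕ}
    (h : leafT tab nfs D E G = true) (hG : G ≠ 0) : ∃ s t, t < 12 ∧ img s t D E G ∈ nfs := by
  unfold leafT at h
  rw [Bool.or_eq_true] at h
  rcases h with h | h
  · exact absurd (Nat.eq_of_beq_eq_true h) hG
  · rw [List.any_eq_true] at h
    obtain ⟨e, _, h⟩ := h
    rw [Bool.and_eq_true, Bool.and_eq_true, List.any_eq_true] at h
    obtain ⟨_, h1, c, hc, h2⟩ := h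
    refine ⟨e.2.1, e.2.2, by simpa using h1, ?_⟩
    rw [Nat.eq_of_beq_eq_true h2]
    exact hc

end Pool.Agent.UEL
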