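import Pool.Agent.Lib_helper40.UP.Comb
import Mathlib.Data.ZMod.Basic

/-!
# Three divisors on a cyclic group: translations and orders
-/

set_option autoImplicit false
set_option linter.unusedVariables false
set_option linter.unusedSectionVars false

namespace Pool.Agent.UEL

open UP Finset

variable {n : ℕ} [NeZero n] {D E G : ZMod n → ℤ} {d : ℤ}
  {Ex : (ZMod n → ℤ) → (ZMod n → ℤ) → (ZMod n → ℤ) → Prop}

/-- the hypotheses -/
structure Hn (D E G : ZMod n → ℤ) (d : ℤ) : Prop extends Tr D E G d where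
  rh : d ≤ ∑ x, (if D x ≠ 0 then 1 else 0) + ∑ x, (if E x ≠ 0 then 1 else 0) +
    ∑ x, (if G x ≠ 0 then 1 else 0)
  s1 : ∑ x, (D x - G x) • x = 0
  s2 : ∑ x, (E x - G x) • x = 0

/-- the six orders -/
def Sx (P : (ZMod n → ℤ) → (ZMod n → ℤ) → (ZMod n → ℤ) → Prop) (D E G : ZMod n → ℤ) : Prop :=
  P D E G ∨ P D G E ∨ P E D G ∨ P E G D ∨ P G D E ∨ P G E D

/-- the pencils -/
def Pn (D E G : ZMod n → ℤ) : Prop :=
  ∃ (S p q r : ZMod n) (m : ℤ), 0 < m ∧ (∀ x, D x = m * mz S p x) ∧ (∀ x, E x = m * mz S r x) ∧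
    (∀ x, G x = m * mz S q x)

/-- the conclusion -/
def Cn (Ex : (ZMod n → ℤ) → (ZMod n → ℤ) → (ZMod n → ℤ) → Prop) (D E G : ZMod n → ℤ) : Prop :=
  Pn D E G ∨ ∃ s : ZMod n, Sx (fun A B C => Ex (fun x => A (x + s)) (fun x => B (x + s))
    (fun x => C (x + s))) D E G

/-! ### translations -/

/-- translate -/
def tl (t : ZMod n) (D : ZMod n → ℤ) : ZMod n → ℤ := fun x => D (x + t)

lemma Rl_tl {D M : ZMod n → ℤ} (h : Rl D M) (t : ZMod n) : Rl (tl t D) (tl t M) := by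
  intro T T' h1 h2 j
  have := h (T + t) (T' + t) h1 h2 j
  show M (T - j + t) + M (T + j + t) = M (T' - j + t) + M (T' + j + t)
  have a1 : T - j + t = T + t - j := by abel
  have a2 : T + j + t = T + t + j := by abel
  have a3 : T' - j + t = T' + t - j := by abel
  have a4 : T' + j + t = T' + t + j := by abel
  rw [a1, a2, a3, a4]
  exact this

lemma Tr_tl (h : Tr D E G d) (t : ZMod n) : Tr (tl t D) (tl t E) (tl t G) d where
  d0 x := h.d0 _
  e0 x := h.e0 _
  g0 x := h.g0 _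
  de x hx := h.de _ hx
  eg x hx := h.eg _ hx
  gd x hx := h.gd _ hx
  sd := (Equiv.sum_comp (Equiv.addRight t) D).trans h.sd
  se := (Equiv.sum_comp (Equiv.addRight t) E).trans h.se
  sg := (Equiv.sum_comp (Equiv.addRight t) G).trans h.sg
  pos := h.pos
  rd := Rl_tl h.rd t
  re := Rl_tl h.re t
  rg := Rl_tl h.rg t

lemma card_tl (t : ZMod n) (D : ZMod n → ℤ) :
    ∑ x, (if tl t D x ≠ 0 then (1 : ℤ) else 0) = ∑ x, (if D x ≠ 0 then 1 else 0) :=
  Equiv.sum_comp (Equiv.addRight t) fun x => if D x ≠ 0 then (1 : ℤ) else 0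

lemma sum_tl (t : ZMod n) (D G : ZMod n → ℤ) (h1 : ∑ x : ZMod n, (D x - G x) • x = 0)
    (h2 : ∑ x : ZMod n, D x = ∑ x : ZMod n, G x) :
    ∑ x : ZMod n, (tl t D x - tl t G x) • x = 0 := by
  have e1 : ∑ x : ZMod n, (tl t D x - tl t G x) • x = ∑ x : ZMod n, (D x - G x) • (x - t) := by
    rw [← Equiv.sum_comp (Equiv.addRight t) fun x => (D x - G x) • (x - t)]
    refine Finset.sum_congr rfl fun x _ => ?_
    show (D (x + t) - G (x + t)) • x = (D (x + t) - G (x + t)) • (x + t - t)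
    rw [add_sub_cancel_right]
  rw [e1]
  have e2 : ∀ x : ZMod n, (D x - G x) • (x - t) = (D x - G x) • x - (D x - G x) • t := fun x =>
    smul_sub _ _ _
  rw [Finset.sum_congr rfl fun x _ => e2 x, Finset.sum_sub_distrib, h1, ← Finset.sum_smul,
    Finset.sum_sub_distrib, h2, sub_self, zero_smul, sub_zero]

lemma Hn.tl (h : Hn D E G d) (t : ZMod n) : Hn (tl t D) (tl t E) (tl t G) d where
  toTr := Tr_tl h.toTr t
  rh := by rw [card_tl, card_tl, card_tl]; exact h.rh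
  s1 := sum_tl t D G h.s1 (h.sd.trans h.sg.symm)
  s2 := sum_tl t E G h.s2 (h.se.trans h.sg.symm)

lemma Cn.of_tl {t : ZMod n} (h : Cn Ex (UEL.tl t D) (UEL.tl t E) (UEL.tl t G)) :
    Cn Ex D E G := by
  rcases h with ⟨S, p, q, r, m, h0, h1, h2, h3⟩ | ⟨u, hu⟩
  · left
    have key : ∀ (D : ZMod n → ℤ) (p : ZMod n), (∀ x, UEL.tl t D x = m * mz S p x) →
        ∀ x, D x = m * mz (S + t + t) (p + t) x := by
      intro D p h x
      have := h (x - t)
      unfold UEL.tl at this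
      rw [sub_add_cancel] at this
      rw [this]
      congr 1
      unfold mz
      have a1 : x - t = p ↔ x = p + t := sub_eq_iff_eq_add
      have a2 : x - t = S - p ↔ x = S + t + t - (p + t) := by
        rw [sub_eq_iff_eq_add]
        have : S - p + t = S + t + t - (p + t) := by abel
        rw [this]
      rw [if_congr a1 rfl rfl, if_congr a2 rfl rfl]
    exact ⟨S + t + t, p + t, q + t, r + t, m, h0, key D p h1, key E r h2, key G q h3⟩
  · right
    refine ⟨u + t, ?_⟩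
    have key : ∀ D : ZMod n → ℤ, (fun x => UEL.tl t D (x + u)) = fun x => D (x + (u + t)) := by
      intro D
      funext x
      unfold UEL.tl
      rw [add_assoc]
    unfold Sx at hu ⊢
    beta_reduce at hu ⊢
    rw [key, key, key] at hu
    exact hu

/-! ### orders -/

lemma sum_symm {D G : ZMod n → ℤ} (h : ∑ x : ZMod n, (D x - G x) • x = 0) :
    ∑ x : ZMod n, (G x - D x) • x = 0 := by
  have : ∀ x : ZMod n, (G x - D x) • x = - ((D x - G x) • x) := by
    intro x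
    rw [← neg_smul, neg_sub]
  rw [Finset.sum_congr rfl fun x _ => this x, Finset.sum_neg_distrib, h, neg_zero]

lemma sum_trans {D E G : ZMod n → ℤ} (h : ∑ x : ZMod n, (D x - G x) • x = 0)
    (h' : ∑ x : ZMod n, (E x - G x) • x = 0) :
    ∑ x : ZMod n, (D x - E x) • x = 0 := by
  have : ∀ x : ZMod n, (D x - E x) • x = (D x - G x) • x - (E x - G x) • x := by
    intro x
    rw [← sub_smul]
    congr 1
    ring
  rw [Finset.sum_congr rfl fun x _ => this x, Finset.sum_sub_distrib, h, h', sub_zero]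

lemma Hn.rot (h : Hn D E G d) : Hn E G D d where
  toTr := h.toTr.rot
  rh := by have := h.rh; linarith
  s1 := sum_symm (sum_trans h.s1 h.s2)
  s2 := sum_symm h.s1

lemma Hn.sw (h : Hn D E G d) : Hn D G E d where
  toTr := h.toTr.sw
  rh := by have := h.rh; linarith
  s1 := sum_trans h.s1 h.s2
  s2 := sum_symm h.s2

lemma Cn.of_rot (h : Cn Ex E G D) : Cn Ex D E G := by
  rcases h with ⟨S, p, q, r, m, h0, h1, h2, h3⟩ | ⟨u, hu⟩
  · exact Or.inl ⟨S, q, r, p, m, h0, h3, h1, h2⟩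
  · right
    refine ⟨u, ?_⟩
    unfold Sx at hu ⊢
    tauto

lemma Cn.of_sw (h : Cn Ex D G E) : Cn Ex D E G := by
  rcases h with ⟨S, p, q, r, m, h0, h1, h2, h3⟩ | ⟨u, hu⟩
  · exact Or.inl ⟨S, p, r, q, m, h0, h1, h3, h2⟩
  · right
    refine ⟨u, ?_⟩
    unfold Sx at hu ⊢
    tauto

/-- two points of different classes, with a third class between them excluded -/
theorem Hn.near (h : Hn D E G d) {Q : Prop}
    (key : ∀ {D E G : ZMod n → ℤ}, Hn D E G d → (Cn Ex D E G → Q) → ∀ g : ℕ, 1 ≤ g → g < n →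
      D 0 ≠ 0 → E (g : ZMod n) ≠ 0 → (∀ i : ℕ, 0 < i → i < g → D (i : ZMod n) = 0 ∧
        E (i : ZMod n) = 0 ∧ G (i : ZMod n) = 0) → Q) (hQ : Cn Ex D E G → Q) : Q := by
  classical
  obtain ⟨T, hT⟩ := h.toTr.exists_pt
  obtain ⟨y, hy⟩ := h.toTr.rot.exists_pt
  have hex : ∃ g : ℕ, 1 ≤ g ∧ ∃ T : ZMod n, D T ≠ 0 ∧
      (E (T + (g : ZMod n)) ≠ 0 ∨ G (T + (g : ZMod n)) ≠ 0) := by
    refine ⟨(y - T).val, ?_, T, hT, Or.inl ?_⟩
    · rw [Nat.one_le_iff_ne_zero]
      intro h0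
      rw [ZMod.val_eq_zero, sub_eq_zero] at h0
      rw [h0] at hy
      exact hy (h.de T hT)
    · rw [ZMod.natCast_zmod_val, add_sub_cancel]
      exact hy
  obtain ⟨g, ⟨hg1, T, hT, hg2⟩, hmin⟩ : ∃ g : ℕ, (1 ≤ g ∧ ∃ T : ZMod n, D T ≠ 0 ∧
      (E (T + (g : ZMod n)) ≠ 0 ∨ G (T + (g : ZMod n)) ≠ 0)) ∧ ∀ m < g, ¬ (1 ≤ m ∧
      ∃ T : ZMod n, D T ≠ 0 ∧ (E (T + (m : ZMod n)) ≠ 0 ∨ G (T + (m : ZMod n)) ≠ 0)) :=
    ⟨Nat.find hex, Nat.find_spec hex, fun m hm => Nat.find_min hex hm⟩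
  have hgn : g < n := by
    by_contra hn
    have hmod : ((g % n : ℕ) : ZMod n) = (g : ZMod n) := ZMod.natCast_mod g n
    have h0 : 0 < n := Nat.pos_of_ne_zero (NeZero.ne n)
    have hlt := Nat.mod_lt g h0
    by_cases h1 : g % n = 0
    · have e : (g : ZMod n) = 0 := by rw [← hmod, h1, Nat.cast_zero]
      rw [e, add_zero] at hg2
      rcases hg2 with h2 | h2
      · exact h2 (h.de T hT)
      · exact hT (h.gd T h2)
    · refine hmin (g % n) (by omega) ⟨by omega, T, hT, ?_⟩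
      rw [hmod]
      exact hg2
  have hbt : ∀ i : ℕ, 0 < i → i < g → D (T + (i : ZMod n)) = 0 ∧ E (T + (i : ZMod n)) = 0 ∧
      G (T + (i : ZMod n)) = 0 := by
    intro i hi0 hi
    refine ⟨?_, ?_, ?_⟩
    · by_contra h1
      refine hmin (g - i) (by omega) ⟨by omega, T + (i : ZMod n), h1, ?_⟩
      have : T + (i : ZMod n) + ((g - i : ℕ) : ZMod n) = T + (g : ZMod n) := by
        rw [add_assoc, ← Nat.cast_add]
        congr 2
        omega
      rw [this]
      exact hg2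
    · by_contra h1
      exact hmin i hi ⟨hi0, T, hT, Or.inl h1⟩
    · by_contra h1
      exact hmin i hi ⟨hi0, T, hT, Or.inr h1⟩
  have h' := h.tl T
  have e0 : UEL.tl T D 0 ≠ 0 := by
    unfold UEL.tl
    rwa [zero_add]
  have ei : ∀ (D : ZMod n → ℤ) (i : ℕ), UEL.tl T D (i : ZMod n) = D (T + (i : ZMod n)) := by
    intro D i
    unfold UEL.tl
    rw [add_comm]
  rcases hg2 with h2 | h2
  · refine key h' (fun hc => hQ hc.of_tl) g hg1 hgn e0 (by rw [ei]; exact h2) fun i hi0 hi => ?_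
    rw [ei, ei, ei]
    exact hbt i hi0 hi
  · refine key h'.sw (fun hc => hQ hc.of_sw.of_tl) g hg1 hgn e0 (by rw [ei]; exact h2)
      fun i hi0 hi => ?_
    rw [ei, ei, ei]
    exact ⟨(hbt i hi0 hi).1, (hbt i hi0 hi).2.2, (hbt i hi0 hi).2.1⟩

end Pool.Agent.UEL
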