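import Pool.Agent.Lib_helper7.UEL.Lab

/-!
# Three divisors on the cyclic group of order twelve: the values
-/

set_option autoImplicit false
set_option linter.unusedVariables false

namespace Pool.Agent.UEL

open UP Finset

/-- the three fibres with their sums -/
structure Vb (X Y Z : ℕ → ℤ) (d : ℤ) : Prop extends Lb X Y Z where
  sx : ∑ y ∈ range 12, X y = d
  sy : ∑ y ∈ range 12, Y y = d
  sz : ∑ y ∈ range 12, Z y = d
  wx : (12 : ℤ) ∣ ∑ y ∈ range 12, (y : ℤ) * (X y - Y y)
  wy : (12 : ℤ) ∣ ∑ y ∈ range 12, (y : ℤ) * (Y y - Z y)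
  wz : (12 : ℤ) ∣ ∑ y ∈ range 12, (y : ℤ) * (Z y - X y)

lemma Vb.rot {X Y Z : ℕ → ℤ} {d : ℤ} (h : Vb X Y Z d) : Vb Y Z X d :=
  ⟨h.toLb.rot, h.sy, h.sz, h.sx, h.wy, h.wz, h.wx⟩

/-- the values -/
def vv (X Y Z : ℕ → ℤ) (y : ℕ) : ℕ := if y < 12 then (X y + Y y + Z y).toNat else 0

lemma vv_rot (X Y Z : ℕ → ℤ) : vv Y Z X = vv X Y Z := by
  funext y
  unfold vv
  have : Y y + Z y + X y = X y + Y y + Z y := by ring
  rw [this]

lemma vv_cast {X Y Z : ℕ → ℤ} (h : Lb X Y Z) {y : ℕ} (hy : y < 12) :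
    (vv X Y Z y : ℤ) = X y + Y y + Z y := by
  unfold vv
  rw [if_pos hy]
  have := h.x0 y
  have := h.y0 y
  have := h.z0 y
  exact Int.toNat_of_nonneg (by linarith)

lemma bt_bm (X : ℕ → ℤ) {y : ℕ} (hy : y < 12) : bt (bm X) y = if X y ≠ 0 then 1 else 0 := by
  rw [bt_eq, bm_bit]
  by_cases h : X y = 0
  · simp [h]
  · simp [h, hy]

lemma btv {X Y Z : ℕ → ℤ} (h : Lb X Y Z) {y : ℕ} (hy : y < 12) :
    (bt (bm X) y : ℤ) * vv X Y Z y = X y := by
  rw [bt_bm X hy, vv_cast h hy]
  by_cases hx : X y = 0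
  · simp [hx]
  · have h1 := h.xy y hx
    have h2 : Z y = 0 := by
      by_contra h3
      exact hx (h.zx y h3)
    simp [hx, h1, h2]

lemma cnt_cons (z : ℕ) (P : List ℕ) (y : ℕ) : cnt (z :: P) y = ind z y + cnt P y := by
  show cond (Nat.beq z y) (cnt P y + 1) (cnt P y) = cond (Nat.beq z y) 1 0 + cnt P y
  cases Nat.beq z y
  · show cnt P y = 0 + cnt P y
    omega
  · show cnt P y + 1 = 1 + cnt P y
    omega

lemma sv_eq (st : ℕ → ℕ) {P : List ℕ} (hP : lt12 P = true) :
    (sv st P : ℤ) = ∑ y ∈ range 12, (cnt P y : ℤ) * st y := by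
  induction P with
  | nil => simp [sv, cnt]
  | cons z P ih =>
    unfold lt12 at hP
    rw [List.all_cons, Bool.and_eq_true] at hP
    have hz : z < 12 := by simpa using hP.1
    have e1 : sv st (z :: P) = st z + sv st P := rfl
    rw [e1]
    push_cast
    rw [ih hP.2]
    have e2 : ∀ y ∈ range 12, (cnt (z :: P) y : ℤ) * st y =
        (ind z y : ℤ) * st y + (cnt P y : ℤ) * st y := by
      intro y _
      rw [cnt_cons]
      push_cast
      ring
    rw [Finset.sum_congr rfl e2, Finset.sum_add_distrib, sum_ind (fun y => (st y : ℤ)) hz]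

lemma sw_eq (st : ℕ → ℕ) {P : List ℕ} (hP : lt12 P = true) :
    (sw st P : ℤ) = ∑ y ∈ range 12, (cnt P y : ℤ) * (y * st y) := by
  induction P with
  | nil => simp [sw, cnt]
  | cons z P ih =>
    unfold lt12 at hP
    rw [List.all_cons, Bool.and_eq_true] at hP
    have hz : z < 12 := by simpa using hP.1
    have e1 : sw st (z :: P) = z * st z + sw st P := rfl
    rw [e1]
    push_cast
    rw [ih hP.2]
    have e2 : ∀ y ∈ range 12, (cnt (z :: P) y : ℤ) * ((y : ℤ) * st y) =
        (ind z y : ℤ) * ((y : ℤ) * st y) + (cnt P y : ℤ) * ((y : ℤ) * st y) := by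
      intro y _
      rw [cnt_cons]
      push_cast
      ring
    rw [Finset.sum_congr rfl e2, Finset.sum_add_distrib,
      sum_ind (fun y => (y : ℤ) * (st y : ℤ)) hz]

variable {X Y Z : ℕ → ℤ} {d : ℤ}

/-- a relation -/
lemma eq_true (h : Lb X Y Z) {T U j : ℕ} {P N : List ℕ} (hP : lt12 P = true) (hN : lt12 N = true)
    (hs : seq (bm X) (bm Y) (bm Z) T U j P N = true) :
    sv (vv X Y Z) P = sv (vv X Y Z) N := by
  unfold seq at hs
  simp only [Bool.and_eq_true, List.all_eq_true] at hs
  obtain ⟨⟨⟨⟨⟨hT, hU⟩, hj⟩, bT⟩, bU⟩, hs⟩ := hs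
  have hT : T < 12 := by simpa using hT
  have hU : U < 12 := by simpa using hU
  have hj : j < 12 := by simpa using hj
  have bT := Nat.eq_of_beq_eq_true bT
  have bU := Nat.eq_of_beq_eq_true bU
  have tT : X T ≠ 0 := by
    intro h0
    rw [bt_bm X hT, h0] at bT
    simp at bT
  have tU : X U ≠ 0 := by
    intro h0
    rw [bt_bm X hU, h0] at bU
    simp at bU
  have key := h.rx T U j hT hU hj tT tU
  have e1 : (sv (vv X Y Z) P : ℤ) = ∑ y ∈ range 12,
      ((bt (mA T U j) y : ℤ) * Y y + bt (mA U T j) y * Z y) := by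
    rw [sv_eq _ hP]
    refine Finset.sum_congr rfl fun y hy => ?_
    have hy := Finset.mem_range.mp hy
    rw [Nat.eq_of_beq_eq_true (hs y (mem_r12.mpr hy)).1]
    have b1 := btv h.rot hy
    have b2 := btv h.rot.rot hy
    rw [vv_rot] at b1
    rw [vv_rot, vv_rot] at b2
    push_cast
    linear_combination (bt (mA T U j) y : ℤ) * b1 + (bt (mA U T j) y : ℤ) * b2
  have e2 : (sv (vv X Y Z) N : ℤ) = ∑ y ∈ range 12,
      ((bt (mA U T j) y : ℤ) * Y y + bt (mA T U j) y * Z y) := by
    rw [sv_eq _ hN]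
    refine Finset.sum_congr rfl fun y hy => ?_
    have hy := Finset.mem_range.mp hy
    rw [Nat.eq_of_beq_eq_true (hs y (mem_r12.mpr hy)).2]
    have b1 := btv h.rot hy
    have b2 := btv h.rot.rot hy
    rw [vv_rot] at b1
    rw [vv_rot, vv_rot] at b2
    push_cast
    linear_combination (bt (mA U T j) y : ℤ) * b1 + (bt (mA T U j) y : ℤ) * b2
  have e3 : (sv (vv X Y Z) P : ℤ) - sv (vv X Y Z) N = 0 := by
    rw [e1, e2, ← Finset.sum_sub_distrib, ← key]
    refine Finset.sum_congr rfl fun y _ => ?_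
    ring
  have := sub_eq_zero.mp e3
  exact_mod_cast this

lemma cls_sum (h : Lb X Y Z) {P : List ℕ} (hP : lt12 P = true)
    (hs : ∀ y ∈ r12, cnt P y = bt (bm X) y) :
    (sv (vv X Y Z) P : ℤ) = ∑ y ∈ range 12, X y ∧
    (sw (vv X Y Z) P : ℤ) = ∑ y ∈ range 12, (y : ℤ) * X y := by
  constructor
  · rw [sv_eq _ hP]
    refine Finset.sum_congr rfl fun y hy => ?_
    have hy := Finset.mem_range.mp hy
    rw [hs y (mem_r12.mpr hy), btv h hy]
  · rw [sw_eq _ hP]
    refine Finset.sum_congr rfl fun y hy => ?_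
    have hy := Finset.mem_range.mp hy
    rw [hs y (mem_r12.mpr hy)]
    have := btv h hy
    linear_combination (y : ℤ) * this

/-- the sums -/
lemma sm_true (h : Vb X Y Z d) {P N : List ℕ} (hP : lt12 P = true) (hN : lt12 N = true)
    (hs : ssm (bm X) (bm Y) P N = true) :
    sv (vv X Y Z) P = sv (vv X Y Z) N ∧ sw (vv X Y Z) P % 12 = sw (vv X Y Z) N % 12 := by
  unfold ssm at hs
  rw [List.all_eq_true] at hs
  have h1 := cls_sum h.toLb hP fun y hy => by
    have := hs y hy
    rw [Bool.and_eq_true] at this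
    exact Nat.eq_of_beq_eq_true this.1
  have h2 := cls_sum h.toLb.rot hN fun y hy => by
    have := hs y hy
    rw [Bool.and_eq_true] at this
    exact Nat.eq_of_beq_eq_true this.2
  rw [vv_rot] at h2
  constructor
  · have : (sv (vv X Y Z) P : ℤ) = sv (vv X Y Z) N := by
      rw [h1.1, h2.1, h.sx, h.sy]
    exact_mod_cast this
  · have e := h.wx
    have e1 : ∑ y ∈ range 12, (y : ℤ) * (X y - Y y) =
        (sw (vv X Y Z) P : ℤ) - sw (vv X Y Z) N := by
      rw [h1.2, h2.2, ← Finset.sum_sub_distrib]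
      refine Finset.sum_congr rfl fun y _ => ?_
      ring
    rw [e1] at e
    omega

lemma le_sum (h : Lb X Y Z) {y : ℕ} (hy : y < 12) : X y ≤ ∑ y ∈ range 12, X y :=
  Finset.single_le_sum (fun i _ => h.x0 i) (Finset.mem_range.mpr hy)

lemma cnt_pos {P : List ℕ} {y : ℕ} (hy : y ∈ P) : 1 ≤ cnt P y := by
  induction P with
  | nil => simp at hy
  | cons z P ih =>
    rw [cnt_cons]
    rcases List.mem_cons.mp hy with h | h
    · rw [ind_eq, if_pos h.symm]
      omega
    · have := ih h
      omega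

lemma sv_ge (st : ℕ → ℕ) {P : List ℕ} (hP : ∀ y ∈ P, 1 ≤ st y) : P.length ≤ sv st P := by
  induction P with
  | nil => simp [sv]
  | cons z P ih =>
    have e1 : sv st (z :: P) = st z + sv st P := rfl
    have h1 := hP z (by simp)
    have h2 := ih fun y hy => hP y (by simp [hy])
    rw [e1, List.length_cons]
    omega

/-- the bounds -/
lemma bd_true (h : Vb X Y Z d) {m : ℕ} (hm : d ≤ m) {P U : List ℕ} {b : ℕ} (hP : lt12 P = true)
    (hU : lt12 U = true) (hs : sbd (bm X) m P U b = true) : sv (vv X Y Z) P ≤ b := by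
  unfold sbd at hs
  rw [Bool.and_eq_true, List.all_eq_true] at hs
  obtain ⟨h1, h2⟩ := hs
  have h1 := Nat.le_of_ble_eq_true h1
  have h2 : ∀ y ∈ r12, cnt P y + cnt U y = bt (bm X) y := fun y hy =>
    Nat.eq_of_beq_eq_true (h2 y hy)
  have h3 : (sv (vv X Y Z) P : ℤ) + sv (vv X Y Z) U = d := by
    rw [sv_eq _ hP, sv_eq _ hU, ← Finset.sum_add_distrib, ← h.sx]
    refine Finset.sum_congr rfl fun y hy => ?_
    have hy := Finset.mem_range.mp hy
    rw [← btv h.toLb hy, ← h2 y (mem_r12.mpr hy)]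
    push_cast
    ring
  have h4 : U.length ≤ sv (vv X Y Z) U := by
    apply sv_ge
    intro y hy
    have hy' : y < 12 := by
      unfold lt12 at hU
      rw [List.all_eq_true] at hU
      simpa using hU y hy
    have h5 := cnt_pos hy
    have h6 := h2 y (mem_r12.mpr hy')
    rw [bt_bm X hy'] at h6
    by_contra h7
    have h8 : vv X Y Z y = 0 := by omega
    have h9 := btv h.toLb hy'
    rw [h8, Nat.cast_zero, mul_zero] at h9
    rw [← h9] at h6
    simp at h6
    omega
  omega

/-- all tests are true -/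
lemma test_true (h : Vb X Y Z d) {m : ℕ} (hm : d ≤ m) (t : Test)
    (hs : stk m (bm X) (bm Y) (bm Z) t = true) : chk (vv X Y Z) t = true := by
  unfold stk at hs
  split at hs
  · rw [Bool.and_eq_true, Bool.and_eq_true] at hs
    have := eq_true h.toLb hs.1.1 hs.1.2 hs.2
    show Nat.beq _ _ = true
    rw [this, Nat.beq_refl]
  · rw [Bool.and_eq_true, Bool.and_eq_true] at hs
    have := eq_true h.toLb.rot hs.1.1 hs.1.2 hs.2
    rw [vv_rot] at this
    show Nat.beq _ _ = true
    rw [this, Nat.beq_refl]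
  · rw [Bool.and_eq_true, Bool.and_eq_true] at hs
    have := eq_true h.toLb.rot.rot hs.1.1 hs.1.2 hs.2
    rw [vv_rot, vv_rot] at this
    show Nat.beq _ _ = true
    rw [this, Nat.beq_refl]
  · rw [Bool.and_eq_true, Bool.and_eq_true] at hs
    have := (sm_true h hs.1.1 hs.1.2 hs.2).1
    show Nat.beq _ _ = true
    rw [this, Nat.beq_refl]
  · rw [Bool.and_eq_true, Bool.and_eq_true] at hs
    have := (sm_true h.rot hs.1.1 hs.1.2 hs.2).1
    rw [vv_rot] at this
    show Nat.beq _ _ = true
    rw [this, Nat.beq_refl]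
  · rw [Bool.and_eq_true, Bool.and_eq_true] at hs
    have := (sm_true h.rot.rot hs.1.1 hs.1.2 hs.2).1
    rw [vv_rot, vv_rot] at this
    show Nat.beq _ _ = true
    rw [this, Nat.beq_refl]
  · rw [Bool.and_eq_true, Bool.and_eq_true] at hs
    have := (sm_true h hs.1.1 hs.1.2 hs.2).2
    show Nat.beq _ _ = true
    rw [this, Nat.beq_refl]
  · rw [Bool.and_eq_true, Bool.and_eq_true] at hs
    have := (sm_true h.rot hs.1.1 hs.1.2 hs.2).2
    rw [vv_rot] at this
    show Nat.beq _ _ = true
    rw [this, Nat.beq_refl]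
  · rw [Bool.and_eq_true, Bool.and_eq_true] at hs
    have := (sm_true h.rot.rot hs.1.1 hs.1.2 hs.2).2
    rw [vv_rot, vv_rot] at this
    show Nat.beq _ _ = true
    rw [this, Nat.beq_refl]
  · rw [Bool.and_eq_true, Bool.and_eq_true] at hs
    exact Nat.ble_eq_true_of_le (bd_true h hm hs.1.1 hs.1.2 hs.2)
  · rw [Bool.and_eq_true, Bool.and_eq_true] at hs
    have := bd_true h.rot hm hs.1.1 hs.1.2 hs.2
    rw [vv_rot] at this
    exact Nat.ble_eq_true_of_le this
  · rw [Bool.and_eq_true, Bool.and_eq_true] at hs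
    have := bd_true h.rot.rot hm hs.1.1 hs.1.2 hs.2
    rw [vv_rot, vv_rot] at this
    exact Nat.ble_eq_true_of_le this

lemma sv_congr {st st' : ℕ → ℕ} {P : List ℕ} (h : ∀ y ∈ P, st y = st' y) : sv st P = sv st' P := by
  induction P with
  | nil => rfl
  | cons z P ih =>
    show st z + sv st P = st' z + sv st' P
    rw [h z (by simp), ih fun y hy => h y (by simp [hy])]

lemma sw_congr {st st' : ℕ → ℕ} {P : List ℕ} (h : ∀ y ∈ P, st y = st' y) : sw st P = sw st' P := by
  induction P with
  | nil => rfl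
  | cons z P ih =>
    show z * st z + sw st P = z * st' z + sw st' P
    rw [h z (by simp), ih fun y hy => h y (by simp [hy])]

lemma chk_congr {st st' : ℕ → ℕ} (t : Test) (h : ∀ y ∈ tpt t, st y = st' y) :
    chk st t = chk st' t := by
  cases t with
  | eq c T U j P N =>
    have h1 : ∀ y ∈ P, st y = st' y := fun y hy => h y (List.mem_append_left _ hy)
    have h2 : ∀ y ∈ N, st y = st' y := fun y hy => h y (List.mem_append_right _ hy)
    show Nat.beq _ _ = Nat.beq _ _
    rw [sv_congr h1, sv_congr h2]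
  | sm c P N =>
    have h1 : ∀ y ∈ P, st y = st' y := fun y hy => h y (List.mem_append_left _ hy)
    have h2 : ∀ y ∈ N, st y = st' y := fun y hy => h y (List.mem_append_right _ hy)
    show Nat.beq _ _ = Nat.beq _ _
    rw [sv_congr h1, sv_congr h2]
  | md c P N =>
    have h1 : ∀ y ∈ P, st y = st' y := fun y hy => h y (List.mem_append_left _ hy)
    have h2 : ∀ y ∈ N, st y = st' y := fun y hy => h y (List.mem_append_right _ hy)
    show Nat.beq _ _ = Nat.beq _ _
    rw [sw_congr h1, sw_congr h2]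
  | bd c P U b =>
    have h1 : ∀ y ∈ P, st y = st' y := fun y hy => h y hy
    show Nat.ble _ _ = Nat.ble _ _
    rw [sv_congr h1]

/-- the search for the values is correct -/
theorem run_sound (h : Vb X Y Z d) {m : ℕ} (hm : d ≤ m) {fin : (ℕ → ℕ) → Bool} {vs : List ℕ}
    (hvs : ∀ y < 12, bt (bm X) y + bt (bm Y) y + bt (bm Z) y = 1 → vv X Y Z y ∈ vs)
    (l : List (ℕ × List Test)) (hs : stl m (bm X) (bm Y) (bm Z) l = true) (st : ℕ → ℕ)
    (hst : ∀ y, (∀ e ∈ l, e.1 ≠ y) → st y = vv X Y Z y) (hr : run vs fin l st = true) :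
    fin (vv X Y Z) = true := by
  induction l generalizing st with
  | nil =>
    have : st = vv X Y Z := funext fun y => hst y (by simp)
    rw [← this]
    exact hr
  | cons x l ih =>
    rw [stl, Bool.and_eq_true, Bool.and_eq_true, List.all_eq_true] at hs
    obtain ⟨⟨h1, h2⟩, h3⟩ := hs
    have h1 := Nat.eq_of_beq_eq_true h1
    have hx : x.1 < 12 := by
      by_contra hx
      have e : ∀ f : ℕ → ℤ, bt (bm f) x.1 = 0 := by
        intro f
        rw [bt_eq, bm_bit]
        simp [hx]
      rw [e, e, e] at h1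
      omega
    have h4 := hvs x.1 hx h1
    rw [run, List.all_eq_true] at hr
    have hr := hr _ h4
    set st' : ℕ → ℕ := fun y => cond (Nat.beq y x.1) (vv X Y Z x.1) (st y) with hst'
    have key : ∀ y, (∀ e ∈ l, e.1 ≠ y) → st' y = vv X Y Z y := by
      intro y hy
      rw [hst']
      show cond (Nat.beq y x.1) (vv X Y Z x.1) (st y) = vv X Y Z y
      by_cases hyx : y = x.1
      · subst hyx
        rw [Nat.beq_refl]
        rfl
      · have : Nat.beq y x.1 = false := by
          rw [Bool.eq_false_iff]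
          exact fun hb => hyx (Nat.eq_of_beq_eq_true hb)
        rw [this]
        show st y = _
        apply hst
        intro e he
        rcases List.mem_cons.mp he with h5 | h5
        · rw [h5]; exact fun h6 => hyx h6.symm
        · exact hy e h5
    have tests : x.2.all (chk st') = true := by
      rw [List.all_eq_true]
      intro t ht
      have h5 := h2 t ht
      rw [Bool.and_eq_true, List.all_eq_true] at h5
      rw [chk_congr (st' := vv X Y Z) t]
      · exact test_true h hm t h5.1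
      · intro y hy
        apply key
        intro e he h6
        have h7 := h5.2 y hy
        rw [List.all_eq_true] at h7
        have h7 := h7 e he
        rw [h6, Nat.beq_refl] at h7
        simp at h7
    rw [tests] at hr
    simp only [Bool.not_true, Bool.false_or] at hr
    exact ih h3 st' key hr

lemma bt_or (h : Lb X Y Z) {y : ℕ} (hy : y < 12) :
    (bt (bm X) y + bt (bm Y) y + bt (bm Z) y = 0 ∧ vv X Y Z y = 0) ∨
    (bt (bm X) y + bt (bm Y) y + bt (bm Z) y = 1 ∧ 1 ≤ vv X Y Z y) := by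
  have hv := vv_cast h hy
  have x0 := h.x0 y
  have y0 := h.y0 y
  have z0 := h.z0 y
  rw [bt_bm X hy, bt_bm Y hy, bt_bm Z hy]
  by_cases h1 : X y = 0
  · by_cases h2 : Y y = 0
    · by_cases h3 : Z y = 0
      · left
        rw [h1, h2, h3] at hv ⊢
        simp at hv ⊢
        exact hv
      · right
        rw [h1, h2] at hv ⊢
        simp [h3] at hv ⊢
        omega
    · right
      have h3 := h.yz y h2
      rw [h1, h3] at hv ⊢
      simp [h2] at hv ⊢
      omega
  · right
    have h2 := h.xy y h1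
    have h3 : Z y = 0 := by
      by_contra h4
      exact h1 (h.zx y h4)
    rw [h2, h3] at hv ⊢
    simp [h1] at hv ⊢
    omega

/-- a certificate gives the values -/
theorem cc_sound (h : Vb X Y Z d) (hd : d ≤ ∑ y ∈ range 12, ((bt (bm X) y : ℤ) + bt (bm Y) y +
    bt (bm Z) y)) {c : Cer} (hX : bm X = c.X) (hY : bm Y = c.Y) (hZ : bm Z = c.Z)
    (hc : cc c = true) : ∃ s ∈ c.so, ∀ y < 12, vv X Y Z y = s.2.getD y 0 := by
  unfold cc sc at hc
  rw [Bool.and_eq_true, Bool.and_eq_true, Bool.and_eq_true] at hc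
  obtain ⟨⟨⟨h1, h2⟩, h3⟩, h4⟩ := hc
  rw [← hX, ← hY, ← hZ] at h1 h2 h3
  have h1 := Nat.eq_of_beq_eq_true h1
  have hm : d ≤ c.m := by
    rw [← h1]
    refine hd.trans (le_of_eq ?_)
    rw [Finset.sum_range_succ, Finset.sum_range_succ, Finset.sum_range_succ,
      Finset.sum_range_succ, Finset.sum_range_succ, Finset.sum_range_succ, Finset.sum_range_succ,
      Finset.sum_range_succ, Finset.sum_range_succ, Finset.sum_range_succ, Finset.sum_range_succ,
      Finset.sum_range_succ, Finset.sum_range_zero]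
    unfold r12
    simp only [List.foldr_cons, List.foldr_nil]
    push_cast
    ring
  have h5 := run_sound h hm (vs := vls c.m) ?_ c.st h3 (fun _ => 0) ?_ h4
  · unfold fin at h5
    rw [List.any_eq_true] at h5
    obtain ⟨s, hs, h5⟩ := h5
    exact ⟨s, hs, fun y hy => Nat.eq_of_beq_eq_true (all12 h5 hy)⟩
  · intro y hy hb
    rcases bt_or h.toLb hy with h6 | h6
    · omega
    · have h7 : (vv X Y Z y : ℤ) ≤ d := by
        have e1 := le_sum h.toLb hy
        have e2 := le_sum h.toLb.rot hy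
        have e3 := le_sum h.toLb.rot.rot hy
        rw [h.sx] at e1
        rw [h.sy] at e2
        rw [h.sz] at e3
        have b1 := btv h.toLb hy
        have b2 := btv h.toLb.rot hy
        have b3 := btv h.toLb.rot.rot hy
        rw [vv_rot] at b2
        rw [vv_rot, vv_rot] at b3
        have : bt (bm X) y = 1 ∨ bt (bm Y) y = 1 ∨ bt (bm Z) y = 1 := by omega
        rcases this with e | e | e
        · rw [e, Nat.cast_one, one_mul] at b1; omega
        · rw [e, Nat.cast_one, one_mul] at b2; omega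
        · rw [e, Nat.cast_one, one_mul] at b3; omega
      unfold vls
      rw [List.mem_map]
      exact ⟨vv X Y Z y - 1, List.mem_range.mpr (by omega), by omega⟩
  · intro y hy
    show 0 = vv X Y Z y
    by_cases h12 : y < 12
    · rcases bt_or h.toLb h12 with h6 | h6
      · exact h6.2.symm
      · exfalso
        have h7 := all12 h2 h12
        rw [Bool.or_eq_true] at h7
        rcases h7 with h7 | h7
        · have := Nat.eq_of_beq_eq_true h7
          omega
        · rw [List.any_eq_true] at h7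
          obtain ⟨e, he, h7⟩ := h7
          exact hy e he (Nat.eq_of_beq_eq_true h7)
    · unfold vv
      rw [if_neg h12]

end Pool.Agent.UEL
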